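import Pool.Agent.H994.AP.Stmts

set_option autoImplicit false

open Set Filter Topology

namespace H994.AP

open H74R2.WT

namespace Cham

lemma sd_shift (u : Circle) (d : ℝ) (z : ℂ) (τ : ℝ) :
    sd u d (z + τ * (Complex.I * u)) = sd u d z + τ := by
  have hu : ((starRingEnd ℂ) (u : ℂ) * (u : ℂ)) = 1 := by
    rw [← Complex.normSq_eq_conj_mul_self, Circle.normSq_coe]; simp
  have e : (starRingEnd ℂ) (u : ℂ) * (z + τ * (Complex.I * u)) =
      (starRingEnd ℂ) (u : ℂ) * z + τ * Complex.I * ((starRingEnd ℂ) (u : ℂ) * u) := by ring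
  unfold sd
  rw [e, hu]
  simp
  ring

lemma sd_cont (u : Circle) (d : ℝ) : Continuous (sd u d) := by
  unfold sd
  fun_prop

/-- the perpendicular bisector -/
lemma bisector {a b : ℂ} (hab : a ≠ b) : ∃ (u : Circle) (d : ℝ), ∀ z : ℂ,
    dist z a ^ 2 - dist z b ^ 2 = 2 * ‖b - a‖ * sd u d z := by
  have hn : 0 < ‖b - a‖ := norm_pos_iff.2 (sub_ne_zero.2 (Ne.symm hab))
  have hn' : (‖b - a‖ : ℂ) ≠ 0 := by exact_mod_cast hn.ne'
  have hu : ‖-Complex.I * (b - a) / (‖b - a‖ : ℂ)‖ = 1 := by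
    rw [norm_div, norm_mul, norm_neg, Complex.norm_I, one_mul, Complex.norm_real, norm_norm,
      div_self hn.ne']
  refine ⟨⟨-Complex.I * (b - a) / (‖b - a‖ : ℂ), by simpa [Submonoid.unitSphere] using hu⟩,
    (‖b‖ ^ 2 - ‖a‖ ^ 2) / (2 * ‖b - a‖), fun z => ?_⟩
  unfold sd
  have e1 : (starRingEnd ℂ) (-Complex.I * (b - a) / (‖b - a‖ : ℂ)) * z =
      ((‖b - a‖⁻¹ : ℝ) : ℂ) * (Complex.I * ((starRingEnd ℂ) (b - a) * z)) := by
    rw [map_div₀, map_mul, map_neg, Complex.conj_I, Complex.conj_ofReal]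
    push_cast
    field_simp
  simp only []
  rw [e1, Complex.im_ofReal_mul]
  have e2 : (Complex.I * ((starRingEnd ℂ) (b - a) * z)).im = (b - a).re * z.re + (b - a).im * z.im := by
    simp [Complex.mul_im, Complex.mul_re]
    ring
  rw [e2, dist_eq_norm, dist_eq_norm, Complex.sq_norm, Complex.sq_norm, Complex.sq_norm, Complex.sq_norm]
  simp only [Complex.normSq_apply, Complex.sub_re, Complex.sub_im]
  field_simp
  ring

lemma fix_empty {g : ℂ ≃ᵢ ℂ} (hg : g ≠ 1) : interior {z : ℂ | g z = z} = ∅ := by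
  rw [Set.eq_empty_iff_forall_notMem]
  intro z0 hz0
  apply hg
  obtain ⟨ε, hε, hball⟩ := Metric.isOpen_iff.1 isOpen_interior z0 hz0
  have hfix : ∀ w : ℂ, ‖w‖ ≤ ε / 2 → g (z0 + w) = z0 + w := by
    intro w hw
    have : z0 + w ∈ Metric.ball z0 ε := by
      rw [Metric.mem_ball, dist_eq_norm]
      simp only [add_sub_cancel_left]
      linarith
    have h := interior_subset (s := {z : ℂ | g z = z}) (hball this)
    exact h
  have hε2 : ((ε / 2 : ℝ) : ℂ) ≠ 0 := by
    exact_mod_cast (by positivity : ε / 2 ≠ 0)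
  have h0 := hfix 0 (by simp; positivity)
  have h1 := hfix ((ε / 2 : ℝ) : ℂ) (by rw [Complex.norm_real, Real.norm_eq_abs, abs_of_pos (by positivity)])
  have h2 := hfix (((ε / 2 : ℝ) : ℂ) * Complex.I) (by
    rw [norm_mul, Complex.norm_I, mul_one, Complex.norm_real, Real.norm_eq_abs, abs_of_pos (by positivity)])
  rw [add_zero] at h0
  obtain ⟨v, c, hv, h | h⟩ := t_K0 g
  · rw [h] at h0 h1 h2
    have e1 : (v - 1) * ((ε / 2 : ℝ) : ℂ) = 0 := by linear_combination h1 - h0
    have hv1 : v = 1 := by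
      rcases mul_eq_zero.1 e1 with h | h
      · linear_combination h
      · exact absurd h hε2
    have hc : c = 0 := by rw [hv1] at h0; linear_combination h0
    ext z
    rw [h, hv1, hc]
    simp
  · exfalso
    rw [h] at h0 h1 h2
    simp only [map_add, map_mul, Complex.conj_I, Complex.conj_ofReal] at h1 h2
    have e1 : (v - 1) * ((ε / 2 : ℝ) : ℂ) = 0 := by linear_combination h1 - h0
    have e2 : (v + 1) * (((ε / 2 : ℝ) : ℂ) * Complex.I) = 0 := by linear_combination h0 - h2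
    have hv1 : v = 1 := by
      rcases mul_eq_zero.1 e1 with h | h
      · linear_combination h
      · exact absurd h hε2
    rw [hv1] at e2
    rcases mul_eq_zero.1 e2 with h | h
    · norm_num at h
    · rcases mul_eq_zero.1 h with h | h
      · exact hε2 h
      · exact Complex.I_ne_zero h

end Cham

open Cham in
theorem t_cham (hS : S_stab) : S_cham := by
  classical
  intro P hP hne
  have hfin := hS P hP hne
  set St : Finset (ℂ ≃ᵢ ℂ) := hfin.toFinset with hSt
  have mem : ∀ g : ℂ ≃ᵢ ℂ, g ∈ St ↔ g '' P = P := by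
    intro g; simp [hSt]
  have one_mem : (1 : ℂ ≃ᵢ ℂ) ∈ St := by
    rw [mem]; simp
  have mul_mem : ∀ g k : ℂ ≃ᵢ ℂ, g ∈ St → k ∈ St → g * k ∈ St := by
    intro g k hg hk
    rw [mem] at hg hk ⊢
    have : (g * k : ℂ ≃ᵢ ℂ) '' P = g '' (k '' P) := by
      rw [image_image]; rfl
    rw [this, hk, hg]
  have inv_mem : ∀ g : ℂ ≃ᵢ ℂ, g ∈ St → g⁻¹ ∈ St := by
    intro g hg
    rw [mem] at hg ⊢
    conv_lhs => rw [← hg]
    rw [image_image]
    simp
  -- the base point
  obtain ⟨q, hqP, hq⟩ : ∃ q ∈ interior P, ∀ g ∈ St, g ≠ 1 → g q ≠ q := by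
    have hd : Dense (⋂ g ∈ ((St.erase 1 : Finset (ℂ ≃ᵢ ℂ)) : Set (ℂ ≃ᵢ ℂ)), {z : ℂ | g z = z}ᶜ) := by
      refine dense_biInter_of_isOpen ?_ (Finset.countable_toSet _) ?_
      · intro g _
        exact (isClosed_eq g.continuous continuous_id).isOpen_compl
      · intro g hg
        rw [← interior_eq_empty_iff_dense_compl]
        exact fix_empty (Finset.ne_of_mem_erase (Finset.mem_coe.1 hg))
    obtain ⟨q, hq1, hq2⟩ := hd.inter_open_nonempty _ isOpen_interior hne
    refine ⟨q, hq1, fun g hg hg1 h => ?_⟩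
    have := mem_iInter₂.1 hq2 g (by simp [hg, hg1])
    exact this h
  have hinj : ∀ g ∈ St, ∀ k ∈ St, g q = k q → g = k := by
    intro g hg k hk h
    by_contra hne
    apply hq (g⁻¹ * k) (mul_mem _ _ (inv_mem _ hg) hk) (fun h1 => hne ?_)
    · rw [IsometryEquiv.mul_apply, ← h]
      simp
    · rw [inv_mul_eq_one] at h1
      exact h1
  -- the cells
  set C : (ℂ ≃ᵢ ℂ) → Set ℂ := fun g => {z | z ∈ P ∧ ∀ k ∈ St, dist z (g q) ≤ dist z (k q)} with hC
  have himg : ∀ g ∈ St, g '' (C 1) = C g := by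
    intro g hg
    have hgP := (mem g).1 hg
    have hgP' := (mem _).1 (inv_mem g hg)
    ext z
    constructor
    · rintro ⟨w, ⟨hw1, hw2⟩, rfl⟩
      refine ⟨by rw [← hgP]; exact mem_image_of_mem _ hw1, fun k hk => ?_⟩
      have := hw2 (g⁻¹ * k) (mul_mem _ _ (inv_mem _ hg) hk)
      rw [IsometryEquiv.mul_apply] at this
      rw [g.dist_eq]
      have e : dist (g w) (k q) = dist w (g⁻¹ (k q)) := by
        rw [← g.dist_eq w]
        simp
      rw [e]
      simpa using this
    · rintro ⟨hz1, hz2⟩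
      refine ⟨g⁻¹ z, ⟨?_, fun k hk => ?_⟩, by simp⟩
      · rw [← hgP']
        exact mem_image_of_mem _ hz1
      · have := hz2 (g * k) (mul_mem _ _ hg hk)
        rw [IsometryEquiv.mul_apply] at this
        have e1 : dist (g⁻¹ z) ((1 : ℂ ≃ᵢ ℂ) q) = dist z (g q) := by
          rw [← g.dist_eq]
          simp
        have e2 : dist (g⁻¹ z) (k q) = dist z (g (k q)) := by
          rw [← g.dist_eq]
          simp
        rw [e1, e2]
        exact this
  have hCsub : ∀ g, C g ⊆ P := fun g z hz => hz.1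
  have hcl : IsClosed (C 1) := by
    have : C 1 = P ∩ ⋂ k ∈ St, {z : ℂ | dist z ((1 : ℂ ≃ᵢ ℂ) q) ≤ dist z (k q)} := by
      ext z; simp [hC]
    rw [this]
    refine hP.cpt.isClosed.inter (isClosed_biInter fun k _ => ?_)
    exact isClosed_le (by fun_prop) (by fun_prop)
  -- bisectors
  have hbis : ∀ k ∈ St.erase 1, ∃ p : Circle × ℝ, ∀ z : ℂ, dist z q = dist z (k q) → sd p.1 p.2 z = 0 := by
    intro k hk
    have hk1 := Finset.ne_of_mem_erase hk
    have hk2 := Finset.mem_of_mem_erase hk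
    obtain ⟨u, d, hud⟩ := bisector (Ne.symm (hq k hk2 hk1))
    refine ⟨(u, d), fun z hz => ?_⟩
    have h := hud z
    rw [hz, sub_self] at h
    have hn : 0 < ‖k q - q‖ := norm_pos_iff.2 (sub_ne_zero.2 (hq k hk2 hk1))
    rcases mul_eq_zero.1 h.symm with h | h
    · exfalso; linarith
    · exact h
  choose! φ hφ using hbis
  obtain ⟨F, hF⟩ := hP.lines
  refine ⟨C 1, St, ⟨hP.cpt.of_isClosed_subset hcl (hCsub 1), F ∪ (St.erase 1).image φ, ?_⟩, ?_, ?_, ?_⟩
  · intro z hz
    have hzC : z ∈ C 1 := hcl.frontier_subset hz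
    by_cases hzP : z ∈ frontier P
    · obtain ⟨p, hp, h⟩ := hF z hzP
      exact ⟨p, Finset.mem_union_left _ hp, h⟩
    have hzi : z ∈ interior P := by
      by_contra h
      exact hzP ⟨subset_closure hzC.1, h⟩
    by_cases hex : ∃ k ∈ St.erase 1, dist z q = dist z (k q)
    · obtain ⟨k, hk, h⟩ := hex
      exact ⟨φ k, Finset.mem_union_right _ (Finset.mem_image_of_mem _ hk), hφ k hk z h⟩
    · exfalso
      push Not at hex
      apply hz.2
      rw [mem_interior]
      refine ⟨interior P ∩ ⋂ k ∈ St.erase 1, {w : ℂ | dist w q < dist w (k q)}, ?_, ?_, ?_⟩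
      · rintro w ⟨hw1, hw2⟩
        refine ⟨interior_subset hw1, fun k hk => ?_⟩
        by_cases hk1 : k = 1
        · rw [hk1]
        · have := mem_iInter₂.1 hw2 k (Finset.mem_erase.2 ⟨hk1, hk⟩)
          exact le_of_lt this
      · refine isOpen_interior.inter (isOpen_biInter_finset fun k _ => ?_)
        exact isOpen_lt (by fun_prop) (by fun_prop)
      · refine ⟨hzi, mem_iInter₂.2 fun k hk => ?_⟩
        exact lt_of_le_of_ne (hzC.2 k (Finset.mem_of_mem_erase hk)) (hex k hk)
  · apply Subset.antisymm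
    · intro z hz
      obtain ⟨g, hg, hmin⟩ := Finset.exists_min_image St (fun g => dist z (g q)) ⟨1, one_mem⟩
      refine mem_iUnion₂.2 ⟨g, hg, ?_⟩
      rw [himg g hg]
      exact ⟨hz, hmin⟩
    · refine iUnion₂_subset fun g hg => ?_
      rw [himg g hg]
      exact hCsub g
  · intro g hg k hk hgk
    rw [himg g hg, himg k hk, Set.disjoint_left]
    intro z hz1 hz2
    have hz : z ∈ interior (C g ∩ C k) := by
      rw [interior_inter]; exact ⟨hz1, hz2⟩
    obtain ⟨ε, hε, hball⟩ := Metric.isOpen_iff.1 isOpen_interior z hz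
    have hne' : g q ≠ k q := fun h => hgk (hinj g hg k hk h)
    obtain ⟨u, d, hud⟩ := bisector hne'
    have hn : 0 < ‖k q - g q‖ := norm_pos_iff.2 (sub_ne_zero.2 (Ne.symm hne'))
    have hzero : ∀ w ∈ Metric.ball z ε, sd u d w = 0 := by
      intro w hw
      obtain ⟨h1, h2⟩ := interior_subset (hball hw)
      have h3 : dist w (g q) = dist w (k q) := le_antisymm (h1.2 k hk) (h2.2 g hg)
      have h := hud w
      rw [h3, sub_self] at h
      rcases mul_eq_zero.1 h.symm with h | h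
      · exfalso; linarith
      · exact h
    have h0 := hzero z (Metric.mem_ball_self hε)
    have h1 := hzero (z + ((ε / 2 : ℝ) : ℂ) * (Complex.I * u)) (by
      rw [Metric.mem_ball, dist_eq_norm, add_sub_cancel_left, norm_mul, norm_mul, Complex.norm_I, Circle.norm_coe,
        Complex.norm_real, Real.norm_eq_abs, abs_of_pos (by positivity)]
      linarith)
    rw [sd_shift, h0] at h1
    linarith
  · intro σ hσ hσ1 g hg
    have hσS := (mem σ).2 hσ
    refine ⟨g q, ?_, ?_⟩
    · intro h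
      apply hq (g⁻¹ * σ * g) (mul_mem _ _ (mul_mem _ _ (inv_mem _ hg) hσS) hg)
      · intro h1
        apply hσ1
        have : σ = g * (g⁻¹ * σ * g) * g⁻¹ := by group
        rw [this, h1]; simp
      · rw [IsometryEquiv.mul_apply, IsometryEquiv.mul_apply, h]
        simp
    · rw [himg g hg]
      intro z hz
      have := hz.2 (σ * g) (mul_mem _ _ hσS hg)
      rwa [IsometryEquiv.mul_apply] at this

end H994.AP
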