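import Pool.Agent.H994.AP.Stmts

/-! Additive functions (helper994). -/

set_option autoImplicit false

open Set MeasureTheory Filter Topology

namespace H994.AP

noncomputable section

namespace Hh

theorem irr (n : ℕ) (h : Nat.Prime n) : Irrational (Real.sqrt n) := Nat.Prime.irrational_sqrt h

theorem irr2 : Irrational (Real.sqrt 2) := by exact_mod_cast irr 2 (by norm_num)
theorem irr3 : Irrational (Real.sqrt 3) := by exact_mod_cast irr 3 (by norm_num)

/-- `x + y √3 = 0` with rational `x, y` -/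
theorem lin3 (x y : ℚ) (h : (x : ℝ) + y * Real.sqrt 3 = 0) : x = 0 ∧ y = 0 := by
  have hy : y = 0 := by
    by_contra hy
    apply irr3
    refine ⟨-x / y, ?_⟩
    have hy' : (y : ℝ) ≠ 0 := by exact_mod_cast hy
    push_cast
    field_simp
    linarith
  subst hy
  refine ⟨?_, rfl⟩
  simpa using h

theorem lin2 (x y : ℚ) (h : (x : ℝ) + y * Real.sqrt 2 = 0) : x = 0 ∧ y = 0 := by
  have hy : y = 0 := by
    by_contra hy
    apply irr2
    refine ⟨-x / y, ?_⟩
    have hy' : (y : ℝ) ≠ 0 := by exact_mod_cast hy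
    push_cast
    field_simp
    linarith
  subst hy
  refine ⟨?_, rfl⟩
  simpa using h

/-- `b` and `√3 b` are linearly independent over `ℚ` -/
theorem li (b : ℝ) (hb : 0 < b) : LinearIndependent ℚ ![b, Real.sqrt 3 * b] := by
  rw [LinearIndependent.pair_iff]
  intro s t h
  have h1 : ((s : ℝ) + t * Real.sqrt 3) * b = 0 := by
    have : (s : ℝ) * b + t * (Real.sqrt 3 * b) = 0 := by
      simpa [Rat.smul_def] using h
    linear_combination this
  exact lin3 s t ((mul_eq_zero.1 h1).resolve_right hb.ne')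

theorem nsq2 : ¬ IsSquare 2 := by
  rintro ⟨r, hr⟩
  have : r < 2 := by nlinarith
  interval_cases r <;> omega

theorem nsq6 : ¬ IsSquare 6 := by
  rintro ⟨r, hr⟩
  have : r < 3 := by nlinarith
  interval_cases r <;> omega

theorem sqirr (n : ℕ) (hn : ¬ IsSquare n) (x y : ℚ) (h : x ^ 2 = n * y ^ 2) : x = 0 ∧ y = 0 := by
  have hy : y = 0 := by
    by_contra hy
    apply (irrational_sqrt_natCast_iff.2 hn)
    refine ⟨|x / y|, ?_⟩
    have h1 : ((x / y : ℚ) : ℝ) ^ 2 = n := by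
      have : (x / y) ^ 2 = n := by
        rw [div_pow, h]; field_simp
      exact_mod_cast this
    rw [← h1, Real.sqrt_sq_eq_abs]
    push_cast
    rfl
  subst hy
  refine ⟨?_, rfl⟩
  simpa using h

end Hh

open Hh

theorem t_h1 : S_h1 := by
  intro b x y hb
  have hli := li b hb
  obtain ⟨g, hg⟩ := LinearMap.exists_leftInverse_of_injective
    (Fintype.linearCombination ℚ ![b, Real.sqrt 3 * b])
    (LinearMap.ker_eq_bot.2 (linearIndependent_iff_injective_fintypeLinearCombination.1 hli))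
  have g0 : g b = Pi.single 0 1 := by
    have := LinearMap.congr_fun hg (Pi.single 0 1)
    simpa [Fintype.linearCombination_apply, Fin.sum_univ_two] using this
  have g1 : g (Real.sqrt 3 * b) = Pi.single 1 1 := by
    have := LinearMap.congr_fun hg (Pi.single 1 1)
    simpa [Fintype.linearCombination_apply, Fin.sum_univ_two] using this
  refine ⟨⟨⟨fun z => x * (g z 0 : ℚ) + y * (g z 1 : ℚ), by simp⟩, fun z w => ?_⟩, ?_, ?_⟩
  · simp only [map_add, Pi.add_apply]
    push_cast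
    ring
  · show x * (g b 0 : ℚ) + y * (g b 1 : ℚ) = x
    rw [g0]; simp
  · show x * (g (Real.sqrt 3 * b) 0 : ℚ) + y * (g (Real.sqrt 3 * b) 1 : ℚ) = y
    rw [g1]; simp

theorem t_h2 : S_h2 := by
  intro a b ha hb
  -- the span
  set V : Submodule ℚ ℝ := Submodule.span ℚ {b, Real.sqrt 3 * b} with hV
  have key : a ∉ V ∨ Real.sqrt 2 * a ∉ V := by
    by_contra hcon
    push Not at hcon
    obtain ⟨h1, h2⟩ := hcon
    obtain ⟨x, y, hxy⟩ := Submodule.mem_span_pair.1 h1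
    obtain ⟨z, w, hzw⟩ := Submodule.mem_span_pair.1 h2
    simp only [Rat.smul_def] at hxy hzw
    have e1 : (Real.sqrt 2 * (x + y * Real.sqrt 3) - (z + w * Real.sqrt 3)) * b = 0 := by
      rw [← hxy] at hzw
      linear_combination -hzw
    have e2 := (mul_eq_zero.1 e1).resolve_right hb.ne'
    -- square
    have s2 : Real.sqrt 2 ^ 2 = 2 := Real.sq_sqrt (by norm_num)
    have s3 : Real.sqrt 3 ^ 2 = 3 := Real.sq_sqrt (by norm_num)
    have e3 : ((2 * (x ^ 2 + 3 * y ^ 2) - (z ^ 2 + 3 * w ^ 2) : ℚ) : ℝ) +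
        ((4 * x * y - 2 * z * w : ℚ) : ℝ) * Real.sqrt 3 = 0 := by
      push_cast
      linear_combination (Real.sqrt 2 * (x + y * Real.sqrt 3) + (z + w * Real.sqrt 3)) * e2 -
        (x + y * Real.sqrt 3) ^ 2 * s2 - (2 * (y : ℝ) ^ 2 - (w : ℝ) ^ 2) * s3
    obtain ⟨e4, e5⟩ := lin3 _ _ e3
    have e6 : z * w = 2 * x * y := by linarith
    have e7 : z ^ 2 + 3 * w ^ 2 = 2 * x ^ 2 + 6 * y ^ 2 := by linarith
    have e8 : (z ^ 2 - 2 * x ^ 2) * (z ^ 2 - 6 * y ^ 2) = 0 := by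
      have e9 : (z ^ 2 - 3 * w ^ 2) ^ 2 = 4 * (x ^ 2 - 3 * y ^ 2) ^ 2 := by
        linear_combination (z ^ 2 + 3 * w ^ 2 + (2 * x ^ 2 + 6 * y ^ 2)) * e7 -
          12 * (z * w + 2 * x * y) * e6
      have e10 : 3 * w ^ 2 = 2 * x ^ 2 + 6 * y ^ 2 - z ^ 2 := by linarith
      rw [e10] at e9
      linear_combination e9 / 4
    have hx0 : (x : ℝ) ≠ 0 ∨ (y : ℝ) ≠ 0 := by
      by_contra hc
      push Not at hc
      rw [hc.1, hc.2] at hxy
      simp at hxy
      exact ha.ne hxy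
    rcases mul_eq_zero.1 e8 with e9 | e9
    · obtain ⟨q1, q2⟩ := sqirr 2 nsq2 z x (by push_cast; linarith)
      obtain ⟨q3, q4⟩ := sqirr 2 nsq2 w y (by push_cast; nlinarith)
      rw [q2, q4] at hx0
      simp at hx0
    · obtain ⟨q1, q2⟩ := sqirr 6 nsq6 z y (by push_cast; linarith)
      obtain ⟨q3, q4⟩ := sqirr 6 nsq6 (3 * w) x (by push_cast; nlinarith)
      rw [q2, q4] at hx0
      simp at hx0
  have hbV : b ∈ V := Submodule.subset_span (by simp)
  have hbV' : Real.sqrt 3 * b ∈ V := Submodule.subset_span (by simp)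
  obtain ⟨f, hf1, hf2⟩ : ∃ f : ℝ →ₗ[ℚ] ℚ, (f a ≠ 0 ∨ f (Real.sqrt 2 * a) ≠ 0) ∧ V ≤ LinearMap.ker f := by
    rcases key with h | h
    · obtain ⟨f, h1, h2⟩ := Submodule.exists_le_ker_of_notMem h
      exact ⟨f, Or.inl h1, h2⟩
    · obtain ⟨f, h1, h2⟩ := Submodule.exists_le_ker_of_notMem h
      exact ⟨f, Or.inr h1, h2⟩
  refine ⟨⟨⟨fun z => (f z : ℝ), by simp⟩, fun z w => ?_⟩, ?_, ?_, ?_⟩
  · simp only [map_add]
    push_cast
    ring
  · show ((f b : ℚ) : ℝ) = 0
    have : f b = 0 := hf2 hbV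
    rw [this]; simp
  · show ((f (Real.sqrt 3 * b) : ℚ) : ℝ) = 0
    have : f (Real.sqrt 3 * b) = 0 := hf2 hbV'
    rw [this]; simp
  · show ((f a : ℚ) : ℝ) + ((f (Real.sqrt 2 * a) : ℚ) : ℝ) / Real.sqrt 2 ≠ 0
    intro h
    have s2 : Real.sqrt 2 * Real.sqrt 2 = 2 := Real.mul_self_sqrt (by norm_num)
    have s20 : Real.sqrt 2 ≠ 0 := by positivity
    have h1 : ((f (Real.sqrt 2 * a) : ℚ) : ℝ) + ((f a : ℚ) : ℝ) * Real.sqrt 2 = 0 := by
      field_simp at h
      linarith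
    obtain ⟨h2, h3⟩ := lin2 _ _ h1
    rcases hf1 with h4 | h4
    · exact h4 h3
    · exact h4 h2

end

end H994.AP
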