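import Pool.Agent.H994.AP.Stmts
import Pool.Agent.H994.AP.Hh

/-! Additivity of `B`, the core, moving tilings (helper994). -/

set_option autoImplicit false

open Set MeasureTheory Filter Topology

namespace H994.AP

noncomputable section

open H74R2.WT

theorem t_add (hs : S_supp) (hj : S_Jadd) : S_add := by
  intro h ι s A P hP hA hU hd
  have hJ := hj ι s A P hP hA hU hd
  unfold B
  rw [← finsum_sum_comm]
  · congr 1
    funext q
    rw [hJ q, map_sum]
    push_cast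
    rw [Finset.mul_sum]
  · intro i hi
    refine (hs (A i) (hA i hi)).subset ?_
    intro q hq
    simp only [Function.mem_support] at hq
    intro h0
    apply hq
    rw [h0]; simp

/-- every isometry of the plane -/
theorem iso_cases (g : ℂ ≃ᵢ ℂ) : (∃ v c, g = dir v c) ∨ (∃ v c, g = opp v c) := by
  obtain ⟨u, b, hu, h⟩ := t_K0 g
  rcases h with h | h
  · refine Or.inl ⟨⟨u, mem_sphere_zero_iff_norm.2 hu⟩, b, ?_⟩
    ext z
    exact h z
  · refine Or.inr ⟨⟨u, mem_sphere_zero_iff_norm.2 hu⟩, b, ?_⟩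
    ext z
    exact h z

theorem conj_mul_self (v : Circle) : (starRingEnd ℂ) (v : ℂ) * v = 1 := by
  rw [mul_comm, Complex.mul_conj, Complex.normSq_eq_norm_sq, Circle.norm_coe]; simp

theorem t_gdimg : S_gdimg := by
  intro g P hP
  refine ⟨hP.cpt.image g.continuous, ?_⟩
  obtain ⟨F, hF⟩ := hP.lines
  have hfr : frontier (g '' P) = g '' frontier P := (g.toHomeomorph.image_frontier P).symm
  classical
  rcases iso_cases g with ⟨v, c, rfl⟩ | ⟨v, c, rfl⟩
  · refine ⟨F.image (fun q => (v * q.1, q.2 + ((starRingEnd ℂ) (v * q.1 : ℂ) * c).im)), ?_⟩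
    rw [hfr]
    rintro _ ⟨z, hz, rfl⟩
    obtain ⟨q, hq, h0⟩ := hF z hz
    refine ⟨_, Finset.mem_image_of_mem _ hq, ?_⟩
    simp only [sd, dir_apply, Circle.coe_mul] at h0 ⊢
    have h1 : (starRingEnd ℂ) ((v : ℂ) * q.1) * (v * z + c) =
        (starRingEnd ℂ) (q.1 : ℂ) * z + (starRingEnd ℂ) ((v : ℂ) * q.1) * c := by
      simp only [map_mul]
      linear_combination (starRingEnd ℂ) (q.1 : ℂ) * z * conj_mul_self v
    rw [h1, Complex.add_im]
    linarith
  · refine ⟨F.image (fun q => (v * q.1⁻¹, -q.2 + ((starRingEnd ℂ) (v * q.1⁻¹ : ℂ) * c).im)), ?_⟩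
    rw [hfr]
    rintro _ ⟨z, hz, rfl⟩
    obtain ⟨q, hq, h0⟩ := hF z hz
    refine ⟨_, Finset.mem_image_of_mem _ hq, ?_⟩
    simp only [sd, opp_apply, Circle.coe_mul, Circle.coe_inv_eq_conj] at h0 ⊢
    have h1 : (starRingEnd ℂ) ((v : ℂ) * (starRingEnd ℂ) (q.1 : ℂ)) * (v * (starRingEnd ℂ) z + c) =
        (starRingEnd ℂ) ((starRingEnd ℂ) (q.1 : ℂ) * z) +
          (starRingEnd ℂ) ((v : ℂ) * (starRingEnd ℂ) (q.1 : ℂ)) * c := by
      simp only [map_mul, Complex.conj_conj]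
      linear_combination (q.1 : ℂ) * (starRingEnd ℂ) z * conj_mul_self v
    rw [h1, Complex.add_im, Complex.conj_im]
    have h2 : (starRingEnd ℂ) ((v : ℂ) * (starRingEnd ℂ) (q.1 : ℂ)) =
      (starRingEnd ℂ) ((v : ℂ) * ((q.1 : ℂ))⁻¹) := by
      rw [← Circle.coe_inv_eq_conj, Circle.coe_inv]
    rw [h2]
    linarith

/-- the invariant of a set tiled by `Q` is a fixed real-linear function of the invariant of `Q` -/
theorem tiled_lin (ha : S_add) (hi : S_iso) {Q A : Set ℂ} (hQ : Gd Q) (hA : Gd A)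
    (h : TiledBy Q A) : ∃ L : ℂ →ₗ[ℝ] ℂ, ∀ f : ℝ →+ ℝ, B f A = L (B f Q) := by
  obtain ⟨ι, s, g, hU, hd⟩ := h
  have key : ∀ i, ∃ L : ℂ →ₗ[ℝ] ℂ, ∀ f : ℝ →+ ℝ, B f (g i '' Q) = L (B f Q) := by
    intro i
    rcases iso_cases (g i) with ⟨v, c, hg⟩ | ⟨v, c, hg⟩
    · refine ⟨(LinearMap.mulLeft ℝ ((v : ℂ) ^ 3)), fun f => ?_⟩
      rw [hg, hi.1]; rfl
    · refine ⟨-((LinearMap.mulLeft ℝ ((v : ℂ) ^ 3)).comp Complex.conjAe.toLinearMap), fun f => ?_⟩
      rw [hg, hi.2]; rfl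
  choose L hL using key
  refine ⟨∑ i ∈ s, L i, fun f => ?_⟩
  rw [ha f ι s (fun i => g i '' Q) A hA (fun i _ => t_gdimg _ _ hQ) hU hd, LinearMap.sum_apply]
  exact Finset.sum_congr rfl fun i _ => hL i f

theorem t_core (ha : S_add) (hi : S_iso) (hRB : S_RB) (hRg : S_Rgd) : S_core := by
  intro Q a b hQ ha0 hb0 h4 h6
  have s3 : 0 < Real.sqrt 3 := Real.sqrt_pos.2 (by norm_num)
  have s33 : Real.sqrt 3 * Real.sqrt 3 = 3 := Real.mul_self_sqrt (by norm_num)
  have s2 : 0 < Real.sqrt 2 := Real.sqrt_pos.2 (by norm_num)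
  have s22 : Real.sqrt 2 * Real.sqrt 2 = 2 := Real.mul_self_sqrt (by norm_num)
  obtain ⟨L4, hL4⟩ := tiled_lin ha hi hQ (hRg a a ha0 ha0).1 h4
  obtain ⟨L6, hL6⟩ := tiled_lin ha hi hQ (hRg _ b (mul_pos s3 hb0) hb0).1 h6
  -- the values
  have s3c : (Real.sqrt 3 : ℂ) * Real.sqrt 3 = 3 := by exact_mod_cast s33
  have s2c : (Real.sqrt 2 : ℂ) * Real.sqrt 2 = 2 := by exact_mod_cast s22
  have s2ne : (Real.sqrt 2 : ℂ) ≠ 0 := by exact_mod_cast s2.ne'
  have hII := Complex.I_mul_I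
  have v6 : ∀ f : ℝ →+ ℝ, B f (R (Real.sqrt 3 * b) b) =
      2 * ((f (Real.sqrt 3 * b) : ℂ) + 3 * Complex.I * (f b : ℂ)) := by
    intro f
    have hw : ‖((-(Real.sqrt 3 : ℂ) + Complex.I) / 2)‖ = 1 := by
      have h1 : ‖((-(Real.sqrt 3 : ℂ) + Complex.I) / 2)‖ ^ 2 = 1 := by
        rw [← Complex.normSq_eq_norm_sq, Complex.normSq_apply]
        simp
        nlinarith
      have h2 := norm_nonneg ((-(Real.sqrt 3 : ℂ) + Complex.I) / 2)
      nlinarith
    have h1 := hRB f (Real.sqrt 3 * b) b (2 * b) ⟨_, mem_sphere_zero_iff_norm.2 hw⟩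
      (mul_pos s3 hb0) hb0 (by positivity) (by
        show ((-(Real.sqrt 3 : ℂ) + Complex.I) / 2) * ((2 * b : ℝ) : ℂ) = _
        push_cast
        ring)
    rw [h1]
    have h2 : f (2 * b) = 2 * f b := by rw [two_mul, map_add, two_mul]
    have h3 : ((-(Real.sqrt 3 : ℂ) + Complex.I) / 2) ^ 3 = Complex.I := by
      linear_combination (-(Real.sqrt 3 : ℂ) / 8 + 3 * Complex.I / 8) * s3c +
        (-3 * (Real.sqrt 3 : ℂ) / 8 + Complex.I / 8) * hII
    rw [h2]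
    show 2 * ((f (Real.sqrt 3 * b) : ℂ) + Complex.I * (f b : ℂ) +
      ((-(Real.sqrt 3 : ℂ) + Complex.I) / 2) ^ 3 * ((2 * f b : ℝ) : ℂ)) = _
    rw [h3]
    push_cast
    ring
  have v4 : ∀ f : ℝ →+ ℝ, B f (R a a) =
      2 * (1 + Complex.I) * ((f a + f (Real.sqrt 2 * a) / Real.sqrt 2 : ℝ) : ℂ) := by
    intro f
    have hw : ‖((-1 + Complex.I) / (Real.sqrt 2 : ℂ))‖ = 1 := by
      rw [norm_div, Complex.norm_real, Real.norm_eq_abs, abs_of_pos s2]
      have h1 : ‖(-1 + Complex.I)‖ ^ 2 = 2 := by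
        rw [← Complex.normSq_eq_norm_sq, Complex.normSq_apply]
        simp
        norm_num
      have h2 : ‖(-1 + Complex.I)‖ = Real.sqrt 2 := by
        rw [← h1, Real.sqrt_sq (norm_nonneg _)]
      rw [h2, div_self s2.ne']
    have h1 := hRB f a a (Real.sqrt 2 * a) ⟨_, mem_sphere_zero_iff_norm.2 hw⟩
      ha0 ha0 (by positivity) (by
        show ((-1 + Complex.I) / (Real.sqrt 2 : ℂ)) * ((Real.sqrt 2 * a : ℝ) : ℂ) = _
        push_cast
        field_simp)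
    rw [h1]
    have h3 : ((-1 + Complex.I) / (Real.sqrt 2 : ℂ)) ^ 3 = (1 + Complex.I) / Real.sqrt 2 := by
      rw [div_pow, div_eq_div_iff (pow_ne_zero _ s2ne) s2ne]
      linear_combination (Real.sqrt 2 : ℂ) * (Complex.I - 3) * hII -
        (Real.sqrt 2 : ℂ) * (1 + Complex.I) * s2c
    show 2 * ((f a : ℂ) + Complex.I * (f a : ℂ) +
      ((-1 + Complex.I) / (Real.sqrt 2 : ℂ)) ^ 3 * (f (Real.sqrt 2 * a) : ℂ)) = _
    rw [h3]
    push_cast
    ring
  -- `L6` is surjective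
  have hsurj : Function.Surjective L6 := by
    intro y
    obtain ⟨f, hf1, hf2⟩ := t_h1 b (y.im / 6) (y.re / 2) hb0
    refine ⟨B f Q, ?_⟩
    rw [← hL6 f, v6 f, hf1, hf2]
    apply Complex.ext
    · simp
      ring
    · simp
      ring
  have hinj : Function.Injective L6 := LinearMap.injective_iff_surjective.2 hsurj
  obtain ⟨f, hf1, hf2, hf3⟩ := t_h2 a b ha0 hb0
  have h0 : B f Q = 0 := by
    apply hinj
    rw [← hL6 f, v6 f, hf1, hf2, map_zero]
    simp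
  have h1 := hL4 f
  rw [h0, map_zero, v4 f] at h1
  have h2 : (2 : ℂ) * (1 + Complex.I) ≠ 0 := by
    intro h
    have := congrArg Complex.re h
    simp at this
  have h3 := (mul_eq_zero.1 h1).resolve_left h2
  exact hf3 (by exact_mod_cast h3)

theorem t_move : S_move := by
  intro P T g hT
  have img : ∀ (x y : ℂ ≃ᵢ ℂ) (A : Set ℂ), x '' (y '' A) = (x * y) '' A := by
    intro x y A
    rw [image_image]; rfl
  refine ⟨{A | g '' A ∈ T}, ⟨?_, ?_, ?_⟩, ?_⟩
  · intro A hA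
    obtain ⟨k, hk⟩ := hT.tile _ hA
    refine ⟨g⁻¹ * k, ?_⟩
    have : (g⁻¹ : ℂ ≃ᵢ ℂ) '' (g '' A) = (g⁻¹ : ℂ ≃ᵢ ℂ) '' (k '' P) := by
      rw [hk]
    rw [img, img, inv_mul_cancel] at this
    have h1 : (1 : ℂ ≃ᵢ ℂ) '' A = A := by
      show (fun z => z) '' A = A
      simp
    rw [h1] at this
    exact this
  · rw [eq_univ_iff_forall]
    intro z
    have hz : g z ∈ ⋃₀ T := by rw [hT.cover]; exact mem_univ _
    obtain ⟨A, hA, hzA⟩ := hz
    refine ⟨g ⁻¹' A, ?_, hzA⟩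
    show g '' (g ⁻¹' A) ∈ T
    rw [image_preimage_eq _ g.surjective]
    exact hA
  · intro A hA C hC hAC
    have h1 : g '' A ≠ g '' C := fun h => hAC (g.injective.image_injective h)
    have h2 := hT.disj hA hC h1
    have e : ∀ X : Set ℂ, interior (g '' X) = g '' interior X := fun X =>
      (g.toHomeomorph.image_interior X).symm
    simp only [e] at h2
    exact (disjoint_image_iff g.injective).1 h2
  · intro σ
    have conj1 : ∀ (σ : ℂ ≃ᵢ ℂ), (∀ A ∈ {A | g '' A ∈ T}, σ '' A ∈ {A | g '' A ∈ T}) ↔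
        (∀ A ∈ T, (g * σ * g⁻¹ : ℂ ≃ᵢ ℂ) '' A ∈ T) := by
      intro σ
      constructor
      · intro h A hA
        have h1 := h ((g⁻¹ : ℂ ≃ᵢ ℂ) '' A) (by
          show g '' ((g⁻¹ : ℂ ≃ᵢ ℂ) '' A) ∈ T
          rw [img, mul_inv_cancel]
          show (fun z => z) '' A ∈ T
          simpa using hA)
        have h2 : g '' (σ '' ((g⁻¹ : ℂ ≃ᵢ ℂ) '' A)) ∈ T := h1
        rwa [img, img] at h2
      · intro h A hA
        show g '' (σ '' A) ∈ T
        have h1 := h _ hA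
        rw [img] at h1
        have h2 : g * σ * g⁻¹ * g = g * σ := by group
        rw [h2] at h1
        rwa [img]
    have conj2 : g * σ⁻¹ * g⁻¹ = (g * σ * g⁻¹)⁻¹ := by group
    constructor
    · rintro ⟨h1, h2⟩
      refine ⟨(conj1 σ).1 h1, ?_⟩
      have := (conj1 σ⁻¹).1 h2
      rw [conj2] at this
      exact this
    · rintro ⟨h1, h2⟩
      refine ⟨(conj1 σ).2 h1, (conj1 σ⁻¹).2 ?_⟩
      rw [conj2]
      exact h2

end

end H994.AP
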