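import Pool.Agent.H994.AP.Stmts

/-!
# No all-purpose tile: behaviour of the invariant under isometries (helper746)
-/

set_option autoImplicit false

open Set MeasureTheory Filter Topology

namespace H994.AP

noncomputable section

namespace Iso

theorem seqIn_dir (v : Circle) (c : ℂ) (P : Set ℂ) (u z : ℂ) :
    seqIn (dir v c '' P) (v * u) (v * z + c) ↔ seqIn P u z := by
  unfold seqIn
  refine eventually_congr (Eventually.of_forall fun n => ?_)
  have h : (v : ℂ) * z + c + ((1 / ((n : ℝ) + 1) : ℝ) : ℂ) * (Complex.I * ((v : ℂ) * u)) =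
      dir v c (z + ((1 / ((n : ℝ) + 1) : ℝ) : ℂ) * (Complex.I * u)) := by
    rw [dir_apply]; ring
  rw [h]
  exact (dir v c).injective.mem_set_image

theorem lam_dir (v : Circle) (c : ℂ) (P : Set ℂ) (u : ℂ) (d : ℝ)
    (hu : (starRingEnd ℂ) ((v : ℂ) * u) * ((v : ℂ) * u) = 1) :
    lam (dir v c '' P) (v * u) (d + ((starRingEnd ℂ) ((v : ℂ) * u) * c).im) = lam P u d := by
  unfold lam
  congr 1
  rw [← measure_preimage_add_right volume (((starRingEnd ℂ) ((v : ℂ) * u) * c).re)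
    {s : ℝ | seqIn (dir v c '' P) ((v : ℂ) * u) (((s : ℂ) +
      ((d + ((starRingEnd ℂ) ((v : ℂ) * u) * c).im : ℝ) : ℂ) * Complex.I) * ((v : ℂ) * u))}]
  congr 1
  ext s
  simp only [mem_preimage, mem_setOf_eq]
  rw [← seqIn_dir v c P u]
  have h : (((s + ((starRingEnd ℂ) ((v : ℂ) * u) * c).re : ℝ) : ℂ) +
      ((d + ((starRingEnd ℂ) ((v : ℂ) * u) * c).im : ℝ) : ℂ) * Complex.I) * ((v : ℂ) * u) =
      (v : ℂ) * (((s : ℂ) + (d : ℂ) * Complex.I) * u) + c := by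
    have h1 : ((((starRingEnd ℂ) ((v : ℂ) * u) * c).re : ℝ) : ℂ) +
        ((((starRingEnd ℂ) ((v : ℂ) * u) * c).im : ℝ) : ℂ) * Complex.I =
        (starRingEnd ℂ) ((v : ℂ) * u) * c := Complex.re_add_im _
    have h2 : (((((starRingEnd ℂ) ((v : ℂ) * u) * c).re : ℝ) : ℂ) +
        ((((starRingEnd ℂ) ((v : ℂ) * u) * c).im : ℝ) : ℂ) * Complex.I) * ((v : ℂ) * u) = c := by
      rw [h1]
      calc (starRingEnd ℂ) ((v : ℂ) * u) * c * ((v : ℂ) * u)
          = ((starRingEnd ℂ) ((v : ℂ) * u) * ((v : ℂ) * u)) * c := by ring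
        _ = c := by rw [hu, one_mul]
    rw [Complex.ofReal_add, Complex.ofReal_add]
    calc ((s : ℂ) + ((((starRingEnd ℂ) ((v : ℂ) * u) * c).re : ℝ) : ℂ) +
          ((d : ℂ) + ((((starRingEnd ℂ) ((v : ℂ) * u) * c).im : ℝ) : ℂ)) * Complex.I) *
            ((v : ℂ) * u)
        = (v : ℂ) * (((s : ℂ) + (d : ℂ) * Complex.I) * u) +
          (((((starRingEnd ℂ) ((v : ℂ) * u) * c).re : ℝ) : ℂ) +
          ((((starRingEnd ℂ) ((v : ℂ) * u) * c).im : ℝ) : ℂ) * Complex.I) * ((v : ℂ) * u) := by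
            ring
      _ = (v : ℂ) * (((s : ℂ) + (d : ℂ) * Complex.I) * u) + c := by rw [h2]
  rw [h]

theorem circ_mul (u : Circle) : (starRingEnd ℂ) (u : ℂ) * (u : ℂ) = 1 := by
  rw [mul_comm, Complex.mul_conj, Complex.normSq_eq_norm_sq, Circle.norm_coe]
  norm_num

/-- the bijection of the oriented lines of a direct isometry -/
def eD (v : Circle) (c : ℂ) : Circle × ℝ ≃ Circle × ℝ where
  toFun q := (v * q.1, q.2 + ((starRingEnd ℂ) ((v * q.1 : Circle) : ℂ) * c).im)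
  invFun q := (v⁻¹ * q.1, q.2 - ((starRingEnd ℂ) ((q.1 : Circle) : ℂ) * c).im)
  left_inv q := by
    refine Prod.ext ?_ ?_
    · show v⁻¹ * (v * q.1) = q.1
      rw [inv_mul_cancel_left]
    · show q.2 + ((starRingEnd ℂ) ((v * q.1 : Circle) : ℂ) * c).im -
        ((starRingEnd ℂ) ((v * q.1 : Circle) : ℂ) * c).im = q.2
      ring
  right_inv q := by
    refine Prod.ext ?_ ?_
    · show v * (v⁻¹ * q.1) = q.1
      rw [mul_inv_cancel_left]
    · show q.2 - ((starRingEnd ℂ) ((q.1 : Circle) : ℂ) * c).im +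
        ((starRingEnd ℂ) ((v * (v⁻¹ * q.1) : Circle) : ℂ) * c).im = q.2
      rw [mul_inv_cancel_left]
      ring

theorem J_dir (v : Circle) (c : ℂ) (P : Set ℂ) (q : Circle × ℝ) :
    J (dir v c '' P) (eD v c q) = J P q := by
  unfold J
  have h1 : (starRingEnd ℂ) ((v : ℂ) * (q.1 : ℂ)) * ((v : ℂ) * (q.1 : ℂ)) = 1 := by
    rw [← Circle.coe_mul]
    exact circ_mul _
  have h2 : (starRingEnd ℂ) ((v : ℂ) * (-(q.1 : ℂ))) * ((v : ℂ) * (-(q.1 : ℂ))) = 1 := by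
    rw [mul_neg, map_neg, neg_mul_neg]
    exact h1
  have a1 := lam_dir v c P (q.1 : ℂ) q.2 h1
  have a2 := lam_dir v c P (-(q.1 : ℂ)) (-q.2) h2
  have e1 : ((eD v c q).1 : ℂ) = (v : ℂ) * (q.1 : ℂ) := by
    show ((v * q.1 : Circle) : ℂ) = _
    rw [Circle.coe_mul]
  have e2 : (eD v c q).2 = q.2 + ((starRingEnd ℂ) ((v : ℂ) * (q.1 : ℂ)) * c).im := by
    show q.2 + ((starRingEnd ℂ) ((v * q.1 : Circle) : ℂ) * c).im = _
    rw [Circle.coe_mul]
  rw [e1, e2, a1]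
  rw [mul_neg] at a2
  have e3 : -(q.2 + ((starRingEnd ℂ) ((v : ℂ) * (q.1 : ℂ)) * c).im) =
      -q.2 + ((starRingEnd ℂ) (-((v : ℂ) * (q.1 : ℂ))) * c).im := by
    rw [map_neg, neg_mul, Complex.neg_im]
    ring
  rw [e3, a2]

theorem B_dir (h : ℝ →+ ℝ) (v : Circle) (c : ℂ) (P : Set ℂ) :
    B h (dir v c '' P) = (v : ℂ) ^ 3 * B h P := by
  unfold B
  rw [← finsum_comp_equiv (eD v c), mul_finsum]
  refine finsum_congr fun q => ?_
  rw [J_dir]
  have e1 : ((eD v c q).1 : ℂ) = (v : ℂ) * (q.1 : ℂ) := by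
    show ((v * q.1 : Circle) : ℂ) = _
    rw [Circle.coe_mul]
  rw [e1]
  ring

/-- complex conjugation of a set -/
def cj (P : Set ℂ) : Set ℂ := (starRingEnd ℂ) '' P

theorem seqIn_cj (P : Set ℂ) (u z : ℂ) :
    seqIn (cj P) u z ↔ seqIn P (-(starRingEnd ℂ) u) ((starRingEnd ℂ) z) := by
  unfold seqIn cj
  refine eventually_congr (Eventually.of_forall fun n => ?_)
  have h : z + ((1 / ((n : ℝ) + 1) : ℝ) : ℂ) * (Complex.I * u) =
      (starRingEnd ℂ) ((starRingEnd ℂ) z + ((1 / ((n : ℝ) + 1) : ℝ) : ℂ) *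
        (Complex.I * (-(starRingEnd ℂ) u))) := by
    rw [map_add, map_mul, map_mul, map_neg, Complex.conj_conj, Complex.conj_conj, Complex.conj_I,
      Complex.conj_ofReal]
    ring
  rw [h]
  exact (RingHom.injective (starRingEnd ℂ)).mem_set_image

theorem lam_cj (P : Set ℂ) (u : ℂ) (d : ℝ) : lam (cj P) u d = lam P (-(starRingEnd ℂ) u) d := by
  unfold lam
  congr 1
  rw [← Measure.measure_preimage_neg volume {s : ℝ | seqIn P (-(starRingEnd ℂ) u) (((s : ℂ) +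
      (d : ℂ) * Complex.I) * (-(starRingEnd ℂ) u))}]
  congr 1
  ext s
  simp only [mem_preimage, mem_setOf_eq]
  rw [seqIn_cj]
  have h : (starRingEnd ℂ) (((s : ℂ) + (d : ℂ) * Complex.I) * u) =
      (((-s : ℝ) : ℂ) + (d : ℂ) * Complex.I) * (-(starRingEnd ℂ) u) := by
    rw [map_mul, map_add, map_mul, Complex.conj_I, Complex.conj_ofReal, Complex.conj_ofReal,
      Complex.ofReal_neg]
    ring
  rw [h]

/-- the bijection of the oriented lines of the complex conjugation -/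
def eC : Circle × ℝ ≃ Circle × ℝ where
  toFun q := (q.1⁻¹, -q.2)
  invFun q := (q.1⁻¹, -q.2)
  left_inv q := Prod.ext (inv_inv q.1) (neg_neg q.2)
  right_inv q := Prod.ext (inv_inv q.1) (neg_neg q.2)

theorem J_cj (P : Set ℂ) (q : Circle × ℝ) : J (cj P) (eC q) = - J P q := by
  unfold J
  rw [lam_cj, lam_cj]
  have e1 : (starRingEnd ℂ) ((eC q).1 : ℂ) = (q.1 : ℂ) := by
    show (starRingEnd ℂ) ((q.1⁻¹ : Circle) : ℂ) = _
    rw [Circle.coe_inv_eq_conj, Complex.conj_conj]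
  have e2 : (eC q).2 = - q.2 := rfl
  rw [map_neg, e1, e2, neg_neg, neg_neg]
  ring

theorem B_cj (h : ℝ →+ ℝ) (P : Set ℂ) : B h (cj P) = - (starRingEnd ℂ) (B h P) := by
  unfold B
  have e : (starRingEnd ℂ) (∑ᶠ q : Circle × ℝ, (q.1 : ℂ) ^ 3 * (h (J P q) : ℂ)) =
      ∑ᶠ q : Circle × ℝ, (starRingEnd ℂ) ((q.1 : ℂ) ^ 3 * (h (J P q) : ℂ)) :=
    AddMonoidHom.map_finsum_of_injective (starRingEnd ℂ).toAddMonoidHom
      (RingHom.injective (starRingEnd ℂ)) _
  rw [e, ← finsum_comp_equiv eC, ← finsum_neg_distrib]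
  refine finsum_congr fun q => ?_
  rw [J_cj, map_neg, map_mul, map_pow, Complex.conj_ofReal, Complex.ofReal_neg, mul_neg]
  have e1 : ((eC q).1 : ℂ) = (starRingEnd ℂ) (q.1 : ℂ) := by
    show ((q.1⁻¹ : Circle) : ℂ) = _
    rw [Circle.coe_inv_eq_conj]
  rw [e1]

theorem opp_image (v : Circle) (c : ℂ) (P : Set ℂ) : opp v c '' P = dir v c '' (cj P) := by
  unfold cj
  rw [Set.image_image]
  rfl

end Iso

/-- behaviour of the invariant under isometries -/
theorem t_iso : S_iso := by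
  refine ⟨Iso.B_dir, fun h v c P => ?_⟩
  rw [Iso.opp_image, Iso.B_dir, Iso.B_cj, mul_neg]

end

end H994.AP
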