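import Pool.Agent.H994.AP.Stmts

/-!
# Additivity of the boundary length
-/

set_option autoImplicit false

open Set MeasureTheory Filter Topology

namespace H994.AP

namespace JAdd

/-- the point `z + τ i u`, `z = (s + d i) u` -/
noncomputable def pt (u : ℂ) (d s τ : ℝ) : ℂ :=
  ((s : ℂ) + (d : ℂ) * Complex.I) * u + (τ : ℂ) * (Complex.I * u)

theorem seqIn_iff (A : Set ℂ) (u : ℂ) (d s : ℝ) :
    seqIn A u (((s : ℂ) + (d : ℂ) * Complex.I) * u) ↔
      ∀ᶠ n : ℕ in atTop, pt u d s (1 / ((n : ℝ) + 1)) ∈ A := Iff.rfl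

theorem cont_pt_tau (u : ℂ) (d s : ℝ) : Continuous (fun τ : ℝ => pt u d s τ) := by
  unfold pt
  fun_prop

theorem cont_pt_s (u : ℂ) (d τ : ℝ) : Continuous (fun s : ℝ => pt u d s τ) := by
  unfold pt
  fun_prop

theorem tend : Tendsto (fun n : ℕ => 1 / ((n : ℝ) + 1)) atTop (𝓝[>] (0 : ℝ)) := by
  refine tendsto_nhdsWithin_iff.2 ⟨tendsto_one_div_add_atTop_nhds_zero_nat, ?_⟩
  refine Eventually.of_forall fun n => ?_
  have : (0 : ℝ) < (n : ℝ) + 1 := by positivity
  exact one_div_pos.2 this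

theorem sd_pt (v : Circle) (e : ℝ) (u : Circle) (d s τ : ℝ) :
    sd v e (pt u d s τ) = ((starRingEnd ℂ) (v : ℂ) * u).im * s +
      ((starRingEnd ℂ) (v : ℂ) * u).re * τ + (((starRingEnd ℂ) (v : ℂ) * u).re * d - e) := by
  unfold sd pt
  simp only [Complex.add_im, Complex.mul_im, Complex.mul_re, Complex.add_re, Complex.ofReal_re,
    Complex.ofReal_im, Complex.I_re, Complex.I_im, Complex.conj_re, Complex.conj_im]
  ring

/-- the exceptional values of `s` for a line -/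
noncomputable def exc (u : Circle) (d : ℝ) (q : Circle × ℝ) : ℝ :=
  -((((starRingEnd ℂ) (q.1 : ℂ) * u).re * d - q.2) / ((starRingEnd ℂ) (q.1 : ℂ) * u).im)

theorem eventually_ne (u : Circle) (d s : ℝ) (q : Circle × ℝ) (hs : s ≠ exc u d q) :
    ∀ᶠ τ in 𝓝[>] (0 : ℝ), sd q.1 q.2 (pt u d s τ) ≠ 0 := by
  set w : ℂ := (starRingEnd ℂ) (q.1 : ℂ) * u with hw
  have hnorm : ‖w‖ = 1 := by
    rw [hw, norm_mul, RCLike.norm_conj, Circle.norm_coe, Circle.norm_coe, one_mul]
  have hform : ∀ τ, sd q.1 q.2 (pt u d s τ) = w.im * s + w.re * τ + (w.re * d - q.2) :=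
    fun τ => sd_pt q.1 q.2 u d s τ
  by_cases hb : w.re = 0
  · have ha : w.im ≠ 0 := by
      intro ha
      have : w = 0 := Complex.ext hb ha
      rw [this, norm_zero] at hnorm
      exact zero_ne_one hnorm
    refine Eventually.of_forall fun τ h => hs ?_
    rw [hform, hb] at h
    unfold exc
    rw [← hw, hb]
    field_simp
    linarith
  · set t0 : ℝ := -(w.im * s + (w.re * d - q.2)) / w.re with ht0
    have hne : ∀ τ, τ ≠ t0 → sd q.1 q.2 (pt u d s τ) ≠ 0 := by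
      intro τ hτ h
      apply hτ
      rw [hform] at h
      rw [ht0, eq_div_iff hb]
      linarith
    rcases le_or_gt t0 0 with h | h
    · filter_upwards [self_mem_nhdsWithin] with τ hτ
      refine hne τ ?_
      have : 0 < τ := hτ
      linarith
    · have h1 : ∀ᶠ τ in 𝓝[>] (0 : ℝ), τ < t0 :=
        (eventually_lt_nhds h).filter_mono nhdsWithin_le_nhds
      filter_upwards [h1] with τ hτ
      exact hne τ hτ.ne

/-- outside a finite set of values the membership is decided -/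
theorem decided {A : Set ℂ} (hA : IsCompact A) (F : Finset (Circle × ℝ))
    (hF : ∀ z ∈ frontier A, ∃ q ∈ F, sd q.1 q.2 z = 0) (u : Circle) (d s : ℝ)
    (hs : ∀ q ∈ F, s ≠ exc u d q) :
    (∀ᶠ n : ℕ in atTop, pt u d s (1 / ((n : ℝ) + 1)) ∈ interior A) ∨
      (∀ᶠ n : ℕ in atTop, pt u d s (1 / ((n : ℝ) + 1)) ∉ A) := by
  have h1 : ∀ᶠ τ in 𝓝[>] (0 : ℝ), ∀ q ∈ F, sd q.1 q.2 (pt u d s τ) ≠ 0 :=
    (Finset.eventually_all F).2 fun q hq => eventually_ne u d s q (hs q hq)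
  obtain ⟨ε, hε, hsub⟩ := mem_nhdsGT_iff_exists_Ioo_subset.1 h1
  have hpre : IsPreconnected ((fun τ : ℝ => pt u d s τ) '' Ioo 0 ε) :=
    isPreconnected_Ioo.image _ (cont_pt_tau u d s).continuousOn
  have hcov : (fun τ : ℝ => pt u d s τ) '' Ioo 0 ε ⊆ interior A ∪ Aᶜ := by
    rintro _ ⟨τ, hτ, rfl⟩
    by_cases hin : pt u d s τ ∈ A
    · left
      by_contra hni
      have hfr : pt u d s τ ∈ frontier A := ⟨subset_closure hin, hni⟩
      obtain ⟨q, hq, h0⟩ := hF _ hfr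
      exact hsub hτ q hq h0
    · exact Or.inr hin
  have hdis : Disjoint (interior A) Aᶜ :=
    Set.disjoint_left.2 fun x hx hx' => hx' (interior_subset hx)
  have hev : ∀ᶠ n : ℕ in atTop, 1 / ((n : ℝ) + 1) ∈ Ioo 0 ε :=
    tend (Ioo_mem_nhdsGT hε)
  rcases hpre.subset_or_subset isOpen_interior hA.isClosed.isOpen_compl hdis hcov with h | h
  · left
    filter_upwards [hev] with n hn
    exact h ⟨_, hn, rfl⟩
  · right
    filter_upwards [hev] with n hn
    exact h ⟨_, hn, rfl⟩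

/-- the set of the `s` -/
def TT (A : Set ℂ) (u : ℂ) (d : ℝ) : Set ℝ :=
  {s : ℝ | seqIn A u (((s : ℂ) + (d : ℂ) * Complex.I) * u)}

theorem meas {A : Set ℂ} (hA : IsCompact A) (u : ℂ) (d : ℝ) : MeasurableSet (TT A u d) := by
  have e : TT A u d = ⋃ N : ℕ, ⋂ n : ℕ, ⋂ _ : N ≤ n,
      (fun s : ℝ => pt u d s (1 / ((n : ℝ) + 1))) ⁻¹' A := by
    ext s
    simp only [TT, mem_ofPred_eq, seqIn_iff, eventually_atTop, mem_iUnion, mem_iInter, mem_preimage]
  rw [e]
  refine MeasurableSet.iUnion fun N => MeasurableSet.iInter fun n => MeasurableSet.iInter fun _ => ?_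
  exact (hA.isClosed.preimage (cont_pt_s u d _)).measurableSet

theorem fin {A : Set ℂ} (hA : IsCompact A) (u : Circle) (d : ℝ) :
    volume (TT A u d) ≠ ⊤ := by
  obtain ⟨R, hR⟩ := hA.isBounded.exists_norm_le
  have hsub : TT A u d ⊆ Icc (-(R + 1)) (R + 1) := by
    intro s hs
    have hs' : ∀ᶠ n : ℕ in atTop, pt u d s (1 / ((n : ℝ) + 1)) ∈ A := hs
    obtain ⟨n, hn⟩ := hs'.exists
    have h1 := hR _ hn
    have hτ : (0 : ℝ) < 1 / ((n : ℝ) + 1) := by positivity
    have hτ1 : 1 / ((n : ℝ) + 1) ≤ 1 := by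
      rw [div_le_one (by positivity)]
      have : (0 : ℝ) ≤ (n : ℝ) := Nat.cast_nonneg n
      linarith
    have h2 : ‖((s : ℂ) + (d : ℂ) * Complex.I) * (u : ℂ)‖ ≤ R + 1 := by
      have e1 : ((s : ℂ) + (d : ℂ) * Complex.I) * (u : ℂ) = pt u d s (1 / ((n : ℝ) + 1)) -
          ((1 / ((n : ℝ) + 1) : ℝ) : ℂ) * (Complex.I * (u : ℂ)) := by
        unfold pt
        ring
      rw [e1]
      refine (norm_sub_le _ _).trans (add_le_add h1 ?_)
      rw [norm_mul, norm_mul, Complex.norm_I, Circle.norm_coe, Complex.norm_real,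
        Real.norm_of_nonneg hτ.le]
      linarith
    have h3 : |s| ≤ R + 1 := by
      have h4 : |((s : ℂ) + (d : ℂ) * Complex.I).re| ≤ ‖(s : ℂ) + (d : ℂ) * Complex.I‖ :=
        Complex.abs_re_le_norm _
      have h5 : ((s : ℂ) + (d : ℂ) * Complex.I).re = s := by simp
      rw [h5] at h4
      rw [norm_mul, Circle.norm_coe, mul_one] at h2
      exact h4.trans h2
    exact ⟨(abs_le.1 h3).1, (abs_le.1 h3).2⟩
  refine ne_top_of_le_ne_top ?_ (measure_mono hsub)
  rw [Real.volume_Icc]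
  exact ENNReal.ofReal_ne_top

theorem lam_add {ι : Type} (s : Finset ι) (A : ι → Set ℂ) (P : Set ℂ) (hA : ∀ i ∈ s, Gd (A i))
    (hP : P = ⋃ i ∈ s, A i)
    (hd : ∀ i ∈ s, ∀ j ∈ s, i ≠ j → Disjoint (interior (A i)) (interior (A j)))
    (u : Circle) (d : ℝ) : lam P u d = ∑ i ∈ s, lam (A i) u d := by
  classical
  choose! F hF using fun i (hi : i ∈ s) => (hA i hi).lines
  set E : Finset ℝ := s.biUnion fun i => (F i).image (exc u d) with hE
  have hdec : ∀ i ∈ s, ∀ x : ℝ, x ∉ E →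
      (∀ᶠ n : ℕ in atTop, pt u d x (1 / ((n : ℝ) + 1)) ∈ interior (A i)) ∨
      (∀ᶠ n : ℕ in atTop, pt u d x (1 / ((n : ℝ) + 1)) ∉ A i) := by
    intro i hi x hx
    refine decided (hA i hi).cpt (F i) (hF i hi) u d x fun q hq h => hx ?_
    rw [hE, Finset.mem_biUnion]
    exact ⟨i, hi, Finset.mem_image.2 ⟨q, hq, h.symm⟩⟩
  have hint : ∀ i ∈ s, ∀ x : ℝ, x ∉ E → x ∈ TT (A i) u d →
      ∀ᶠ n : ℕ in atTop, pt u d x (1 / ((n : ℝ) + 1)) ∈ interior (A i) := by
    intro i hi x hx hT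
    rcases hdec i hi x hx with h | h
    · exact h
    · exfalso
      have hT' : ∀ᶠ n : ℕ in atTop, pt u d x (1 / ((n : ℝ) + 1)) ∈ A i := hT
      obtain ⟨n, hn1, hn2⟩ := (hT'.and h).exists
      exact hn2 hn1
  have hnull : volume (E : Set ℝ) = 0 := E.finite_toSet.measure_zero volume
  have hae : TT P u d =ᵐ[volume] ⋃ i ∈ s, TT (A i) u d := by
    have h1 : ∀ᵐ x ∂(volume : Measure ℝ), x ∉ (E : Set ℝ) := measure_eq_zero_iff_ae_notMem.1 hnull
    filter_upwards [h1] with x hx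
    have hx' : x ∉ E := fun h => hx (Finset.mem_coe.2 h)
    apply propext
    change x ∈ TT P u d ↔ x ∈ ⋃ i ∈ s, TT (A i) u d
    constructor
    · intro hT
      by_contra hcon
      have h2 : ∀ i ∈ s, ∀ᶠ n : ℕ in atTop, pt u d x (1 / ((n : ℝ) + 1)) ∉ A i := by
        intro i hi
        rcases hdec i hi x hx' with h | h
        · exfalso
          apply hcon
          refine mem_biUnion (x := i) hi ?_
          change ∀ᶠ n : ℕ in atTop, pt u d x (1 / ((n : ℝ) + 1)) ∈ A i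
          filter_upwards [h] with n hn
          exact interior_subset hn
        · exact h
      have h3 : ∀ᶠ n : ℕ in atTop, ∀ i ∈ s, pt u d x (1 / ((n : ℝ) + 1)) ∉ A i :=
        (Finset.eventually_all s).2 h2
      have hT' : ∀ᶠ n : ℕ in atTop, pt u d x (1 / ((n : ℝ) + 1)) ∈ P := hT
      obtain ⟨n, hn1, hn2⟩ := (hT'.and h3).exists
      rw [hP] at hn1
      obtain ⟨i, hi, hn3⟩ := mem_iUnion₂.1 hn1
      exact hn2 i hi hn3
    · intro hT
      obtain ⟨i, hi, hTi⟩ := mem_iUnion₂.1 hT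
      have hT' : ∀ᶠ n : ℕ in atTop, pt u d x (1 / ((n : ℝ) + 1)) ∈ A i := hTi
      change ∀ᶠ n : ℕ in atTop, pt u d x (1 / ((n : ℝ) + 1)) ∈ P
      filter_upwards [hT'] with n hn
      rw [hP]
      exact mem_iUnion₂.2 ⟨i, hi, hn⟩
  have hdisj : (s : Set ι).Pairwise (Function.onFun (AEDisjoint volume) fun i => TT (A i) u d) := by
    intro i hi j hj hij
    change volume (TT (A i) u d ∩ TT (A j) u d) = 0
    refine measure_mono_null ?_ hnull
    intro x hx
    by_contra hxE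
    have hx' : x ∉ E := fun h => hxE (Finset.mem_coe.2 h)
    obtain ⟨n, hn1, hn2⟩ := ((hint i hi x hx' hx.1).and (hint j hj x hx' hx.2)).exists
    exact Set.disjoint_left.1 (hd i hi j hj hij) hn1 hn2
  have hvol : volume (TT P u d) = ∑ i ∈ s, volume (TT (A i) u d) := by
    rw [measure_congr hae]
    exact measure_biUnion_finset₀ hdisj fun i hi => (meas (hA i hi).cpt u d).nullMeasurableSet
  change (volume (TT P u d)).toReal = ∑ i ∈ s, (volume (TT (A i) u d)).toReal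
  rw [hvol, ENNReal.toReal_sum fun i hi => fin (hA i hi).cpt u d]

end JAdd

theorem t_Jadd : S_Jadd := by
  intro ι s A P _ hA hP hd q
  unfold J
  rw [JAdd.lam_add s A P hA hP hd q.1 q.2]
  have h1 := JAdd.lam_add s A P hA hP hd (-q.1) (-q.2)
  have h2 : ((-q.1 : Circle) : ℂ) = -(q.1 : ℂ) := rfl
  rw [h2] at h1
  rw [h1, Finset.sum_sub_distrib]

end H994.AP
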