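import Pool.Agent.H994.AP.Stmts

/-!
Task RB (helper261): the boundary invariant of a closed right triangle.
-/

set_option autoImplicit false

open Set MeasureTheory Filter Topology

namespace H994.AP

noncomputable section

namespace RB

/-- nonnegative just after `0`: `0 ≤ x + t y` for small `t > 0` -/
def ps (x y : ℝ) : Prop := 0 < x ∨ (x = 0 ∧ 0 ≤ y)

theorem ps_of_ne {x : ℝ} (hx : x ≠ 0) (y : ℝ) : ps x y ↔ 0 < x := by
  unfold ps
  constructor
  · rintro (h | ⟨h, -⟩)
    · exact h
    · exact absurd h hx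
  · exact Or.inl

theorem ev_iff (x y : ℝ) : (∀ᶠ n : ℕ in atTop, 0 ≤ x + (1 / ((n : ℝ) + 1)) * y) ↔ ps x y := by
  have ht : Tendsto (fun n : ℕ => x + (1 / ((n : ℝ) + 1)) * y) atTop (𝓝 x) := by
    have h1 : Tendsto (fun n : ℕ => (1 / ((n : ℝ) + 1))) atTop (𝓝 0) :=
      tendsto_one_div_add_atTop_nhds_zero_nat
    have h2 := (tendsto_const_nhds (x := x)).add (h1.mul_const y)
    simpa using h2
  constructor
  · intro h
    have hx : 0 ≤ x := ge_of_tendsto ht h
    rcases hx.lt_or_eq with hx | hx
    · exact Or.inl hx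
    · refine Or.inr ⟨hx.symm, ?_⟩
      obtain ⟨n, hn⟩ := h.exists
      rw [← hx, zero_add] at hn
      have hp : (0 : ℝ) < 1 / ((n : ℝ) + 1) := by positivity
      exact nonneg_of_mul_nonneg_right hn hp
  · rintro (h | ⟨h, hy⟩)
    · filter_upwards [ht.eventually (lt_mem_nhds h)] with n hn
      exact hn.le
    · refine Eventually.of_forall fun n => ?_
      rw [h, zero_add]
      positivity

/-- description of the one-sided germ of the triangle -/
def E (p q : ℝ) (u : ℂ) (x y : ℝ) : Prop :=
  ps y u.re ∧ ps x (-u.im) ∧ ps (p * q - q * x - p * y) (q * u.im - p * u.re)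

theorem seqIn_iff (p q : ℝ) (u z : ℂ) : seqIn (R p q) u z ↔ E p q u z.re z.im := by
  unfold seqIn E
  rw [← ev_iff, ← ev_iff, ← ev_iff, ← eventually_and, ← eventually_and]
  apply eventually_congr
  refine Eventually.of_forall fun n => ?_
  set t : ℝ := 1 / ((n : ℝ) + 1) with ht
  have h1 : (z + (t : ℂ) * (Complex.I * u)).re = z.re + t * (-u.im) := by
    simp
  have h2 : (z + (t : ℂ) * (Complex.I * u)).im = z.im + t * u.re := by
    simp
  show (0 ≤ (z + (t : ℂ) * (Complex.I * u)).im ∧ 0 ≤ (z + (t : ℂ) * (Complex.I * u)).re ∧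
    q * (z + (t : ℂ) * (Complex.I * u)).re + p * (z + (t : ℂ) * (Complex.I * u)).im ≤ p * q) ↔ _
  rw [h1, h2]
  refine and_congr Iff.rfl (and_congr Iff.rfl ?_)
  constructor
  · intro h; nlinarith
  · intro h; nlinarith

theorem re_pt (s d : ℝ) (u : ℂ) :
    (((s : ℂ) + (d : ℂ) * Complex.I) * u).re = s * u.re - d * u.im := by
  simp

theorem im_pt (s d : ℝ) (u : ℂ) :
    (((s : ℂ) + (d : ℂ) * Complex.I) * u).im = s * u.im + d * u.re := by
  simp

/-- the set whose length is `lam` -/
def St (p q : ℝ) (u : ℂ) (d : ℝ) : Set ℝ :=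
  {s | E p q u (s * u.re - d * u.im) (s * u.im + d * u.re)}

theorem lam_eq (p q : ℝ) (u : ℂ) (d : ℝ) : lam (R p q) u d = (volume (St p q u d)).toReal := by
  unfold lam St
  congr 2
  ext s
  simp only [mem_setOf_eq]
  rw [seqIn_iff, re_pt, im_pt]

theorem ae_ne {a b : ℝ} (h : ¬ (a = 0 ∧ b = 0)) : ∀ᵐ s : ℝ, s * a + b ≠ 0 := by
  have : {s : ℝ | s * a + b = 0}.Subsingleton := by
    intro s hs t ht
    simp only [mem_setOf_eq] at hs ht
    by_cases ha : a = 0
    · rw [ha, mul_zero, zero_add] at hs
      exact absurd ⟨ha, hs⟩ h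
    · exact mul_right_cancel₀ ha (by linarith)
  have h0 : volume {s : ℝ | s * a + b = 0} = 0 := this.countable.measure_zero _
  exact measure_eq_zero_iff_ae_notMem.1 h0

/-- `J` vanishes unless the line is one of the three lines of the sides -/
theorem J_zero (p q : ℝ) (u : Circle) (d : ℝ)
    (h1 : ¬ ((u : ℂ).im = 0 ∧ d * (u : ℂ).re = 0))
    (h2 : ¬ ((u : ℂ).re = 0 ∧ d * (u : ℂ).im = 0))
    (h3 : ¬ (q * (u : ℂ).re + p * (u : ℂ).im = 0 ∧
      p * q + d * (q * (u : ℂ).im - p * (u : ℂ).re) = 0)) :
    J (R p q) (u, d) = 0 := by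
  unfold J
  simp only
  rw [lam_eq, lam_eq, sub_eq_zero]
  congr 1
  set a := (u : ℂ).re with ha
  set b := (u : ℂ).im with hb
  have hre : (-(u : ℂ)).re = -a := by simp [ha]
  have him : (-(u : ℂ)).im = -b := by simp [hb]
  have hneg : volume (St p q (-(u : ℂ)) (-d)) =
      volume {s : ℝ | E p q (-(u : ℂ)) (s * a - d * b) (s * b + d * a)} := by
    rw [← Measure.measure_neg (μ := (volume : Measure ℝ)) (St p q (-(u : ℂ)) (-d))]
    congr 1
    ext s
    simp only [Set.mem_neg, St, mem_setOf_eq, hre, him]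
    have e1 : -s * -a - -d * -b = s * a - d * b := by ring
    have e2 : -s * -b + -d * -a = s * b + d * a := by ring
    rw [e1, e2]
  rw [hneg]
  apply measure_congr
  have k1 := ae_ne (a := b) (b := d * a) h1
  have k2 : ∀ᵐ s : ℝ, s * a + (-(d * b)) ≠ 0 := ae_ne (by
    rintro ⟨x, y⟩; exact h2 ⟨x, by linarith⟩)
  have k3 : ∀ᵐ s : ℝ, s * (-(q * a + p * b)) + (p * q + d * (q * b - p * a)) ≠ 0 := ae_ne (by
    rintro ⟨x, y⟩; exact h3 ⟨by linarith, y⟩)
  filter_upwards [k1, k2, k3] with s s1 s2 s3
  have s2' : s * a - d * b ≠ 0 := by rwa [sub_eq_add_neg]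
  have s3' : p * q - q * (s * a - d * b) - p * (s * b + d * a) ≠ 0 := by
    have : p * q - q * (s * a - d * b) - p * (s * b + d * a) =
      s * (-(q * a + p * b)) + (p * q + d * (q * b - p * a)) := by ring
    rwa [this]
  apply propext
  show E p q (u : ℂ) (s * a - d * b) (s * b + d * a) ↔
    E p q (-(u : ℂ)) (s * a - d * b) (s * b + d * a)
  unfold E
  rw [ps_of_ne s1, ps_of_ne s1, ps_of_ne s2', ps_of_ne s2', ps_of_ne s3', ps_of_ne s3']

theorem J_neg (P : Set ℂ) (u : Circle) (d : ℝ) : J P (-u, -d) = - J P (u, d) := by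
  unfold J
  simp only [neg_neg]
  have : ((-u : Circle) : ℂ) = -(u : ℂ) := rfl
  rw [this, neg_neg]
  ring

theorem vol_Ico {a b : ℝ} (h : a ≤ b) : (volume (Ico a b)).toReal = b - a := by
  rw [Real.volume_Ico, ENNReal.toReal_ofReal (by linarith)]

theorem J_one {p q : ℝ} (hp : 0 < p) (hq : 0 < q) : J (R p q) (1, 0) = p := by
  unfold J
  simp only [neg_zero]
  rw [lam_eq, lam_eq]
  have e1 : St p q ((1 : Circle) : ℂ) 0 = Ico 0 p := by
    ext s
    simp only [St, E, ps, mem_setOf_eq, Circle.coe_one, Complex.one_re, Complex.one_im, mem_Ico]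
    constructor
    · rintro ⟨-, h2, h3⟩
      constructor
      · rcases h2 with h | ⟨h, -⟩ <;> linarith
      · rcases h3 with h | ⟨h, h'⟩
        · have : 0 < q * (p - s) := by nlinarith
          have := (pos_iff_pos_of_mul_pos this).1 hq
          linarith
        · linarith
    · rintro ⟨h1, h2⟩
      refine ⟨Or.inr ⟨by ring, by norm_num⟩, ?_, Or.inl ?_⟩
      · rcases h1.lt_or_eq with h | h
        · left; linarith
        · right; exact ⟨by rw [← h]; ring, by norm_num⟩
      · have := mul_pos hq (sub_pos.2 h2)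
        nlinarith
  have e2 : St p q (-((1 : Circle) : ℂ)) 0 = ∅ := by
    ext s
    simp only [St, E, ps, mem_setOf_eq, Circle.coe_one, Complex.neg_re, Complex.neg_im,
      Complex.one_re, Complex.one_im, mem_empty_iff_false, iff_false]
    rintro ⟨h1, -⟩
    rcases h1 with h | ⟨h, h'⟩ <;> linarith
  rw [e1, e2, vol_Ico hp.le]
  simp

theorem J_mI {p q : ℝ} (hp : 0 < p) (hq : 0 < q) : J (R p q) (mI, 0) = q := by
  unfold J
  simp only [neg_zero]
  rw [lam_eq, lam_eq]
  have hm : ((mI : Circle) : ℂ) = -Complex.I := rfl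
  have e1 : St p q ((mI : Circle) : ℂ) 0 = Ioc (-q) 0 := by
    ext s
    simp only [St, E, ps, mem_setOf_eq, hm, Complex.neg_re, Complex.neg_im,
      Complex.I_re, Complex.I_im, mem_Ioc]
    constructor
    · rintro ⟨h1, -, h3⟩
      constructor
      · rcases h3 with h | ⟨h, h'⟩
        · have : 0 < p * (q + s) := by nlinarith
          have := (pos_iff_pos_of_mul_pos this).1 hp
          linarith
        · linarith
      · rcases h1 with h | ⟨h, -⟩ <;> linarith
    · rintro ⟨h1, h2⟩
      refine ⟨?_, Or.inr ⟨by ring, by norm_num⟩, Or.inl ?_⟩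
      · rcases h2.lt_or_eq with h | h
        · left; linarith
        · right; exact ⟨by rw [h]; ring, by norm_num⟩
      · have : 0 < p * (q + s) := mul_pos hp (by linarith)
        nlinarith
  have e2 : St p q (-((mI : Circle) : ℂ)) 0 = ∅ := by
    ext s
    simp only [St, E, ps, mem_setOf_eq, hm, Complex.neg_re, Complex.neg_im, neg_neg,
      Complex.I_re, Complex.I_im, mem_empty_iff_false, iff_false]
    rintro ⟨-, h2, -⟩
    rcases h2 with h | ⟨h, h'⟩ <;> linarith
  rw [e1, e2, Real.volume_Ioc, ENNReal.toReal_ofReal (by linarith)]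
  simp

theorem J_w {p q r : ℝ} {w : Circle} (hp : 0 < p) (hq : 0 < q) (hr : 0 < r)
    (hw : (w : ℂ).re = -p / r) (hw' : (w : ℂ).im = q / r) (hpq : p ^ 2 + q ^ 2 = r ^ 2) :
    J (R p q) (w, -(p * q) / r) = r := by
  unfold J
  simp only
  rw [lam_eq, lam_eq]
  have hrne : r ≠ 0 := hr.ne'
  have i1 : ∀ s : ℝ, s * (q / r) + -(p * q) / r * (-p / r) = (q / r) * (s - (-(p ^ 2) / r)) := by
    intro s; field_simp; ring
  have i2 : ∀ s : ℝ, s * (-p / r) - -(p * q) / r * (q / r) = (p / r) * (q ^ 2 / r - s) := by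
    intro s; field_simp; ring
  have i3 : ∀ s : ℝ, p * q - q * (s * (-p / r) - -(p * q) / r * (q / r)) -
      p * (s * (q / r) + -(p * q) / r * (-p / r)) = 0 := by
    intro s
    have : p * q - q * (s * (-p / r) - -(p * q) / r * (q / r)) -
      p * (s * (q / r) + -(p * q) / r * (-p / r)) = p * q * (r ^ 2 - (p ^ 2 + q ^ 2)) / r ^ 2 := by
      field_simp; ring
    rw [this, hpq]; simp
  have hpr : 0 < p / r := div_pos hp hr
  have hqr : 0 < q / r := div_pos hq hr
  have e1 : St p q (w : ℂ) (-(p * q) / r) = Ioo (-(p ^ 2) / r) (q ^ 2 / r) := by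
    ext s
    simp only [St, E, ps, mem_setOf_eq, hw, hw', mem_Ioo]
    rw [i3, i1, i2]
    constructor
    · rintro ⟨h1, h2, -⟩
      constructor
      · rcases h1 with h | ⟨h, h'⟩
        · have := (pos_iff_pos_of_mul_pos h).1 hqr
          linarith
        · have : -p / r = -(p / r) := by ring
          linarith
      · rcases h2 with h | ⟨h, h'⟩
        · have := (pos_iff_pos_of_mul_pos h).1 hpr
          linarith
        · linarith
    · rintro ⟨h1, h2⟩
      refine ⟨Or.inl (mul_pos hqr (by linarith)), Or.inl (mul_pos hpr (by linarith)), Or.inr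
        ⟨rfl, ?_⟩⟩
      have : q * (q / r) - p * (-p / r) = (p ^ 2 + q ^ 2) / r := by ring
      rw [this]; positivity
  have e2 : St p q (-(w : ℂ)) (-(-(p * q) / r)) = ∅ := by
    ext s
    simp only [St, E, ps, mem_setOf_eq, Complex.neg_re, Complex.neg_im, hw, hw',
      mem_empty_iff_false, iff_false]
    rintro ⟨-, -, h3⟩
    have j3 : p * q - q * (s * -(-p / r) - -(-(p * q) / r) * -(q / r)) -
      p * (s * -(q / r) + -(-(p * q) / r) * -(-p / r)) = 0 := by
      have := i3 (-s)
      rw [← this]; ring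
    rw [j3] at h3
    rcases h3 with h | ⟨-, h'⟩
    · exact lt_irrefl _ h
    · have : q * -(q / r) - p * -(-p / r) = -((p ^ 2 + q ^ 2) / r) := by ring
      rw [this] at h'
      have : 0 < (p ^ 2 + q ^ 2) / r := by positivity
      linarith
  rw [e1, e2, Real.volume_Ioo, ENNReal.toReal_ofReal]
  · have : q ^ 2 / r - -(p ^ 2) / r = (p ^ 2 + q ^ 2) / r := by ring
    rw [this, hpq]
    simp
    field_simp
  · have : q ^ 2 / r - -(p ^ 2) / r = (p ^ 2 + q ^ 2) / r := by ring
    rw [this]; positivity

theorem circle_ext {u v : Circle} (h1 : (u : ℂ).re = (v : ℂ).re) (h2 : (u : ℂ).im = (v : ℂ).im) :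
    u = v := Circle.ext (Complex.ext h1 h2)

theorem circle_sq (u : Circle) : (u : ℂ).re ^ 2 + (u : ℂ).im ^ 2 = 1 := by
  have h := Circle.normSq_coe u
  rw [Complex.normSq_apply] at h
  nlinarith

end RB

open RB in
theorem t_RB : S_RB := by
  intro h p q r w hp hq hr hw
  have hrne : r ≠ 0 := hr.ne'
  have hwre : (w : ℂ).re = -p / r := by
    have := congrArg Complex.re hw
    simp at this
    field_simp
    linarith
  have hwim : (w : ℂ).im = q / r := by
    have := congrArg Complex.im hw
    simp at this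
    field_simp
    linarith
  have hpq : p ^ 2 + q ^ 2 = r ^ 2 := by
    have := circle_sq w
    rw [hwre, hwim] at this
    field_simp at this
    linarith
  set d : ℝ := -(p * q) / r with hd
  have hnegre : ∀ v : Circle, ((-v : Circle) : ℂ).re = -(v : ℂ).re := fun v => rfl
  have hnegim : ∀ v : Circle, ((-v : Circle) : ℂ).im = -(v : ℂ).im := fun v => rfl
  have h1re : ((1 : Circle) : ℂ).re = 1 := by simp
  have h1im : ((1 : Circle) : ℂ).im = 0 := by simp
  have hmre : ((mI : Circle) : ℂ).re = 0 := by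
    show (-Complex.I).re = 0
    simp
  have hmim : ((mI : Circle) : ℂ).im = -1 := by
    show (-Complex.I).im = -1
    simp
  classical
  -- the six oriented lines
  set f : Circle × ℝ → ℂ := fun x => (x.1 : ℂ) ^ 3 * (h (J (R p q) x) : ℂ) with hf
  have hpr : 0 < p / r := div_pos hp hr
  have hqr : 0 < q / r := div_pos hq hr
  have hwre' : (w : ℂ).re < 0 := by rw [hwre]; have : -p / r = -(p / r) := by ring
                                    rw [this]; linarith
  have hwim' : 0 < (w : ℂ).im := by rw [hwim]; exact hqr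
  let S : Finset (Circle × ℝ) := {(1, 0), (-1, -0), (mI, 0), (-mI, -0), (w, d), (-w, -d)}
  have hsupp : Function.support f ⊆ (S : Set (Circle × ℝ)) := by
    rintro ⟨u, e⟩ hx
    by_contra hS
    apply hx
    have hJ : J (R p q) (u, e) = 0 := by
      apply J_zero
      · rintro ⟨a, b⟩
        apply hS
        have hs := circle_sq u
        rw [a] at hs
        have hu : (u : ℂ).re = 1 ∨ (u : ℂ).re = -1 := by
          have : ((u : ℂ).re - 1) * ((u : ℂ).re + 1) = 0 := by nlinarith
          rcases mul_eq_zero.1 this with h | h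
          · left; linarith
          · right; linarith
        rcases hu with hu | hu
        · have he : e = 0 := by rw [hu] at b; linarith
          have : u = 1 := circle_ext (by rw [hu, h1re]) (by rw [a, h1im])
          rw [this, he]; simp [S]
        · have he : e = 0 := by rw [hu] at b; linarith
          have : u = -1 := circle_ext (by rw [hu, hnegre, h1re]) (by rw [a, hnegim, h1im]; simp)
          rw [this, he]; simp [S]
      · rintro ⟨a, b⟩
        apply hS
        have hs := circle_sq u
        rw [a] at hs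
        have hu : (u : ℂ).im = 1 ∨ (u : ℂ).im = -1 := by
          have : ((u : ℂ).im - 1) * ((u : ℂ).im + 1) = 0 := by nlinarith
          rcases mul_eq_zero.1 this with h | h
          · left; linarith
          · right; linarith
        rcases hu with hu | hu
        · have he : e = 0 := by rw [hu] at b; linarith
          have : u = -mI := circle_ext (by rw [a, hnegre, hmre]; simp)
            (by rw [hu, hnegim, hmim]; simp)
          rw [this, he]; simp [S]
        · have he : e = 0 := by rw [hu] at b; linarith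
          have : u = mI := circle_ext (by rw [a, hmre]) (by rw [hu, hmim])
          rw [this, he]; simp [S]
      · rintro ⟨a, b⟩
        apply hS
        have hs := circle_sq u
        set k : ℝ := (u : ℂ).im * r / q with hk
        have kim : (u : ℂ).im = k * (q / r) := by rw [hk]; field_simp
        have kre : (u : ℂ).re = k * (-p / r) := by
          have : (u : ℂ).re = -(p * (u : ℂ).im) / q := by
            field_simp; linarith
          rw [this, kim]; field_simp
        have k2 : k ^ 2 = 1 := by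
          rw [kim, kre] at hs
          have : k ^ 2 * ((p ^ 2 + q ^ 2) / r ^ 2) = 1 := by rw [← hs]; ring
          rw [hpq, div_self (by positivity), mul_one] at this
          exact this
        have hb : p * q + e * (k * r) = 0 := by
          have : q * (u : ℂ).im - p * (u : ℂ).re = k * ((p ^ 2 + q ^ 2) / r) := by
            rw [kim, kre]; ring
          rw [this, hpq] at b
          have h' : r ^ 2 / r = r := by field_simp
          rw [h'] at b
          exact b
        have hk' : k = 1 ∨ k = -1 := by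
          have : (k - 1) * (k + 1) = 0 := by nlinarith
          rcases mul_eq_zero.1 this with h | h
          · left; linarith
          · right; linarith
        rcases hk' with hk' | hk'
        · have he : e = d := by
            rw [hk'] at hb; rw [hd]; field_simp; linarith
          have : u = w := circle_ext (by rw [kre, hk', hwre]; ring) (by rw [kim, hk', hwim]; ring)
          rw [this, he]; simp [S]
        · have he : e = -d := by
            rw [hk'] at hb; rw [hd]; field_simp; linarith
          have : u = -w := circle_ext (by rw [kre, hk', hnegre, hwre]; ring)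
            (by rw [kim, hk', hnegim, hwim]; ring)
          rw [this, he]; simp [S]
    show (u : ℂ) ^ 3 * (h (J (R p q) (u, e)) : ℂ) = 0
    rw [hJ]; simp
  have hB : B h (R p q) = ∑ x ∈ S, f x := finsum_eq_sum_of_support_subset f hsupp
  rw [hB]
  have key : ∀ {u v : Circle} {a b : ℝ}, ((u : ℂ).re ≠ (v : ℂ).re ∨ (u : ℂ).im ≠ (v : ℂ).im) →
      ((u, a) : Circle × ℝ) ≠ (v, b) := by
    intro u v a b hne heq
    have : u = v := (Prod.ext_iff.1 heq).1
    rw [this] at hne
    simp at hne
  have n12 : ((1, 0) : Circle × ℝ) ≠ (-1, -0) := key (Or.inl (by rw [hnegre, h1re]; norm_num))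
  have n13 : ((1, 0) : Circle × ℝ) ≠ (mI, 0) := key (Or.inl (by rw [hmre, h1re]; norm_num))
  have n14 : ((1, 0) : Circle × ℝ) ≠ (-mI, -0) :=
    key (Or.inl (by rw [hnegre, hmre, h1re]; norm_num))
  have n15 : ((1, 0) : Circle × ℝ) ≠ (w, d) := key (Or.inr (by rw [h1im]; linarith))
  have n16 : ((1, 0) : Circle × ℝ) ≠ (-w, -d) := key (Or.inr (by rw [h1im, hnegim]; linarith))
  have n23 : ((-1, -0) : Circle × ℝ) ≠ (mI, 0) := key (Or.inl (by rw [hmre, hnegre, h1re]; norm_num))
  have n24 : ((-1, -0) : Circle × ℝ) ≠ (-mI, -0) :=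
    key (Or.inl (by rw [hnegre, hnegre, hmre, h1re]; norm_num))
  have n25 : ((-1, -0) : Circle × ℝ) ≠ (w, d) := key (Or.inr (by rw [hnegim, h1im]; linarith))
  have n26 : ((-1, -0) : Circle × ℝ) ≠ (-w, -d) :=
    key (Or.inr (by rw [hnegim, hnegim, h1im]; linarith))
  have n34 : ((mI, 0) : Circle × ℝ) ≠ (-mI, -0) := key (Or.inr (by rw [hnegim, hmim]; norm_num))
  have n35 : ((mI, 0) : Circle × ℝ) ≠ (w, d) := key (Or.inl (by rw [hmre]; linarith))
  have n36 : ((mI, 0) : Circle × ℝ) ≠ (-w, -d) := key (Or.inl (by rw [hmre, hnegre]; linarith))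
  have n45 : ((-mI, -0) : Circle × ℝ) ≠ (w, d) := key (Or.inl (by rw [hnegre, hmre]; linarith))
  have n46 : ((-mI, -0) : Circle × ℝ) ≠ (-w, -d) :=
    key (Or.inl (by rw [hnegre, hnegre, hmre]; linarith))
  have n56 : ((w, d) : Circle × ℝ) ≠ (-w, -d) := key (Or.inl (by rw [hnegre]; linarith))
  have hS : ∑ x ∈ S, f x = f (1, 0) + (f (-1, -0) + (f (mI, 0) + (f (-mI, -0) +
      (f (w, d) + f (-w, -d))))) := by
    show ∑ x ∈ insert (1, 0) (insert (-1, -0) (insert (mI, 0) (insert (-mI, -0)
      (insert (w, d) {(-w, -d)})))), f x = _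
    rw [Finset.sum_insert, Finset.sum_insert, Finset.sum_insert, Finset.sum_insert,
      Finset.sum_insert, Finset.sum_singleton]
    · rw [Finset.mem_singleton]; exact n56
    · simp only [Finset.mem_insert, Finset.mem_singleton, not_or]; exact ⟨n45, n46⟩
    · simp only [Finset.mem_insert, Finset.mem_singleton, not_or]; exact ⟨n34, n35, n36⟩
    · simp only [Finset.mem_insert, Finset.mem_singleton, not_or]; exact ⟨n23, n24, n25, n26⟩
    · simp only [Finset.mem_insert, Finset.mem_singleton, not_or]; exact ⟨n12, n13, n14, n15, n16⟩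
  rw [hS]
  have hneg : ∀ (u : Circle) (e : ℝ), f (-u, -e) = f (u, e) := by
    intro u e
    show ((-u : Circle) : ℂ) ^ 3 * (h (J (R p q) (-u, -e)) : ℂ) =
      (u : ℂ) ^ 3 * (h (J (R p q) (u, e)) : ℂ)
    rw [J_neg, map_neg]
    have : ((-u : Circle) : ℂ) = -(u : ℂ) := rfl
    rw [this]
    push_cast
    ring
  rw [hneg, hneg, hneg]
  have f1 : f (1, 0) = (h p : ℂ) := by
    show ((1 : Circle) : ℂ) ^ 3 * (h (J (R p q) (1, 0)) : ℂ) = _
    rw [J_one hp hq]; simp
  have f2 : f (mI, 0) = Complex.I * (h q : ℂ) := by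
    show ((mI : Circle) : ℂ) ^ 3 * (h (J (R p q) (mI, 0)) : ℂ) = _
    rw [J_mI hp hq]
    have : ((mI : Circle) : ℂ) ^ 3 = Complex.I := by
      show (-Complex.I) ^ 3 = Complex.I
      rw [show (-Complex.I) ^ 3 = -(Complex.I ^ 2) * Complex.I by ring, Complex.I_sq]; ring
    rw [this]
  have f3 : f (w, d) = (w : ℂ) ^ 3 * (h r : ℂ) := by
    show (w : ℂ) ^ 3 * (h (J (R p q) (w, d)) : ℂ) = _
    rw [hd, J_w hp hq hr hwre hwim hpq]
  rw [f1, f2, f3]
  ring

end

end H994.AP
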