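import Pool.Agent.H994.AP.Stmts

/-! The closed right triangle is a good set. -/

set_option autoImplicit false

open Set MeasureTheory Filter Topology

namespace H994.AP

namespace Rgd

/-- the open triangle -/
def Ro (p q : ℝ) : Set ℂ := {z | 0 < z.im ∧ 0 < z.re ∧ q * z.re + p * z.im < p * q}

theorem isOpen_Ro (p q : ℝ) : IsOpen (Ro p q) := by
  have h1 : IsOpen {z : ℂ | 0 < z.im} := isOpen_lt continuous_const Complex.continuous_im
  have h2 : IsOpen {z : ℂ | 0 < z.re} := isOpen_lt continuous_const Complex.continuous_re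
  have h3 : IsOpen {z : ℂ | q * z.re + p * z.im < p * q} :=
    isOpen_lt ((continuous_const.mul Complex.continuous_re).add
      (continuous_const.mul Complex.continuous_im)) continuous_const
  exact h1.inter (h2.inter h3)

theorem Ro_sub (p q : ℝ) : Ro p q ⊆ R p q := fun _ hz => ⟨hz.1.le, hz.2.1.le, hz.2.2.le⟩

theorem Ro_int (p q : ℝ) : Ro p q ⊆ interior (R p q) :=
  interior_maximal (Ro_sub p q) (isOpen_Ro p q)

theorem isClosed_R (p q : ℝ) : IsClosed (R p q) := by
  have h1 : IsClosed {z : ℂ | 0 ≤ z.im} := isClosed_le continuous_const Complex.continuous_im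
  have h2 : IsClosed {z : ℂ | 0 ≤ z.re} := isClosed_le continuous_const Complex.continuous_re
  have h3 : IsClosed {z : ℂ | q * z.re + p * z.im ≤ p * q} :=
    isClosed_le ((continuous_const.mul Complex.continuous_re).add
      (continuous_const.mul Complex.continuous_im)) continuous_const
  exact h1.inter (h2.inter h3)

theorem convex_R (p q : ℝ) : Convex ℝ (R p q) := by
  rintro z ⟨hz1, hz2, hz3⟩ w ⟨hw1, hw2, hw3⟩ a b ha hb hab
  have e1 : (a • z + b • w).im = a * z.im + b * w.im := by simp
  have e2 : (a • z + b • w).re = a * z.re + b * w.re := by simp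
  refine ⟨?_, ?_, ?_⟩
  · rw [e1]
    positivity
  · rw [e2]
    positivity
  · rw [e1, e2]
    have h1 := mul_le_mul_of_nonneg_left hz3 ha
    have h2 := mul_le_mul_of_nonneg_left hw3 hb
    have h3 : a * (p * q) + b * (p * q) = p * q := by rw [← add_mul, hab, one_mul]
    linarith

theorem cpt_R {p q : ℝ} (hp : 0 < p) (hq : 0 < q) : IsCompact (R p q) := by
  apply Metric.isCompact_of_isClosed_isBounded (isClosed_R p q)
  refine (Metric.isBounded_closedBall (x := (0 : ℂ)) (r := p + q)).subset fun z hz => ?_
  obtain ⟨h1, h2, h3⟩ := hz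
  rw [mem_closedBall_zero_iff]
  refine (Complex.norm_le_abs_re_add_abs_im z).trans ?_
  rw [abs_of_nonneg h2, abs_of_nonneg h1]
  have h4 : z.re ≤ p := by
    have : q * z.re ≤ q * p := by nlinarith
    exact le_of_mul_le_mul_left this hq
  have h5 : z.im ≤ q := by
    have : p * z.im ≤ p * q := by nlinarith
    exact le_of_mul_le_mul_left this hp
  linarith

/-- the direction of the hypotenuse -/
theorem exists_dir {p q : ℝ} (hp : 0 < p) : ∃ (w : Circle) (r : ℝ), 0 < r ∧
    (w : ℂ) * r = -p + q * Complex.I := by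
  refine ⟨Circle.exp (Complex.arg (-p + q * Complex.I)), ‖(-p + q * Complex.I : ℂ)‖, ?_, ?_⟩
  · rw [norm_pos_iff]
    intro h
    have := congrArg Complex.re h
    simp at this
    linarith
  · rw [Circle.coe_exp, mul_comm]
    exact Complex.norm_mul_exp_arg_mul_I _

end Rgd

open Rgd in
theorem t_Rgd : S_Rgd := by
  classical
  intro p q hp hq
  have hne : (interior (R p q)).Nonempty := by
    refine ⟨⟨p / 4, q / 4⟩, Ro_int p q ⟨?_, ?_, ?_⟩⟩
    · show 0 < q / 4
      positivity
    · show 0 < p / 4
      positivity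
    · show q * (p / 4) + p * (q / 4) < p * q
      have := mul_pos hp hq
      linarith
  refine ⟨⟨cpt_R hp hq, ?_⟩, ?_, hne⟩
  · obtain ⟨w, r, hr, hw⟩ := exists_dir (q := q) hp
    refine ⟨{((1 : Circle), (0 : ℝ)), (mI, 0), (w, -(p * q) / r)}, fun z hz => ?_⟩
    have hzR : z ∈ R p q := (isClosed_R p q).frontier_subset hz
    have hzi : z ∉ Ro p q := fun h => hz.2 (Ro_int p q h)
    obtain ⟨h1, h2, h3⟩ := hzR
    by_cases e1 : z.im = 0
    · refine ⟨((1 : Circle), (0 : ℝ)), by simp, ?_⟩
      show sd 1 0 z = 0
      unfold sd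
      simp [e1]
    by_cases e2 : z.re = 0
    · refine ⟨(mI, 0), by simp, ?_⟩
      show sd mI 0 z = 0
      unfold sd
      have e : ((mI : Circle) : ℂ) = -Complex.I := rfl
      rw [e]
      simp [e2]
    · refine ⟨(w, -(p * q) / r), by simp, ?_⟩
      have e3 : q * z.re + p * z.im = p * q := by
        by_contra hcon
        exact hzi ⟨lt_of_le_of_ne h1 (Ne.symm e1), lt_of_le_of_ne h2 (Ne.symm e2),
          lt_of_le_of_ne h3 hcon⟩
      show sd w (-(p * q) / r) z = 0
      unfold sd
      have e4 : (starRingEnd ℂ) (w : ℂ) * r = -p - q * Complex.I := by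
        have := congrArg (starRingEnd ℂ) hw
        simp only [map_mul, Complex.conj_ofReal, map_add, map_neg, Complex.conj_I] at this
        rw [this]
        ring
      have e5 : ((starRingEnd ℂ) (w : ℂ) * z).im * r = -(p * q) := by
        have e6 : ((starRingEnd ℂ) (w : ℂ) * z).im * r =
            ((starRingEnd ℂ) (w : ℂ) * r * z).im := by
          have e7 : (starRingEnd ℂ) (w : ℂ) * r * z = (r : ℂ) * ((starRingEnd ℂ) (w : ℂ) * z) := by
            ring
          rw [e7, Complex.im_ofReal_mul]
          ring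
        rw [e6, e4]
        simp only [Complex.mul_im, Complex.sub_re, Complex.sub_im, Complex.neg_re, Complex.neg_im,
          Complex.ofReal_re, Complex.ofReal_im, Complex.mul_re, Complex.I_re, Complex.I_im]
        linarith
      rw [← e5]
      field_simp
      ring
  · have h := (convex_R p q).closure_interior_eq_closure_of_nonempty_interior hne
    rw [h]
    exact subset_closure

end H994.AP
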