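import Pool.Agent.H994.AP.Stmts

set_option autoImplicit false

open Set MeasureTheory Filter Topology

namespace H994.AP

open H74R2.WT

namespace Stab

theorem finite_of_no_between (A : Set ℝ) (h : ∀ a ∈ A, ∀ b ∈ A, ∀ c ∈ A, a < b → b < c → False) :
    A.Finite := by
  by_contra hinf
  obtain ⟨t, htA, ht⟩ := Set.Infinite.exists_subset_card_eq hinf 3
  obtain ⟨x, y, z, hxy, hxz, hyz, rfl⟩ := Finset.card_eq_three.1 ht
  have hx : x ∈ A := htA (by simp)
  have hy : y ∈ A := htA (by simp)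
  have hz : z ∈ A := htA (by simp)
  rcases lt_or_gt_of_ne hxy with h1 | h1 <;> rcases lt_or_gt_of_ne hxz with h2 | h2 <;>
    rcases lt_or_gt_of_ne hyz with h3 | h3
  · exact h x hx y hy z hz h1 h3
  · exact h x hx z hz y hy h2 h3
  · exact absurd (h1.trans h3) (not_lt.2 h2.le)
  · exact h z hz x hx y hy h2 h1
  · exact h y hy x hx z hz h1 h2
  · exact absurd (h1.trans h2) (not_lt.2 h3.le)
  · exact h y hy z hz x hx h3 h2
  · exact h z hz y hy x hx h3 h1

theorem circle_mul_conj (u : Circle) : (u : ℂ) * (starRingEnd ℂ) (u : ℂ) = 1 := by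
  rw [Complex.mul_conj, Circle.normSq_coe]
  simp

theorem dist_sq (u : Circle) (z y : ℂ) :
    dist z y ^ 2 = (((starRingEnd ℂ) (u : ℂ) * z).re - ((starRingEnd ℂ) (u : ℂ) * y).re) ^ 2 +
      (((starRingEnd ℂ) (u : ℂ) * z).im - ((starRingEnd ℂ) (u : ℂ) * y).im) ^ 2 := by
  have h1 : dist z y = ‖(starRingEnd ℂ) (u : ℂ) * z - (starRingEnd ℂ) (u : ℂ) * y‖ := by
    rw [← mul_sub, norm_mul, RCLike.norm_conj, Circle.norm_coe, one_mul, dist_eq_norm]
  rw [h1, ← Complex.normSq_eq_norm_sq, Complex.normSq_apply]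
  simp only [Complex.sub_re, Complex.sub_im]
  ring

end Stab

open Stab in
theorem t_stab : S_stab := by
  intro P hP hne
  obtain ⟨z0, hz0⟩ := hne
  have hPne : P.Nonempty := ⟨z0, interior_subset hz0⟩
  have hcl : IsClosed P := hP.cpt.isClosed
  -- the diameter is attained
  obtain ⟨p0, hp0, hmax⟩ := (hP.cpt.prod hP.cpt).exists_isMaxOn (hPne.prod hPne)
    (f := fun q : ℂ × ℂ => dist q.1 q.2) (continuous_dist.continuousOn)
  obtain ⟨x0, y0⟩ := p0
  obtain ⟨hx0, hy0⟩ := hp0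
  simp only at hx0 hy0
  set D : ℝ := dist x0 y0 with hD
  have hle : ∀ x ∈ P, ∀ y ∈ P, dist x y ≤ D := by
    intro x hx y hy
    exact hmax (show (x, y) ∈ P ×ˢ P from ⟨hx, hy⟩)
  have hDpos : 0 < D := by
    obtain ⟨ε, hε, hb⟩ := Metric.isOpen_iff.1 isOpen_interior z0 hz0
    have h1 : z0 + ((ε / 2 : ℝ) : ℂ) ∈ P := by
      apply interior_subset
      apply hb
      rw [Metric.mem_ball, dist_eq_norm, add_sub_cancel_left, Complex.norm_real, Real.norm_eq_abs,
        abs_of_pos (by positivity)]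
      linarith
    have h2 := hle _ h1 _ (interior_subset hz0)
    rw [dist_eq_norm, add_sub_cancel_left, Complex.norm_real, Real.norm_eq_abs,
      abs_of_pos (by positivity)] at h2
    linarith
  let K : Set ℂ := {x | x ∈ P ∧ ∃ y ∈ P, dist x y = D}
  have hKfr : ∀ x ∈ K, x ∈ frontier P := by
    rintro x ⟨hx, y, hy, hxy⟩
    rw [frontier, hcl.closure_eq]
    refine ⟨hx, fun hint => ?_⟩
    obtain ⟨ε, hε, hb⟩ := Metric.isOpen_iff.1 isOpen_interior x hint
    have hx' : x + ((ε / (2 * D) : ℝ) : ℂ) * (x - y) ∈ P := by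
      apply interior_subset
      apply hb
      rw [Metric.mem_ball, dist_eq_norm, add_sub_cancel_left, norm_mul, Complex.norm_real,
        Real.norm_eq_abs, abs_of_pos (by positivity), ← dist_eq_norm, hxy]
      have : ε / (2 * D) * D = ε / 2 := by field_simp
      rw [this]
      linarith
    have h2 := hle _ hx' _ hy
    have h3 : x + ((ε / (2 * D) : ℝ) : ℂ) * (x - y) - y = ((1 + ε / (2 * D) : ℝ) : ℂ) * (x - y) := by
      push_cast
      ring
    rw [dist_eq_norm, h3, norm_mul, Complex.norm_real, Real.norm_eq_abs, abs_of_pos (by positivity),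
      ← dist_eq_norm, hxy] at h2
    have h4 : 0 < ε / (2 * D) * D := by positivity
    nlinarith
  obtain ⟨F, hF⟩ := hP.lines
  have hKfin : K.Finite := by
    have hsub : K ⊆ ⋃ q ∈ F, {z | z ∈ K ∧ sd q.1 q.2 z = 0} := by
      intro z hz
      obtain ⟨q, hq, hz0⟩ := hF z (hKfr z hz)
      exact Set.mem_biUnion hq ⟨hz, hz0⟩
    refine Set.Finite.subset (Set.Finite.biUnion F.finite_toSet ?_) hsub
    intro q _
    refine Set.Finite.of_injOn (f := fun z : ℂ => ((starRingEnd ℂ) (q.1 : ℂ) * z).re)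
      (t := (fun z : ℂ => ((starRingEnd ℂ) (q.1 : ℂ) * z).re) '' {z | z ∈ K ∧ sd q.1 q.2 z = 0})
      (Set.mapsTo_image _ _) ?_ ?_
    · rintro z ⟨_, hz⟩ w ⟨_, hw⟩ hzw
      simp only [sd] at hz hw hzw
      have h1 : (starRingEnd ℂ) (q.1 : ℂ) * z = (starRingEnd ℂ) (q.1 : ℂ) * w := by
        apply Complex.ext hzw
        linarith
      have h2 : (q.1 : ℂ) * ((starRingEnd ℂ) (q.1 : ℂ) * z) = (q.1 : ℂ) * ((starRingEnd ℂ) (q.1 : ℂ) * w) := by
        rw [h1]
      rwa [← mul_assoc, ← mul_assoc, circle_mul_conj, one_mul, one_mul] at h2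
    · apply finite_of_no_between
      rintro _ ⟨z1, ⟨⟨hz1P, _⟩, hz1⟩, rfl⟩ _ ⟨z2, ⟨⟨hz2P, y, hy, hy2⟩, hz2⟩, rfl⟩ _
        ⟨z3, ⟨⟨hz3P, _⟩, hz3⟩, rfl⟩ h12 h23
      simp only [sd] at hz1 hz2 hz3 h12 h23
      have e1 := dist_sq q.1 z1 y
      have e2 := dist_sq q.1 z2 y
      have e3 := dist_sq q.1 z3 y
      have l1 : dist z1 y ^ 2 ≤ D ^ 2 := pow_le_pow_left₀ dist_nonneg (hle _ hz1P _ hy) 2
      have l3 : dist z3 y ^ 2 ≤ D ^ 2 := pow_le_pow_left₀ dist_nonneg (hle _ hz3P _ hy) 2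
      rw [hy2] at e2
      have i1 : ((starRingEnd ℂ) (q.1 : ℂ) * z1).im = q.2 := by linarith
      have i2 : ((starRingEnd ℂ) (q.1 : ℂ) * z2).im = q.2 := by linarith
      have i3 : ((starRingEnd ℂ) (q.1 : ℂ) * z3).im = q.2 := by linarith
      rw [i1] at e1
      rw [i2] at e2
      rw [i3] at e3
      generalize ((starRingEnd ℂ) (q.1 : ℂ) * z1).re = s1 at *
      generalize ((starRingEnd ℂ) (q.1 : ℂ) * z2).re = s2 at *
      generalize ((starRingEnd ℂ) (q.1 : ℂ) * z3).re = s3 at *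
      generalize ((starRingEnd ℂ) (q.1 : ℂ) * y).re = a at *
      have k1 : (s1 - a) ^ 2 ≤ (s2 - a) ^ 2 := by linarith
      have k3 : (s3 - a) ^ 2 ≤ (s2 - a) ^ 2 := by linarith
      have m1 : 0 ≤ s1 + s2 - 2 * a := by
        by_contra hneg
        push Not at hneg
        nlinarith
      have m3 : s3 + s2 - 2 * a ≤ 0 := by
        by_contra hneg
        push Not at hneg
        nlinarith
      linarith
  have hmapP : ∀ g : ℂ ≃ᵢ ℂ, g '' P = P → (g x0, g y0) ∈ K ×ˢ K := by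
    intro g hg
    have h1 : g x0 ∈ P := by rw [← hg]; exact ⟨x0, hx0, rfl⟩
    have h2 : g y0 ∈ P := by rw [← hg]; exact ⟨y0, hy0, rfl⟩
    have h3 : dist (g x0) (g y0) = D := by rw [g.isometry.dist_eq]
    exact ⟨⟨h1, g y0, h2, h3⟩, ⟨h2, g x0, h1, by rw [dist_comm]; exact h3⟩⟩
  have hne0 : x0 - y0 ≠ 0 := by
    intro h
    rw [sub_eq_zero] at h
    rw [hD, h, dist_self] at hDpos
    exact lt_irrefl _ hDpos
  have hsplit : {g : ℂ ≃ᵢ ℂ | g '' P = P} ⊆
      {g : ℂ ≃ᵢ ℂ | g '' P = P ∧ ∃ u b : ℂ, ∀ z, g z = u * z + b} ∪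
      {g : ℂ ≃ᵢ ℂ | g '' P = P ∧ ∃ u b : ℂ, ∀ z, g z = u * (starRingEnd ℂ) z + b} := by
    intro g hg
    obtain ⟨u, b, _, h | h⟩ := t_K0 g
    · exact Or.inl ⟨hg, u, b, h⟩
    · exact Or.inr ⟨hg, u, b, h⟩
  refine Set.Finite.subset (Set.Finite.union ?_ ?_) hsplit
  · refine Set.Finite.of_injOn (f := fun g : ℂ ≃ᵢ ℂ => (g x0, g y0)) (t := K ×ˢ K)
      (fun g hg => hmapP g hg.1) ?_ (hKfin.prod hKfin)
    rintro g ⟨_, u, b, hg⟩ g' ⟨_, u', b', hg'⟩ heq
    simp only [Prod.mk.injEq] at heq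
    obtain ⟨e1, e2⟩ := heq
    rw [hg, hg'] at e1 e2
    have h1 : (u - u') * (x0 - y0) = 0 := by linear_combination e1 - e2
    have h2 : u = u' := by
      rcases mul_eq_zero.1 h1 with h | h
      · exact sub_eq_zero.1 h
      · exact absurd h hne0
    subst h2
    have h3 : b = b' := by linear_combination e1
    subst h3
    ext z
    rw [hg, hg']
  · refine Set.Finite.of_injOn (f := fun g : ℂ ≃ᵢ ℂ => (g x0, g y0)) (t := K ×ˢ K)
      (fun g hg => hmapP g hg.1) ?_ (hKfin.prod hKfin)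
    rintro g ⟨_, u, b, hg⟩ g' ⟨_, u', b', hg'⟩ heq
    simp only [Prod.mk.injEq] at heq
    obtain ⟨e1, e2⟩ := heq
    rw [hg, hg'] at e1 e2
    have h1 : (u - u') * (starRingEnd ℂ) (x0 - y0) = 0 := by
      rw [map_sub]
      linear_combination e1 - e2
    have h2 : u = u' := by
      rcases mul_eq_zero.1 h1 with h | h
      · exact sub_eq_zero.1 h
      · exact absurd ((map_eq_zero _).1 h) hne0
    subst h2
    have h3 : b = b' := by linear_combination e1
    subst h3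
    ext z
    rw [hg, hg']

end H994.AP
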