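import Pool.Agent.H994.AP.Stmts

/-! Supp: finite support of `J`. -/

set_option autoImplicit false

open Set MeasureTheory Filter Topology

namespace H994.AP

namespace Supp

/-- away from the frontier nothing depends on the side -/
theorem seqIn_iff {P : Set ℂ} (hP : IsClosed P) (v : ℂ) {z : ℂ} (hz : z ∉ frontier P) :
    seqIn P v z ↔ z ∈ P := by
  have hlim : Tendsto (fun n : ℕ => z + ((1 / ((n : ℝ) + 1) : ℝ) : ℂ) * (Complex.I * v)) atTop
      (𝓝 z) := by
    have h1 : Tendsto (fun n : ℕ => ((1 / ((n : ℝ) + 1) : ℝ) : ℂ)) atTop (𝓝 ((0 : ℝ) : ℂ)) :=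
      (Complex.continuous_ofReal.tendsto 0).comp tendsto_one_div_add_atTop_nhds_zero_nat
    have h2 := (h1.mul_const (Complex.I * v)).const_add z
    simpa using h2
  constructor
  · intro h
    by_contra hn
    have h1 : Pᶜ ∈ 𝓝 z := hP.isOpen_compl.mem_nhds hn
    have h2 : ∀ᶠ n : ℕ in atTop,
        z + ((1 / ((n : ℝ) + 1) : ℝ) : ℂ) * (Complex.I * v) ∈ Pᶜ := hlim h1
    obtain ⟨n, h3, h4⟩ := (h2.and h).exists
    exact h3 h4
  · intro h
    have h1 : z ∈ interior P := by
      by_contra hn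
      exact hz ⟨subset_closure h, hn⟩
    exact hlim (mem_interior_iff_mem_nhds.1 h1)

/-- two different lines meet at most once -/
theorem sub {u v : Circle} {d e : ℝ} (h1 : (v, e) ≠ (u, d)) (h2 : (v, e) ≠ (-u, -d)) :
    {s : ℝ | sd v e (((s : ℂ) + (d : ℂ) * Complex.I) * u) = 0}.Subsingleton := by
  set a : ℝ := ((starRingEnd ℂ) (v : ℂ) * u).re with ha
  set b : ℝ := ((starRingEnd ℂ) (v : ℂ) * u).im with hb
  have key : ∀ s : ℝ, sd v e (((s : ℂ) + (d : ℂ) * Complex.I) * u) = a * d + b * s - e := by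
    intro s
    unfold sd
    have h3 : (starRingEnd ℂ) (v : ℂ) * (((s : ℂ) + (d : ℂ) * Complex.I) * u) =
        ((starRingEnd ℂ) (v : ℂ) * u) * ((s : ℂ) + (d : ℂ) * Complex.I) := by ring
    rw [h3, Complex.mul_im]
    have h4 : ((s : ℂ) + (d : ℂ) * Complex.I).re = s := by simp
    have h5 : ((s : ℂ) + (d : ℂ) * Complex.I).im = d := by simp
    rw [h4, h5]
  have hb0 : b = 0 → ∀ s : ℝ, a * d + b * s - e ≠ 0 := by
    intro hb0 s h3
    rw [hb0, zero_mul, add_zero] at h3
    have h4 : (starRingEnd ℂ) (v : ℂ) * u = (a : ℂ) := by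
      apply Complex.ext
      · rw [Complex.ofReal_re]
      · rw [Complex.ofReal_im]
        exact hb0
    have h5 : (v : ℂ) * ((starRingEnd ℂ) (v : ℂ)) = 1 := by
      rw [Complex.mul_conj, Circle.normSq_coe]
      norm_num
    have h6 : (u : ℂ) = a * v := by
      calc (u : ℂ) = (v : ℂ) * ((starRingEnd ℂ) (v : ℂ)) * u := by rw [h5, one_mul]
        _ = ((starRingEnd ℂ) (v : ℂ) * u) * v := by ring
        _ = a * v := by rw [h4]
    have h7 : a ^ 2 = 1 := by
      have h8 : ‖(u : ℂ)‖ = ‖(a : ℂ) * v‖ := by rw [← h6]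
      rw [norm_mul, Circle.norm_coe, Circle.norm_coe, mul_one, Complex.norm_real,
        Real.norm_eq_abs] at h8
      rw [← sq_abs, ← h8]
      norm_num
    have h8 : (a - 1) * (a + 1) = 0 := by linarith
    rcases mul_eq_zero.1 h8 with h9 | h9
    · have h10 : a = 1 := by linarith
      apply h1
      refine Prod.ext ?_ ?_
      · apply Circle.ext
        rw [h6, h10]
        simp
      · show e = d
        rw [h10] at h3
        linarith
    · have h10 : a = -1 := by linarith
      apply h2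
      refine Prod.ext ?_ ?_
      · apply Circle.ext
        show (v : ℂ) = -(u : ℂ)
        rw [h6, h10]
        simp
      · show e = -d
        rw [h10] at h3
        linarith
  intro s hs t ht
  have hs' : a * d + b * s - e = 0 := (key s).symm.trans hs
  have ht' : a * d + b * t - e = 0 := (key t).symm.trans ht
  by_cases hb1 : b = 0
  · exact absurd hs' (hb0 hb1 s)
  · have : b * (s - t) = 0 := by linarith
    rcases mul_eq_zero.1 this with h | h
    · exact absurd h hb1
    · linarith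

theorem J_eq_zero {P : Set ℂ} (hP : IsClosed P) (F : Finset (Circle × ℝ))
    (hF : ∀ z ∈ frontier P, ∃ q ∈ F, sd q.1 q.2 z = 0) {q : Circle × ℝ} (h1 : q ∉ F)
    (h2 : (-q.1, -q.2) ∉ F) : J P q = 0 := by
  obtain ⟨u, d⟩ := q
  set Z : Set ℝ := ⋃ f ∈ F, {s : ℝ | sd f.1 f.2 (((s : ℂ) + (d : ℂ) * Complex.I) * u) = 0} with hZ
  have hZ0 : volume Z = 0 := by
    have h3 : Z.Countable := by
      refine (Finset.countable_toSet F).biUnion fun f hf => ?_
      apply Set.Subsingleton.countable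
      obtain ⟨v, e⟩ := f
      refine sub (fun h => h1 ?_) (fun h => h2 ?_)
      · rw [← h]
        exact hf
      · show (-u, -d) ∈ F
        rw [← h]
        exact hf
    exact h3.measure_zero volume
  have hnf : ∀ s : ℝ, s ∉ Z → ((s : ℂ) + (d : ℂ) * Complex.I) * u ∉ frontier P := by
    intro s hs hf
    obtain ⟨f, hf1, hf2⟩ := hF _ hf
    apply hs
    rw [hZ]
    simp only [mem_iUnion]
    exact ⟨f, hf1, hf2⟩
  set M : Set ℝ := {s : ℝ | ((s : ℂ) + (d : ℂ) * Complex.I) * u ∈ P} with hM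
  have hZae : ∀ᵐ s : ℝ, s ∉ Z := measure_eq_zero_iff_ae_notMem.1 hZ0
  have hZae' : ∀ᵐ s : ℝ, -s ∉ Z := by
    have h3 : volume (Neg.neg ⁻¹' Z) = 0 := by
      rw [Measure.measure_preimage_neg, hZ0]
    exact measure_eq_zero_iff_ae_notMem.1 h3
  have e1 : volume {s : ℝ | seqIn P u (((s : ℂ) + (d : ℂ) * Complex.I) * u)} = volume M := by
    apply measure_congr
    filter_upwards [hZae] with s hs
    exact propext (seqIn_iff hP _ (hnf s hs))
  have e2 : volume {s : ℝ | seqIn P (-(u : ℂ)) (((s : ℂ) + ((-d : ℝ) : ℂ) * Complex.I) * (-(u : ℂ)))} =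
      volume M := by
    rw [← Measure.measure_preimage_neg volume M]
    apply measure_congr
    filter_upwards [hZae'] with s hs
    have h3 : ((s : ℂ) + ((-d : ℝ) : ℂ) * Complex.I) * (-(u : ℂ)) =
        (((-s : ℝ) : ℂ) + (d : ℂ) * Complex.I) * u := by
      push_cast
      ring
    have h4 := hnf (-s) hs
    rw [← h3] at h4
    refine propext ((seqIn_iff hP _ h4).trans ?_)
    rw [h3]
    rfl
  show lam P (u : ℂ) d - lam P (-(u : ℂ)) (-d) = 0
  unfold lam
  rw [e1, e2, sub_self]

end Supp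

open Supp in
theorem t_supp : S_supp := by
  intro P hP
  obtain ⟨F, hF⟩ := hP.lines
  refine ((Finset.finite_toSet F).union
    ((Finset.finite_toSet F).image fun q => (-q.1, -q.2))).subset ?_
  intro q hq
  by_contra hn
  rw [mem_union, not_or] at hn
  apply hq
  refine J_eq_zero hP.cpt.isClosed F hF hn.1 fun h => hn.2 ?_
  refine ⟨(-q.1, -q.2), h, ?_⟩
  show (- -q.1, - -q.2) = q
  rw [neg_neg, neg_neg]

end H994.AP
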