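import Pool.Agent.H994.AP.Stmts

set_option autoImplicit false

open Set Filter Topology

namespace H994.AP

open H74R2.WT

namespace Tile

lemma usq (u : Circle) : (u : ℂ).re ^ 2 + (u : ℂ).im ^ 2 = 1 := by
  have h := Circle.normSq_coe u
  rw [Complex.normSq_apply] at h
  linarith

lemma sd_eq (u : Circle) (d : ℝ) (z : ℂ) :
    sd u d z = (u : ℂ).re * z.im - (u : ℂ).im * z.re - d := by
  unfold sd
  simp [Complex.mul_im]
  ring

lemma sd_cont (u : Circle) (d : ℝ) : Continuous (sd u d) := by
  unfold sd
  fun_prop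

lemma refl_eq (u : Circle) (d : ℝ) (z : ℂ) :
    refl u d z = z - 2 * (sd u d z : ℂ) * (Complex.I * u) := by
  unfold refl
  rw [opp_apply]
  have h := usq u
  apply Complex.ext
  · simp only [Complex.add_re, Complex.sub_re, Complex.mul_re, Complex.mul_im, Complex.ofReal_re, Complex.ofReal_im,
      Complex.I_re, Complex.I_im, Complex.conj_re, Complex.conj_im, Circle.coe_mul, Complex.re_ofNat, Complex.im_ofNat]
    rw [sd_eq]
    linear_combination z.re * h
  · simp only [Complex.add_im, Complex.sub_im, Complex.mul_re, Complex.mul_im, Complex.ofReal_re, Complex.ofReal_im,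
      Complex.I_re, Complex.I_im, Complex.conj_re, Complex.conj_im, Circle.coe_mul, Complex.re_ofNat, Complex.im_ofNat]
    rw [sd_eq]
    linear_combination z.im * h

lemma dist_refl (u : Circle) (d : ℝ) (w y : ℂ) :
    dist w (refl u d y) ^ 2 - dist w y ^ 2 = 4 * sd u d w * sd u d y := by
  rw [refl_eq, dist_eq_norm, dist_eq_norm, Complex.sq_norm, Complex.sq_norm, Complex.normSq_apply,
    Complex.normSq_apply]
  have h := usq u
  have e1 := sd_eq u d w
  have e2 := sd_eq u d y
  set b := sd u d y
  set a := sd u d w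
  simp only [Complex.sub_re, Complex.sub_im, Complex.mul_re, Complex.mul_im, Complex.ofReal_re, Complex.ofReal_im,
      Complex.I_re, Complex.I_im, Complex.re_ofNat, Complex.im_ofNat]
  linear_combination 4 * b ^ 2 * h - 4 * b * e1 + 4 * b * e2

lemma sd_shift (u : Circle) (d : ℝ) (z : ℂ) (τ : ℝ) :
    sd u d (z + τ * (Complex.I * u)) = sd u d z + τ := by
  have h := usq u
  rw [sd_eq, sd_eq]
  simp only [Complex.add_re, Complex.add_im, Complex.mul_re, Complex.mul_im, Complex.ofReal_re, Complex.ofReal_im,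
      Complex.I_re, Complex.I_im]
  linear_combination τ * h

lemma norm_shift (u : Circle) (τ : ℝ) : ‖(τ : ℂ) * (Complex.I * u)‖ = |τ| := by
  rw [norm_mul, norm_mul, Complex.norm_I, Circle.norm_coe, Complex.norm_real, Real.norm_eq_abs]
  ring

lemma refl_ne_one (u : Circle) (d : ℝ) : refl u d ≠ 1 := by
  intro h
  have h1 : refl u d (((1 - sd u d 0 : ℝ) : ℂ) * (Complex.I * u)) = ((1 - sd u d 0 : ℝ) : ℂ) * (Complex.I * u) := by
    rw [h]; rfl
  have h2 := dist_refl u d 0 (((1 - sd u d 0 : ℝ) : ℂ) * (Complex.I * u))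
  have h4 := dist_refl u d (((1 - sd u d 0 : ℝ) : ℂ) * (Complex.I * u)) (((1 - sd u d 0 : ℝ) : ℂ) * (Complex.I * u))
  have h3 := sd_shift u d 0 (1 - sd u d 0)
  rw [zero_add] at h3
  rw [h1, sub_self, h3] at h4
  norm_num at h4

lemma int_img (g : ℂ ≃ᵢ ℂ) (P : Set ℂ) : interior (g '' P) = g '' interior P :=
  (g.toHomeomorph.image_interior P).symm

end Tile

open Tile in
theorem t_tile (hC : S_cham) : S_tile := by
  classical
  intro P hP
  obtain ⟨Q, St, hQ, hcov, hdisj, hmir⟩ := hC P hP.gd hP.ne
  refine ⟨Q, hQ, ?_⟩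
  intro T hT u d hrefl Δ hΔ hcpt hreg
  obtain ⟨-, -, hfin, -, -⟩ := t_O P T ⟨hP.gd.cpt, hP.ne, hP.reg⟩ hT
  -- the tiles
  have htile : ∀ A ∈ T, ∃ g : ℂ ≃ᵢ ℂ, A = g '' P := hT.tile
  choose! κ hκ using htile
  have hsym : ∀ i, ∀ A ∈ T, refl (u i) (d i) '' A ∈ T := fun i A hA => (hrefl i).1 A hA
  set C : Set ℂ × (ℂ ≃ᵢ ℂ) → Set ℂ := fun p => (κ p.1 * p.2) '' Q with hCdef
  have hC2 : ∀ A k, C (A, k) = κ A '' (k '' Q) := by
    intro A k
    rw [image_image]; rfl
  have hkP : ∀ k ∈ St, k '' Q ⊆ P := by
    intro k hk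
    rw [hcov]
    exact subset_iUnion₂ (s := fun g (_ : g ∈ St) => g '' Q) k hk
  have hCA : ∀ A ∈ T, ∀ k ∈ St, C (A, k) ⊆ A := by
    intro A hA k hk
    rw [hC2]
    conv_rhs => rw [hκ A hA]
    exact image_mono (hkP k hk)
  -- `Q` is nonempty
  have hQne : Q.Nonempty := by
    obtain ⟨p, hp⟩ := hP.ne
    have hp' : p ∈ P := interior_subset hp
    rw [hcov] at hp'
    obtain ⟨g, -, hg⟩ := mem_iUnion₂.1 hp'
    obtain ⟨w, hw, -⟩ := hg
    exact ⟨w, hw⟩
  -- separation
  have hsep : ∀ A ∈ T, ∀ k ∈ St, ∀ i, C (A, k) ⊆ {z | 0 ≤ sd (u i) (d i) z} ∨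
      C (A, k) ⊆ {z | sd (u i) (d i) z ≤ 0} := by
    intro A hA k hk i
    by_cases hz : ∃ z ∈ interior A, sd (u i) (d i) z = 0
    · obtain ⟨z, hzA, hz0⟩ := hz
      set σ := refl (u i) (d i) with hσ
      have hσz : σ z = z := by
        rw [hσ, refl_eq, hz0]; simp
      have hσA : σ '' A = A := by
        by_contra hne
        have hdj := hT.disj (hsym i A hA) hA hne
        refine Set.disjoint_left.1 hdj ?_ hzA
        rw [int_img]
        exact ⟨z, hzA, hσz⟩
      set ρ : ℂ ≃ᵢ ℂ := (κ A)⁻¹ * σ * κ A with hρ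
      have hκρ : ∀ x, κ A (ρ x) = σ (κ A x) := by
        intro x
        rw [hρ, IsometryEquiv.mul_apply, IsometryEquiv.mul_apply]
        simp
      have hρP : ρ '' P = P := by
        apply (image_injective.2 (κ A).injective)
        show κ A '' (ρ '' P) = κ A '' P
        rw [image_image]
        simp only [hκρ]
        rw [← image_image σ (κ A), ← hκ A hA, hσA]
      have hρ1 : ρ ≠ 1 := by
        intro h
        apply refl_ne_one (u i) (d i)
        rw [← hσ]
        have : σ = κ A * ρ * (κ A)⁻¹ := by rw [hρ]; group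
        rw [this, h]; simp
      obtain ⟨x, hx, hsub⟩ := hmir ρ hρP hρ1 k hk
      have hy : sd (u i) (d i) (κ A x) ≠ 0 := by
        intro h
        apply hx
        apply (κ A).injective
        rw [hκρ, hσ, refl_eq, h]; simp
      have hprod : ∀ w ∈ C (A, k), 0 ≤ sd (u i) (d i) w * sd (u i) (d i) (κ A x) := by
        intro w hw
        rw [hC2] at hw
        obtain ⟨z', hz', rfl⟩ := hw
        have h1 : dist z' x ≤ dist z' (ρ x) := hsub hz'
        have h2 := dist_refl (u i) (d i) (κ A z') (κ A x)
        rw [← hσ, ← hκρ, (κ A).dist_eq, (κ A).dist_eq] at h2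
        have h3 : dist z' x ^ 2 ≤ dist z' (ρ x) ^ 2 := pow_le_pow_left₀ dist_nonneg h1 2
        nlinarith
      rcases lt_or_gt_of_ne hy with h | h
      · right
        intro w hw
        have := hprod w hw
        show sd (u i) (d i) w ≤ 0
        by_contra hc
        push Not at hc
        have := mul_neg_of_pos_of_neg hc h
        linarith
      · left
        intro w hw
        have := hprod w hw
        show 0 ≤ sd (u i) (d i) w
        by_contra hc
        push Not at hc
        have := mul_neg_of_neg_of_pos hc h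
        linarith
    · push Not at hz
      have hconn : IsPreconnected (interior A) := by
        rw [hκ A hA, int_img]
        exact hP.conn.image _ (κ A).continuous.continuousOn
      have hregA : A ⊆ closure (interior A) := by
        rw [hκ A hA, int_img]
        exact (image_mono hP.reg).trans (image_closure_subset_closure_image (κ A).continuous)
      by_cases hp : ∃ z ∈ interior A, 0 < sd (u i) (d i) z
      · left
        obtain ⟨z1, hz1, hz1p⟩ := hp
        have hall : interior A ⊆ {z | 0 ≤ sd (u i) (d i) z} := by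
          intro z2 hz2
          show 0 ≤ sd (u i) (d i) z2
          by_contra hc
          push Not at hc
          have := hconn.intermediate_value hz2 hz1 (sd_cont (u i) (d i)).continuousOn ⟨hc.le, hz1p.le⟩
          obtain ⟨z3, hz3, h3⟩ := this
          exact hz z3 hz3 h3
        refine (hCA A hA k hk).trans (hregA.trans ?_)
        exact closure_minimal hall (isClosed_le continuous_const (sd_cont _ _))
      · right
        push Not at hp
        refine (hCA A hA k hk).trans (hregA.trans ?_)
        exact closure_minimal hp (isClosed_le (sd_cont _ _) continuous_const)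
  -- the finite set of pieces
  obtain ⟨R, hR⟩ := hcpt.isBounded.subset_closedBall (0 : ℂ)
  have hfinS : {p : Set ℂ × (ℂ ≃ᵢ ℂ) | p.1 ∈ T ∧ p.2 ∈ St ∧ C p ⊆ Δ}.Finite := by
    refine ((hfin R).prod St.finite_toSet).subset ?_
    rintro ⟨A, k⟩ ⟨h1, h2, h3⟩
    refine ⟨⟨h1, ?_⟩, h2⟩
    obtain ⟨w, hw⟩ := hQne
    have hw' : (κ A * k) w ∈ C (A, k) := mem_image_of_mem _ hw
    exact ⟨_, hCA A h1 k h2 hw', hR (h3 hw')⟩
  refine ⟨Set ℂ × (ℂ ≃ᵢ ℂ), hfinS.toFinset, fun p => κ p.1 * p.2, ?_, ?_⟩
  · apply Subset.antisymm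
    · have hint : interior Δ ⊆ ⋃ p ∈ hfinS.toFinset, (κ p.1 * p.2) '' Q := by
        intro z hz
        obtain ⟨ε, hε, hball⟩ := Metric.isOpen_iff.1 isOpen_interior z hz
        have hpos : ∀ i, 0 < sd (u i) (d i) z := by
          intro i
          have hm : z + ((-(ε / 2) : ℝ) : ℂ) * (Complex.I * u i) ∈ Δ := by
            apply interior_subset
            apply hball
            rw [Metric.mem_ball, dist_eq_norm, add_sub_cancel_left, norm_shift, abs_neg, abs_of_pos (by positivity)]
            linarith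
          rw [hΔ] at hm
          have := hm i
          rw [sd_shift] at this
          linarith
        have hzU : z ∈ ⋃₀ T := by rw [hT.cover]; exact mem_univ z
        obtain ⟨A, hA, hzA⟩ := hzU
        have hzA' := hzA
        rw [hκ A hA] at hzA'
        obtain ⟨p, hp, hpz⟩ := hzA'
        rw [hcov] at hp
        obtain ⟨k, hk, hpk⟩ := mem_iUnion₂.1 hp
        have hzC : z ∈ C (A, k) := by
          rw [hC2]
          exact ⟨p, hpk, hpz⟩
        refine mem_iUnion₂.2 ⟨(A, k), ?_, hzC⟩
        rw [Set.Finite.mem_toFinset]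
        refine ⟨hA, hk, ?_⟩
        intro w hw
        rw [hΔ]
        intro i
        rcases hsep A hA k hk i with h | h
        · exact h hw
        · exfalso
          have := h hzC
          have h2 := hpos i
          exact absurd this (not_le.2 h2)
      have hclosed : IsClosed (⋃ p ∈ hfinS.toFinset, (κ p.1 * p.2) '' Q) := by
        refine Set.Finite.isClosed_biUnion (Finset.finite_toSet hfinS.toFinset) ?_
        intro p _
        exact (hQ.cpt.image (κ p.1 * p.2).continuous).isClosed
      exact hreg.trans (closure_minimal hint hclosed)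
    · refine iUnion₂_subset fun p hp => ?_
      rw [Set.Finite.mem_toFinset] at hp
      exact hp.2.2
  · rintro ⟨A, k⟩ h1 ⟨B, l⟩ h2 hne
    rw [Set.Finite.mem_toFinset] at h1 h2
    by_cases hAB : A = B
    · subst hAB
      have hkl : k ≠ l := fun h => hne (by rw [h])
      have hd := hdisj k h1.2.1 l h2.2.1 hkl
      show Disjoint (interior (C (A, k))) (interior (C (A, l)))
      rw [hC2, hC2, int_img, int_img (κ A) (l '' Q)]
      exact (Set.disjoint_image_iff (κ A).injective).2 hd
    · exact (hT.disj h1.1 h2.1 hAB).mono (interior_mono (hCA A h1.1 k h1.2.1))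
        (interior_mono (hCA B h2.1 l h2.2.1))

end H994.AP
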