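import Pool.Agent.H994.AP.Grp2
import Pool.Agent.H994.AP.Supp
import Pool.Agent.H994.AP.JAdd
import Pool.Agent.H994.AP.Iso
import Pool.Agent.H994.AP.RB
import Pool.Agent.H994.AP.Rgd
import Pool.Agent.H994.AP.Stab
import Pool.Agent.H994.AP.Cham
import Pool.Agent.H994.AP.Tile

/-! The main theorem (helper994). -/

set_option autoImplicit false

open Set MeasureTheory Filter Topology

namespace H994.AP

noncomputable section

open H74R2.WT

theorem core : S_core := t_core (t_add t_supp t_Jadd) t_iso t_RB t_Rgd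

/-- the triangle as an intersection of half planes -/
theorem R_eq (p q r : ℝ) (w : Circle) (hr : 0 < r) (hw : (w : ℂ) * r = -p + q * Complex.I) :
    R p q = {z | ∀ i : Fin 3, 0 ≤ sd ((![1, mI, w] : Fin 3 → Circle) i)
      ((![0, 0, -(p * q) / r] : Fin 3 → ℝ) i) z} := by
  have hwre : (w : ℂ).re * r = -p := by
    have := congrArg Complex.re hw
    simpa using this
  have hwim : (w : ℂ).im * r = q := by
    have := congrArg Complex.im hw
    simpa using this
  ext z
  simp only [R, mem_ofPred_eq, Fin.forall_fin_succ, Matrix.cons_val_zero, Matrix.cons_val_succ,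
    Fin.forall_fin_zero, and_true]
  have h1 : sd 1 0 z = z.im := by simp [sd]
  have h2 : sd mI 0 z = z.re := by simp [sd, mI]
  have h3 : sd w (-(p * q) / r) z * r = p * q - (q * z.re + p * z.im) := by
    simp only [sd, Complex.mul_im, Complex.conj_re, Complex.conj_im]
    field_simp
    linear_combination z.im * hwre - z.re * hwim
  rw [h1, h2]
  have h4 : 0 ≤ sd w (-(p * q) / r) z ↔ q * z.re + p * z.im ≤ p * q := by
    constructor
    · intro h
      have := mul_nonneg h hr.le
      rw [h3] at this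
      linarith
    · intro h
      by_contra hc
      push Not at hc
      have := mul_neg_of_neg_of_pos hc hr
      rw [h3] at this
      linarith
  rw [h4]

/-- a tiling with a triangle of mirrors -/
theorem tiledR {P Q : Set ℂ} {T : Set (Set ℂ)} (hT : IsTiling P T)
    (h : ∀ T : Set (Set ℂ), IsTiling P T →
      ∀ (u : Fin 3 → Circle) (d : Fin 3 → ℝ), (∀ i, refl (u i) (d i) ∈ H74R2.WT.Sym T) →
      ∀ Δ : Set ℂ, Δ = {z | ∀ i, 0 ≤ sd (u i) (d i) z} → IsCompact Δ → Δ ⊆ closure (interior Δ) →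
      TiledBy Q Δ) {p q : ℝ} (hp : 0 < p) (hq : 0 < q) (ht : HasTri (H74R2.WT.Sym T) p q) :
    TiledBy Q (R p q) := by
  obtain ⟨g0, w, r, hr, hw, h1, h2, h3⟩ := ht
  obtain ⟨T0, hT0, hS⟩ := t_move P T g0 hT
  obtain ⟨g1, g2, -⟩ := t_Rgd p q hp hq
  refine h T0 hT0 ![1, mI, w] ![0, 0, -(p * q) / r] ?_ (R p q) (R_eq p q r w hr hw) g1.cpt g2
  intro i
  rw [hS]
  fin_cases i
  · exact h1
  · exact h2
  · exact h3

theorem main (P : Set ℂ) (hP : Poly P) (h4 : Realizes P p4m)
    (h6 : Realizes P p6m) : False := by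
  obtain ⟨Q, hQ, hall⟩ := t_tile (t_cham t_stab) P hP
  obtain ⟨T, hT, -, hf⟩ := h4
  obtain ⟨T', hT', -, hf'⟩ := h6
  obtain ⟨a, ha, ht⟩ := t_grp4 _ hf
  obtain ⟨b, hb, ht'⟩ := t_grp6 _ hf'
  have s3 : 0 < Real.sqrt 3 := Real.sqrt_pos.2 (by norm_num)
  exact core Q a b hQ ha hb (tiledR hT hall ha ha ht) (tiledR hT' hall (mul_pos s3 hb) hb ht')

end

end H994.AP
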