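import Pool.Agent.H994.AP.Stmts

/-!
# Normal form of three plane reflections, two of them with perpendicular mirrors
-/

set_option autoImplicit false

namespace H994.AP

namespace Norm

open ComplexConjugate

theorem nrm (u : Circle) : (u : ℂ) * conj (u : ℂ) = 1 := by
  rw [Complex.mul_conj, Circle.normSq_coe, Complex.ofReal_one]

theorem opp_mul_dir (v u : Circle) (c O : ℂ) :
    opp v c * dir u O = opp (v * u⁻¹) (v * conj O + c) := by
  ext z
  show opp v c (dir u O z) = _
  rw [opp_apply, dir_apply, opp_apply, Circle.coe_mul, Circle.coe_inv_eq_conj, map_add, map_mul]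
  ring

theorem dir_mul_opp (v u : Circle) (c O : ℂ) :
    dir u O * opp v c = opp (u * v) (u * c + O) := by
  ext z
  show dir u O (opp v c z) = _
  rw [dir_apply, opp_apply, opp_apply, Circle.coe_mul]
  ring

theorem opp_invol {v : Circle} {c : ℂ} (h : opp v c * opp v c = 1) : (v : ℂ) * conj c + c = 0 := by
  have h1 : opp v c (opp v c 0) = 0 := by
    show (opp v c * opp v c) 0 = 0
    rw [h]
    rfl
  rw [opp_apply, opp_apply, map_zero, mul_zero, zero_add] at h1
  exact h1

theorem exists_sqrt (v : Circle) : ∃ u : Circle, u * u = v := by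
  refine ⟨Circle.exp (Complex.arg v / 2), ?_⟩
  rw [← Circle.exp_add, add_halves, Circle.exp_arg]

end Norm

open _root_.H994.AP.Norm ComplexConjugate in
theorem t_norm : S_norm := by
  rintro a b c ⟨v, c1, rfl⟩ ⟨v', c2, rfl⟩ ⟨v'', c3, rfl⟩ ha hb hc hab hne
  have h1 := opp_invol ha
  have h2 := opp_invol hb
  have h3 := opp_invol hc
  have nv := nrm v
  have nv' := nrm v'
  have nv'' := nrm v''
  -- the product
  have hab1 : ∀ z : ℂ, (opp v c1 * opp v' c2) z = ((v : ℂ) * conj (v' : ℂ)) * z + ((v : ℂ) * conj c2 + c1) := by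
    intro z
    show opp v c1 (opp v' c2 z) = _
    rw [opp_apply, opp_apply, map_add, map_mul, Complex.conj_conj]
    ring
  have hab2 : ∀ z : ℂ, (opp v c1 * opp v' c2) ((opp v c1 * opp v' c2) z) = z := by
    intro z
    have : ((opp v c1 * opp v' c2) * (opp v c1 * opp v' c2)) z = z := by
      rw [hab]
      rfl
    exact this
  have e0 := hab2 0
  have e1 := hab2 1
  simp only [hab1] at e0 e1
  have hm : ((v : ℂ) * conj (v' : ℂ) - 1) * ((v : ℂ) * conj (v' : ℂ) + 1) = 0 := by
    linear_combination e1 - e0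
  have hm1 : (v : ℂ) * conj (v' : ℂ) = -1 := by
    rcases mul_eq_zero.1 hm with h | h
    · exfalso
      apply hne
      have hm' : (v : ℂ) * conj (v' : ℂ) = 1 := by linear_combination h
      rw [hm'] at e0
      have he : (v : ℂ) * conj c2 + c1 = 0 := by linear_combination e0 / 2
      ext z
      rw [hab1, hm', he, one_mul, add_zero]
      rfl
    · linear_combination h
  have hv' : v' = -v := by
    apply Circle.ext
    rw [Circle.coe_neg]
    linear_combination (v' : ℂ) * hm1 - (v : ℂ) * nv'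
  subst hv'
  rw [Circle.coe_neg] at h2
  obtain ⟨u, hu⟩ := exists_sqrt v
  have nu := nrm u
  have huc : (u : ℂ) * u = v := by rw [← Circle.coe_mul, hu]
  set O : ℂ := (c1 + c2) / 2 with hO
  have hOc : conj O = (conj c1 + conj c2) / 2 := by
    rw [hO, map_div₀, map_add, Complex.conj_ofNat]
  have haO : (v : ℂ) * conj O + c1 = O := by
    rw [hOc, hO]
    linear_combination h1 / 2 - h2 / 2
  have hbO : (((-v : Circle)) : ℂ) * conj O + c2 = O := by
    rw [hOc, hO, Circle.coe_neg]
    linear_combination h2 / 2 - h1 / 2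
  have hvu : v * u⁻¹ = u := by rw [← hu, mul_inv_cancel_right]
  refine ⟨dir u O, v'' * u⁻¹ * u⁻¹, conj (u : ℂ) * ((v'' : ℂ) * conj O + c3 - O), ?_, ?_, ?_, ?_⟩
  · rw [eq_mul_inv_iff_mul_eq, opp_mul_dir, dir_mul_opp, haO, hvu]
    simp
  · rw [eq_mul_inv_iff_mul_eq, opp_mul_dir, dir_mul_opp, hbO, neg_mul, hvu]
    simp
  · rw [eq_mul_inv_iff_mul_eq, opp_mul_dir, dir_mul_opp]
    have q1 : u * (v'' * u⁻¹ * u⁻¹) = v'' * u⁻¹ := by
      rw [mul_comm u, inv_mul_cancel_right]
    have q2 : (u : ℂ) * (conj (u : ℂ) * ((v'' : ℂ) * conj O + c3 - O)) + O =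
        (v'' : ℂ) * conj O + c3 := by
      linear_combination ((v'' : ℂ) * conj O + c3 - O) * nu
    rw [q1, q2]
  · rw [Circle.coe_mul, Circle.coe_mul, Circle.coe_inv_eq_conj]
    simp only [map_mul, map_sub, map_add, Complex.conj_conj]
    linear_combination (conj (u : ℂ)) * h3 + (conj (u : ℂ) * O) * nv'' +
      (v'' : ℂ) * conj (u : ℂ) * (conj (v'' : ℂ) * O + conj c3 - conj O) * nu

end H994.AP
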