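import Pool.Agent.H994.AP.Stmts

/-!
# Project AP (helper994): involutions whose product has finite order `> 2` are reflections
(helper404)
-/

set_option autoImplicit false

namespace H994.AP

open H74R2.WT

namespace Refl

theorem dir_or_opp (x : ℂ ≃ᵢ ℂ) : (∃ v c, x = dir v c) ∨ (∃ v c, x = opp v c) := by
  obtain ⟨a, b, ha, h | h⟩ := t_K0 x
  · refine Or.inl ⟨⟨a, by simp [Submonoid.unitSphere, ha]⟩, b, ?_⟩
    ext z
    rw [h z, dir_apply]
  · refine Or.inr ⟨⟨a, by simp [Submonoid.unitSphere, ha]⟩, b, ?_⟩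
    ext z
    rw [h z, opp_apply]

theorem trans_pow (f : ℂ ≃ᵢ ℂ) (t : ℂ) (hf : ∀ z, f z = z + t) (n : ℕ) (z : ℂ) :
    (f ^ n) z = z + n * t := by
  induction n with
  | zero => simp
  | succ n ih =>
    rw [pow_succ', IsometryEquiv.mul_apply, ih, hf]
    push_cast
    ring

theorem trans_one (f : ℂ ≃ᵢ ℂ) (t : ℂ) (hf : ∀ z, f z = z + t) (n : ℕ) (hn : 0 < n)
    (h : f ^ n = 1) : f = 1 := by
  have h1 := trans_pow f t hf n 0
  rw [h] at h1
  have h2 : (0 : ℂ) = 0 + n * t := h1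
  have hn' : (n : ℂ) ≠ 0 := by exact_mod_cast hn.ne'
  have ht : t = 0 := by
    rw [zero_add] at h2
    rcases mul_eq_zero.1 h2.symm with h3 | h3
    · exact absurd h3 hn'
    · exact h3
  ext z
  rw [hf z, ht, add_zero]
  rfl

theorem circle_conj (v : Circle) : (v : ℂ) * (starRingEnd ℂ) (v : ℂ) = 1 := by
  rw [Complex.mul_conj, Circle.normSq_coe]
  simp

theorem opp_sq (v : Circle) (c z : ℂ) :
    ((opp v c) ^ 2) z = z + ((v : ℂ) * (starRingEnd ℂ) c + c) := by
  rw [pow_two, IsometryEquiv.mul_apply, opp_apply, opp_apply, map_add, map_mul,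
    Complex.conj_conj, mul_add, ← mul_assoc, circle_conj]
  ring

theorem opp_pow (f : ℂ ≃ᵢ ℂ) (hf : ∃ v c, f = opp v c) (n : ℕ) (hn : 0 < n) (h : f ^ n = 1) :
    f ^ 2 = 1 := by
  obtain ⟨v, c, rfl⟩ := hf
  refine trans_one _ _ (opp_sq v c) n hn ?_
  rw [← pow_mul, mul_comm, pow_mul, h, one_pow]

theorem dir_mul_opp (v : Circle) (c : ℂ) (v' : Circle) (c' : ℂ) :
    dir v c * opp v' c' = opp (v * v') (v * c' + c) := by
  ext z
  rw [IsometryEquiv.mul_apply, dir_apply, opp_apply, opp_apply, Circle.coe_mul]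
  ring

theorem opp_mul_dir (v : Circle) (c : ℂ) (v' : Circle) (c' : ℂ) :
    opp v c * dir v' c' = opp (v * v'⁻¹) (v * (starRingEnd ℂ) c' + c) := by
  ext z
  rw [IsometryEquiv.mul_apply, dir_apply, opp_apply, opp_apply, Circle.coe_mul,
    Circle.coe_inv_eq_conj, map_add, map_mul]
  ring

theorem dir_invol (x : ℂ ≃ᵢ ℂ) (hx : ∃ v c, x = dir v c) (h : x * x = 1) :
    x = 1 ∨ ∃ c, ∀ z, x z = -z + c := by
  obtain ⟨v, c, rfl⟩ := hx
  have h0 : (dir v c * dir v c) 0 = 0 := by rw [h]; rfl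
  have h1 : (dir v c * dir v c) 1 = 1 := by rw [h]; rfl
  rw [IsometryEquiv.mul_apply, dir_apply, dir_apply] at h0 h1
  have hv : ((v : ℂ) - 1) * ((v : ℂ) + 1) = 0 := by linear_combination h1 - h0
  rcases mul_eq_zero.1 hv with h2 | h2
  · left
    have hv1 : (v : ℂ) = 1 := sub_eq_zero.1 h2
    rw [hv1] at h0
    have hc : c = 0 := by linear_combination h0 / 2
    ext z
    rw [dir_apply, hv1, hc]
    simp
  · right
    refine ⟨c, fun z => ?_⟩
    have hv1 : (v : ℂ) = -1 := eq_neg_of_add_eq_zero_left h2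
    rw [dir_apply, hv1]
    ring

end Refl

open Refl in
theorem t_refl : S_refl := by
  intro x y n hn hx hy hxy hne
  have x1 : x ≠ 1 := by
    rintro rfl
    exact hne (by rw [one_mul, pow_two, hy])
  have y1 : y ≠ 1 := by
    rintro rfl
    exact hne (by rw [mul_one, pow_two, hx])
  rcases dir_or_opp x with hdx | hox
  · rcases dir_or_opp y with hdy | hoy
    · exfalso
      rcases dir_invol x hdx hx with h | ⟨c, hc⟩
      · exact x1 h
      rcases dir_invol y hdy hy with h | ⟨c', hc'⟩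
      · exact y1 h
      have h1 : x * y = 1 := by
        refine trans_one (x * y) (c - c') (fun z => ?_) n hn hxy
        rw [IsometryEquiv.mul_apply, hc', hc]
        ring
      exact hne (by rw [h1, one_pow])
    · exfalso
      apply hne
      refine opp_pow (x * y) ?_ n hn hxy
      obtain ⟨v, c, rfl⟩ := hdx
      obtain ⟨v', c', rfl⟩ := hoy
      exact ⟨_, _, dir_mul_opp v c v' c'⟩
  · rcases dir_or_opp y with hdy | hoy
    · exfalso
      apply hne
      refine opp_pow (x * y) ?_ n hn hxy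
      obtain ⟨v, c, rfl⟩ := hox
      obtain ⟨v', c', rfl⟩ := hdy
      exact ⟨_, _, opp_mul_dir v c v' c'⟩
    · exact ⟨hox, hoy⟩

end H994.AP
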