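import Pool.Agent.H994.AP.Core
import Pool.Agent.H994.AP.Refl
import Pool.Agent.H994.AP.Norm

/-! The groups p4m and p6m (helper994). -/

set_option autoImplicit false

open Set MeasureTheory Filter Topology

namespace H994.AP

noncomputable section

open H74R2.WT

/-- evaluation of an identity of isometries -/
theorem ev {x y : ℂ ≃ᵢ ℂ} (h : x = y) (z : ℂ) : x z = y z := by rw [h]

theorem t_rel4 : S_rel4 := by
  have hII := Complex.I_mul_I
  let A : ℂ ≃ᵢ ℂ := N34.rf 1 (by simp) 0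
  let Bb : ℂ ≃ᵢ ℂ := N34.rf (-1) (by simp) 0
  let C : ℂ ≃ᵢ ℂ := N34.rf (-Complex.I) (by simp) (1 + Complex.I)
  have aA : ∀ z, A z = (starRingEnd ℂ) z := fun z => by
    show (1 : ℂ) * (starRingEnd ℂ) z + 0 = _; ring
  have aB : ∀ z, Bb z = -(starRingEnd ℂ) z := fun z => by
    show (-1 : ℂ) * (starRingEnd ℂ) z + 0 = _; ring
  have aC : ∀ z, C z = -Complex.I * (starRingEnd ℂ) z + (1 + Complex.I) := fun z => rfl
  have I4 : (-Complex.I) ^ 4 = 1 := by
    linear_combination (Complex.I * Complex.I - 1) * Complex.I_mul_I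
  have mA : A ∈ p4m := Or.inr ⟨trivial, 1, one_mem _, one_pow _, 0, zero_mem _, fun z => by
    rw [aA]; show (starRingEnd ℂ) z = 1 * (starRingEnd ℂ) z + 0 + 0; ring⟩
  have mB : Bb ∈ p4m := Or.inr ⟨trivial, -1, neg_mem (one_mem _), by norm_num, 0, zero_mem _,
    fun z => by rw [aB]; show -(starRingEnd ℂ) z = -1 * (starRingEnd ℂ) z + 0 + 0; ring⟩
  have mC : C ∈ p4m := Or.inr ⟨trivial, -Complex.I, neg_mem N34.dat4.mem, I4, 1 + Complex.I,
    add_mem (one_mem _) N34.dat4.mem, fun z => by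
      rw [aC]; show _ = -Complex.I * (starRingEnd ℂ) z + (1 + Complex.I) + 0; ring⟩
  have eab : ∀ z, (A * Bb) z = -z := fun z => by
    show A (Bb z) = _
    rw [aA, aB]; simp
  have eca : ∀ z, (C * A) z = -Complex.I * z + (1 + Complex.I) := fun z => by
    show C (A z) = _
    rw [aC, aA]; simp
  have ebc : ∀ z, (Bb * C) z = -Complex.I * z + (-1 + Complex.I) := fun z => by
    show Bb (C z) = _
    rw [aB, aC]
    simp only [map_add, map_mul, map_neg, map_one, Complex.conj_conj, Complex.conj_I]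
    ring
  have eca2 : ∀ z, ((C * A) ^ 2) z = -z + 2 := fun z => by
    rw [pow_two]
    show (C * A) ((C * A) z) = _
    rw [eca, eca]
    linear_combination (z - 1) * hII
  have ebc2 : ∀ z, ((Bb * C) ^ 2) z = -z + 2 * Complex.I := fun z => by
    rw [pow_two]
    show (Bb * C) ((Bb * C) z) = _
    rw [ebc, ebc]
    linear_combination (z - 1) * hII
  refine ⟨⟨A, mA⟩, ⟨Bb, mB⟩, ⟨C, mC⟩, ?_, ?_, ?_, ?_, ?_, ?_, ?_, ?_, ?_, ?_⟩
  · apply Subtype.ext
    ext z
    show A (A z) = z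
    rw [aA, aA]; simp
  · apply Subtype.ext
    ext z
    show Bb (Bb z) = z
    rw [aB, aB]; simp
  · apply Subtype.ext
    ext z
    show C (C z) = z
    rw [aC, aC]
    simp only [map_add, map_mul, map_neg, map_one, Complex.conj_conj, Complex.conj_I]
    linear_combination (-z + 1) * hII
  · apply Subtype.ext
    ext z
    show (A * Bb) ((A * Bb) z) = z
    rw [eab, eab]; ring
  · intro h
    have h1 := ev (congrArg Subtype.val h) 1
    have h2 : (A * Bb) 1 = 1 := h1
    rw [eab] at h2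
    norm_num at h2
  · apply Subtype.ext
    ext z
    show ((C * A) ^ 4) z = z
    have : (C * A) ^ 4 = (C * A) ^ 2 * (C * A) ^ 2 := by rw [← pow_add]
    rw [this]
    show ((C * A) ^ 2) (((C * A) ^ 2) z) = z
    rw [eca2, eca2]; ring
  · intro h
    have h1 := ev (congrArg Subtype.val h) 0
    have h2 : ((C * A) ^ 2) 0 = 0 := h1
    rw [eca2] at h2
    norm_num at h2
  · apply Subtype.ext
    ext z
    show ((Bb * C) ^ 4) z = z
    have : (Bb * C) ^ 4 = (Bb * C) ^ 2 * (Bb * C) ^ 2 := by rw [← pow_add]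
    rw [this]
    show ((Bb * C) ^ 2) (((Bb * C) ^ 2) z) = z
    rw [ebc2, ebc2]; ring
  · intro h
    have h1 := ev (congrArg Subtype.val h) 0
    have h2 : ((Bb * C) ^ 2) 0 = 0 := h1
    rw [ebc2] at h2
    norm_num at h2
  · intro h
    have h1 := ev (congrArg Subtype.val h) 0
    have h2 : (A * Bb) 0 = ((C * A) ^ 2) 0 := h1
    rw [eab, eca2] at h2
    norm_num at h2

theorem t_rel6 : S_rel6 := by
  have hs := N34.e3_sq
  have hc : (starRingEnd ℂ) e3 = 1 - e3 := by
    have := N34.e3_cj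
    simpa using this
  have hs' : e3 * e3 = e3 - 1 := by simpa using hs
  have hn : ‖(1 - e3 : ℂ)‖ = 1 := by
    have h6 : (1 - e3) ^ 6 = 1 := by
      have : (1 - e3) ^ 2 = -e3 := by linear_combination hs'
      have h3 : (1 - e3) ^ 6 = ((1 - e3) ^ 2) ^ 3 := by ring
      rw [h3, this]
      linear_combination (-(e3 + 1)) * hs'
    exact Complex.norm_eq_one_of_pow_eq_one h6 (by norm_num)
  let A : ℂ ≃ᵢ ℂ := N34.rf 1 (by simp) 0
  let Bb : ℂ ≃ᵢ ℂ := N34.rf (-1) (by simp) 0
  let C : ℂ ≃ᵢ ℂ := N34.rf (1 - e3) hn e3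
  have aA : ∀ z, A z = (starRingEnd ℂ) z := fun z => by
    show (1 : ℂ) * (starRingEnd ℂ) z + 0 = _; ring
  have aB : ∀ z, Bb z = -(starRingEnd ℂ) z := fun z => by
    show (-1 : ℂ) * (starRingEnd ℂ) z + 0 = _; ring
  have aC : ∀ z, C z = (1 - e3) * (starRingEnd ℂ) z + e3 := fun z => rfl
  have h62 : (1 - e3) ^ 6 = 1 := by
    have : (1 - e3) ^ 2 = -e3 := by linear_combination hs'
    have h3 : (1 - e3) ^ 6 = ((1 - e3) ^ 2) ^ 3 := by ring
    rw [h3, this]
    linear_combination (-(e3 + 1)) * hs'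
  have me : e3 ∈ N34.L3 := ⟨0, 1, by simp⟩
  have mA : A ∈ p6m := Or.inr ⟨trivial, 1, one_mem _, one_pow _, 0, zero_mem _, fun z => by
    rw [aA]; show (starRingEnd ℂ) z = 1 * (starRingEnd ℂ) z + 0 + 0; ring⟩
  have mB : Bb ∈ p6m := Or.inr ⟨trivial, -1, neg_mem (one_mem _), by norm_num, 0, zero_mem _,
    fun z => by rw [aB]; show -(starRingEnd ℂ) z = -1 * (starRingEnd ℂ) z + 0 + 0; ring⟩
  have mC : C ∈ p6m := Or.inr ⟨trivial, 1 - e3, sub_mem (one_mem _) me, h62, e3, me, fun z => by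
      rw [aC]; show _ = (1 - e3) * (starRingEnd ℂ) z + e3 + 0; ring⟩
  have eab : ∀ z, (A * Bb) z = -z := fun z => by
    show A (Bb z) = _
    rw [aA, aB]; simp
  have eca : ∀ z, (C * A) z = (1 - e3) * z + e3 := fun z => by
    show C (A z) = _
    rw [aC, aA]; simp
  have ebc : ∀ z, (Bb * C) z = -e3 * z - (1 - e3) := fun z => by
    show Bb (C z) = _
    rw [aB, aC]
    simp only [map_add, map_mul, map_sub, map_one, Complex.conj_conj, hc]
    ring
  have eca2 : ∀ z, ((C * A) ^ 2) z = -e3 * z + (1 + e3) := fun z => by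
    rw [pow_two]
    show (C * A) ((C * A) z) = _
    rw [eca, eca]
    linear_combination (z - 1) * hs'
  have eca3 : ∀ z, ((C * A) ^ 3) z = -z + 2 := fun z => by
    rw [pow_succ]
    show ((C * A) ^ 2) ((C * A) z) = _
    rw [eca, eca2]
    linear_combination (z - 1) * hs'
  have ebc2 : ∀ z, ((Bb * C) ^ 2) z = (e3 - 1) * z + e3 := fun z => by
    rw [pow_two]
    show (Bb * C) ((Bb * C) z) = _
    rw [ebc, ebc]
    linear_combination (z - 1) * hs'
  refine ⟨⟨A, mA⟩, ⟨Bb, mB⟩, ⟨C, mC⟩, ?_, ?_, ?_, ?_, ?_, ?_, ?_, ?_, ?_, ?_, ?_⟩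
  · apply Subtype.ext
    ext z
    show A (A z) = z
    rw [aA, aA]; simp
  · apply Subtype.ext
    ext z
    show Bb (Bb z) = z
    rw [aB, aB]; simp
  · apply Subtype.ext
    ext z
    show C (C z) = z
    rw [aC, aC]
    simp only [map_add, map_mul, map_sub, map_one, Complex.conj_conj, hc]
    linear_combination (-z + 1) * hs'
  · apply Subtype.ext
    ext z
    show (A * Bb) ((A * Bb) z) = z
    rw [eab, eab]; ring
  · intro h
    have h1 := ev (congrArg Subtype.val h) 1
    have h2 : (A * Bb) 1 = 1 := h1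
    rw [eab] at h2
    norm_num at h2
  · apply Subtype.ext
    ext z
    show ((C * A) ^ 6) z = z
    have : (C * A) ^ 6 = (C * A) ^ 3 * (C * A) ^ 3 := by rw [← pow_add]
    rw [this]
    show ((C * A) ^ 3) (((C * A) ^ 3) z) = z
    rw [eca3, eca3]; ring
  · intro h
    have h1 := ev (congrArg Subtype.val h) 0
    have h2 : ((C * A) ^ 2) 0 = 0 := h1
    rw [eca2] at h2
    have h3 := congrArg Complex.re h2
    simp [e3] at h3
    norm_num at h3
  · intro h
    have h1 := ev (congrArg Subtype.val h) 0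
    have h2 : ((C * A) ^ 3) 0 = 0 := h1
    rw [eca3] at h2
    norm_num at h2
  · apply Subtype.ext
    ext z
    show ((Bb * C) ^ 3) z = z
    rw [pow_succ]
    show ((Bb * C) ^ 2) ((Bb * C) z) = z
    rw [ebc, ebc2]
    linear_combination (-z + 1) * hs'
  · intro h
    have h1 := ev (congrArg Subtype.val h) 0
    have h2 : ((Bb * C) ^ 2) 0 = 0 := h1
    rw [ebc2] at h2
    have h3 := congrArg Complex.re h2
    simp [e3] at h3
  · intro h
    have h1 := ev (congrArg Subtype.val h) 0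
    have h2 : (A * Bb) 0 = ((C * A) ^ 3) 0 := h1
    rw [eab, eca3] at h2
    norm_num at h2

end

end H994.AP
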