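import Pool.Agent.H994.AP.Stmts

/-!
The third mirror.
-/

set_option autoImplicit false

namespace H994.AP

namespace Third

theorem conj_inv (w : Circle) : (starRingEnd ℂ) (w : ℂ) * w = 1 := by
  rw [← Circle.coe_inv_eq_conj, ← Circle.coe_mul, inv_mul_cancel, Circle.coe_one]

/-- the unit vector in the direction `-p + i q` -/
theorem exists_dir (p q r : ℝ) (hr : 0 < r) (h : r * r = p ^ 2 + q ^ 2) :
    ∃ W : Circle, (W : ℂ) * r = -p + q * Complex.I := by
  have hr' : (r : ℂ) ≠ 0 := by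
    exact_mod_cast hr.ne'
  have hn : ‖(-p + q * Complex.I : ℂ) / r‖ = 1 := by
    have h1 : Complex.normSq (-p + q * Complex.I) = r * r := by
      rw [h, Complex.normSq_apply]
      simp
      ring
    have h2 : ‖(-p + q * Complex.I : ℂ)‖ = r := by
      rw [← Real.sqrt_mul_self hr.le, ← h1]
      exact Complex.norm_def _
    rw [norm_div, h2, Complex.norm_real, Real.norm_of_nonneg hr.le, div_self hr.ne']
  refine ⟨⟨(-p + q * Complex.I : ℂ) / r, mem_sphere_zero_iff_norm.2 hn⟩, ?_⟩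
  show (-p + q * Complex.I : ℂ) / r * r = _
  rw [div_mul_cancel₀ _ hr']

theorem main (G : Subgroup (ℂ ≃ᵢ ℂ)) (g : ℂ ≃ᵢ ℂ) (w : Circle) (e : ℂ) (p q : ℝ)
    (hp : 0 < p) (hq : 0 < q) (h1 : e = p * (1 - w)) (h2 : e = Complex.I * q * (1 + w))
    (m1 : g * opp 1 0 * g⁻¹ ∈ G) (m2 : g * opp (-1) 0 * g⁻¹ ∈ G) (m3 : g * opp w e * g⁻¹ ∈ G) :
    HasTri G p q ∧ (w : ℂ).re = (p ^ 2 - q ^ 2) / (p ^ 2 + q ^ 2) := by
  have hpos : 0 < p ^ 2 + q ^ 2 := by positivity
  have hr : 0 < √(p ^ 2 + q ^ 2) := Real.sqrt_pos.2 hpos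
  have hrr : √(p ^ 2 + q ^ 2) * √(p ^ 2 + q ^ 2) = p ^ 2 + q ^ 2 := Real.mul_self_sqrt hpos.le
  obtain ⟨W, hW⟩ := exists_dir p q _ hr hrr
  generalize √(p ^ 2 + q ^ 2) = r at hr hrr hW
  have hrrC : (r : ℂ) * r = p ^ 2 + q ^ 2 := by exact_mod_cast hrr
  have hrC : (r : ℂ) ≠ 0 := by exact_mod_cast hr.ne'
  have hI : Complex.I * Complex.I = -1 := Complex.I_mul_I
  have hpq : (p : ℂ) + Complex.I * q ≠ 0 := by
    intro h0
    have := congrArg Complex.re h0
    simp at this
    exact hp.ne' this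
  have hw0 : (w : ℂ) * (p + Complex.I * q) = p - Complex.I * q := by
    have := h1.symm.trans h2
    linear_combination -this
  have hw1 : (w : ℂ) * (r * r) = (p - Complex.I * q) ^ 2 := by
    rw [hrrC]
    linear_combination (p - Complex.I * q) * hw0 + (w : ℂ) * q ^ 2 * hI
  have hWW : (W : ℂ) * W = w := by
    have h3 : (W : ℂ) * W * (r * r) = w * (r * r) := by
      rw [hw1]
      linear_combination (W * r + (-p + q * Complex.I)) * hW
    exact mul_right_cancel₀ (mul_ne_zero hrC hrC) h3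
  have hWWc : W * W = w := by
    apply Circle.ext
    rw [Circle.coe_mul]
    exact hWW
  have he : (2 * ((-(p * q) / r : ℝ) : ℂ) * Complex.I * (W : ℂ)) = e := by
    have h3 : (2 * ((-(p * q) / r : ℝ) : ℂ) * Complex.I * (W : ℂ)) * (r * r) = e * (r * r) := by
      rw [h1]
      push_cast
      have h4 : (2 * (-(p * q) / r) * Complex.I * (W : ℂ)) * (r * r) =
          2 * (-(p * q)) * Complex.I * ((W : ℂ) * r) := by
        field_simp
      rw [h4, hW]
      have h5 : (p : ℂ) * (1 - w) * (r * r) = p * (r * r) - p * (w * (r * r)) := by ring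
      rw [h5, hw1, hrrC]
      linear_combination (-(p : ℂ) * q ^ 2) * hI
    exact mul_right_cancel₀ (mul_ne_zero hrC hrC) h3
  refine ⟨⟨g, W, r, hr, hW, ?_, ?_, ?_⟩, ?_⟩
  · have h3 : refl 1 0 = opp 1 0 := by
      unfold refl
      congr 1
      · simp
      · simp
    rw [h3]
    exact m1
  · have h3 : refl mI 0 = opp (-1) 0 := by
      unfold refl
      congr 1
      · apply Circle.ext
        rw [Circle.coe_mul]
        show -Complex.I * -Complex.I = _
        rw [neg_mul_neg, hI]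
        rfl
      · simp
    rw [h3]
    exact m2
  · have h3 : refl W (-(p * q) / r) = opp w e := by
      unfold refl
      rw [hWWc, he]
    rw [h3]
    exact m3
  · have h3 := congrArg Complex.re hw1
    have h4 : ((w : ℂ) * (r * r)).re = (w : ℂ).re * (r * r) := by
      rw [← Complex.ofReal_mul, Complex.re_mul_ofReal]
    have h5 : (((p : ℂ) - Complex.I * q) ^ 2).re = p ^ 2 - q ^ 2 := by
      rw [pow_two]
      simp
      ring
    rw [h4, h5, hrr] at h3
    rw [← h3]
    field_simp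

theorem conj_move (g s x y : ℂ ≃ᵢ ℂ) (h : s * x = y * s) :
    (g * s) * x * (g * s)⁻¹ = g * y * g⁻¹ := by
  have : g * s * x = g * y * s := by
    rw [mul_assoc, h, ← mul_assoc]
  rw [this, mul_inv_rev]
  group

end Third

open Third in
theorem t_third : S_third := by
  intro G g w e m1 m2 m3 hwe he hw1 hw2
  have hww := conj_inv w
  have hw0 : (w : ℂ) ≠ 0 := Circle.coe_ne_zero w
  have hcw : (starRingEnd ℂ) (w : ℂ) = (w : ℂ)⁻¹ := eq_inv_of_mul_eq_one_left hww
  have hce : (starRingEnd ℂ) e = -e / w := by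
    rw [eq_div_iff hw0]
    linear_combination hwe
  have h1w : (1 - (w : ℂ)) ≠ 0 := fun h => hw1 (by linear_combination -h)
  have h2w : (1 + (w : ℂ)) ≠ 0 := fun h => hw2 (by linear_combination h)
  have h3w : ((w : ℂ) - 1) ≠ 0 := fun h => hw1 (by linear_combination h)
  obtain ⟨p, hp⟩ : ∃ p : ℝ, e = p * (1 - w) := by
    obtain ⟨p, hp⟩ := Complex.conj_eq_iff_real.1 (show (starRingEnd ℂ) (e / (1 - w)) =
      e / (1 - w) by
        rw [map_div₀, map_sub, map_one, hcw, hce]
        have h4 : (1 - (w : ℂ)⁻¹) ≠ 0 := by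
          intro h0
          apply hw1
          have : (w : ℂ)⁻¹ = 1 := by linear_combination -h0
          rwa [inv_eq_one] at this
        rw [div_eq_div_iff h4 h1w]
        field_simp
        ring)
    exact ⟨p, by rw [← hp, div_mul_cancel₀ _ h1w]⟩
  obtain ⟨q, hq⟩ : ∃ q : ℝ, e = Complex.I * q * (1 + w) := by
    obtain ⟨q, hq⟩ := Complex.conj_eq_iff_real.1 (show (starRingEnd ℂ)
      (e / (Complex.I * (1 + w))) = e / (Complex.I * (1 + w)) by
        rw [map_div₀, map_mul, map_add, map_one, hcw, hce, Complex.conj_I]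
        have h4 : (1 + (w : ℂ)⁻¹) ≠ 0 := by
          intro h0
          apply hw2
          have h5 : (w : ℂ)⁻¹ = -1 := by linear_combination h0
          rw [inv_eq_iff_eq_inv] at h5
          rw [h5]
          norm_num
        rw [div_eq_div_iff (mul_ne_zero (neg_ne_zero.2 Complex.I_ne_zero) h4)
          (mul_ne_zero Complex.I_ne_zero h2w)]
        field_simp
        ring)
    refine ⟨q, ?_⟩
    rw [← hq]
    field_simp
  have hp0 : p ≠ 0 := by
    rintro rfl
    apply he
    rw [hp]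
    simp
  have hq0 : q ≠ 0 := by
    rintro rfl
    apply he
    rw [hq]
    simp
  have hcw' : ((w⁻¹ : Circle) : ℂ) = (starRingEnd ℂ) (w : ℂ) := Circle.coe_inv_eq_conj w
  have hcre : ((w⁻¹ : Circle) : ℂ).re = (w : ℂ).re := by
    rw [hcw', Complex.conj_re]
  have hpc : (starRingEnd ℂ) e = p * (1 - ((w⁻¹ : Circle) : ℂ)) := by
    rw [hcw']
    have := congrArg (starRingEnd ℂ) hp
    simpa using this
  have hqc : (starRingEnd ℂ) e = -(Complex.I * q * (1 + ((w⁻¹ : Circle) : ℂ))) := by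
    rw [hcw']
    have := congrArg (starRingEnd ℂ) hq
    simpa using this
  rcases lt_or_gt_of_ne hp0 with hpn | hpp <;> rcases lt_or_gt_of_ne hq0 with hqn | hqp
  · -- both negative
    refine ⟨-p, -q, neg_pos.2 hpn, neg_pos.2 hqn, ?_⟩
    have k1 := conj_move g (dir (-1) 0) (opp 1 0) (opp 1 0) (by
      ext z
      show (dir (-1) 0) ((opp 1 0) z) = (opp 1 0) ((dir (-1) 0) z)
      simp only [dir_apply, opp_apply]
      simp)
    have k2 := conj_move g (dir (-1) 0) (opp (-1) 0) (opp (-1) 0) (by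
      ext z
      show (dir (-1) 0) ((opp (-1) 0) z) = (opp (-1) 0) ((dir (-1) 0) z)
      simp only [dir_apply, opp_apply]
      simp)
    have k3 := conj_move g (dir (-1) 0) (opp w (-e)) (opp w e) (by
      ext z
      show (dir (-1) 0) ((opp w (-e)) z) = (opp w e) ((dir (-1) 0) z)
      simp only [dir_apply, opp_apply]
      simp
      ring)
    exact main G (g * dir (-1) 0) w (-e) (-p) (-q) (neg_pos.2 hpn) (neg_pos.2 hqn)
      (by rw [hp]; push_cast; ring) (by rw [hq]; push_cast; ring) (by rw [k1]; exact m1)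
      (by rw [k2]; exact m2) (by rw [k3]; exact m3)
  · refine ⟨-p, q, neg_pos.2 hpn, hqp, ?_⟩
    have k1 := conj_move g (opp (-1) 0) (opp 1 0) (opp 1 0) (by
      ext z
      show (opp (-1) 0) ((opp 1 0) z) = (opp 1 0) ((opp (-1) 0) z)
      simp only [opp_apply]
      simp)
    have k2 := conj_move g (opp (-1) 0) (opp (-1) 0) (opp (-1) 0) rfl
    have k3 := conj_move g (opp (-1) 0) (opp w⁻¹ (-(starRingEnd ℂ) e)) (opp w e) (by
      ext z
      show (opp (-1) 0) ((opp w⁻¹ (-(starRingEnd ℂ) e)) z) = (opp w e) ((opp (-1) 0) z)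
      simp only [opp_apply, hcw']
      simp
      ring)
    rw [← hcre]
    have h5 := main G (g * opp (-1) 0) w⁻¹ (-(starRingEnd ℂ) e) (-p) q (neg_pos.2 hpn) hqp
      (by rw [hpc]; push_cast; ring) (by rw [hqc]; ring) (by rw [k1]; exact m1)
      (by rw [k2]; exact m2) (by rw [k3]; exact m3)
    exact h5
  · refine ⟨p, -q, hpp, neg_pos.2 hqn, ?_⟩
    have k1 := conj_move g (opp 1 0) (opp 1 0) (opp 1 0) rfl
    have k2 := conj_move g (opp 1 0) (opp (-1) 0) (opp (-1) 0) (by
      ext z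
      show (opp 1 0) ((opp (-1) 0) z) = (opp (-1) 0) ((opp 1 0) z)
      simp only [opp_apply]
      simp)
    have k3 := conj_move g (opp 1 0) (opp w⁻¹ ((starRingEnd ℂ) e)) (opp w e) (by
      ext z
      show (opp 1 0) ((opp w⁻¹ ((starRingEnd ℂ) e)) z) = (opp w e) ((opp 1 0) z)
      simp only [opp_apply, hcw']
      simp)
    rw [← hcre]
    exact main G (g * opp 1 0) w⁻¹ ((starRingEnd ℂ) e) p (-q) hpp (neg_pos.2 hqn)
      hpc (by rw [hqc]; push_cast; ring) (by rw [k1]; exact m1)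
      (by rw [k2]; exact m2) (by rw [k3]; exact m3)
  · exact ⟨p, q, hpp, hqp, main G g w e p q hpp hqp hp hq m1 m2 m3⟩

end H994.AP
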