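import Pool.Agent.H994.AP.Grp
import Pool.Agent.H994.AP.Third

/-! Groups isomorphic to p4m and p6m contain the reflections in the sides of a triangle (helper994). -/

set_option autoImplicit false

open Set MeasureTheory Filter Topology

namespace H994.AP

noncomputable section

open H74R2.WT

theorem conj_pow' (g x : ℂ ≃ᵢ ℂ) (n : ℕ) : (g * x * g⁻¹) ^ n = g * x ^ n * g⁻¹ := conj_pow

theorem opp_mul (w v : Circle) (e f z : ℂ) : (opp w e * opp v f) z =
    w * (starRingEnd ℂ) v * z + (w * (starRingEnd ℂ) f + e) := by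
  show opp w e (opp v f z) = _
  rw [opp_apply, opp_apply]
  simp only [map_add, map_mul, Complex.conj_conj]
  ring

/-- common part: three elements with the relations -/
theorem common (G : Subgroup (ℂ ≃ᵢ ℂ)) (a b c : ℂ ≃ᵢ ℂ) (ha : a ∈ G) (hb : b ∈ G) (hc : c ∈ G)
    (n m : ℕ) (hn : 0 < n) (hm : 0 < m) (haa : a * a = 1) (hbb : b * b = 1) (hcc : c * c = 1)
    (hab : (a * b) * (a * b) = 1) (hab1 : a * b ≠ 1) (hca : (c * a) ^ n = 1)
    (hca2 : (c * a) ^ 2 ≠ 1) (hbc : (b * c) ^ m = 1) (hbc2 : (b * c) ^ 2 ≠ 1) :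
    ∃ (w : ℂ), ‖w‖ = 1 ∧ w ^ n = 1 ∧ w ^ 2 ≠ 1 ∧ (∀ k : ℕ, w ^ k = 1 → (c * a) ^ k = 1) ∧
      ((∀ k : ℕ, w ^ k = -1 → a * b = (c * a) ^ k) ∨
      ∃ p q : ℝ, 0 < p ∧ 0 < q ∧ HasTri G p q ∧ w.re = (p ^ 2 - q ^ 2) / (p ^ 2 + q ^ 2)) := by
  obtain ⟨c1, a1⟩ := t_refl c a n hn hcc haa hca hca2
  obtain ⟨b1, -⟩ := t_refl b c m hm hbb hcc hbc hbc2
  obtain ⟨g, w, e, rfl, rfl, rfl, hwe⟩ := t_norm a b c a1 b1 c1 haa hbb hcc hab hab1
  -- (c a)
  have hcaeq : g * opp w e * g⁻¹ * (g * opp 1 0 * g⁻¹) = g * (opp w e * opp 1 0) * g⁻¹ := by group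
  rw [hcaeq, conj_pow'] at hca hca2
  have hone : ∀ x : ℂ ≃ᵢ ℂ, g * x * g⁻¹ = 1 ↔ x = 1 := by
    intro x
    constructor
    · intro h
      have : g⁻¹ * (g * x * g⁻¹) * g = g⁻¹ * 1 * g := by rw [h]
      simpa [mul_assoc] using this
    · rintro rfl
      simp
  rw [hone] at hca
  rw [ne_eq, hone] at hca2
  have hx : ∀ z, (opp w e * opp 1 0) z = w * z + e := by
    intro z
    rw [opp_mul]; simp
  have hxk : ∀ (k : ℕ) (z y : ℂ), ((opp w e * opp 1 0) ^ k) z - ((opp w e * opp 1 0) ^ k) y =
      (w : ℂ) ^ k * (z - y) := by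
    intro k
    induction k with
    | zero => intro z y; simp
    | succ k ih =>
      intro z y
      rw [pow_succ]
      show ((opp w e * opp 1 0) ^ k) ((opp w e * opp 1 0) z) -
        ((opp w e * opp 1 0) ^ k) ((opp w e * opp 1 0) y) = _
      rw [ih, hx, hx]
      ring
  have hwn : (w : ℂ) ^ n = 1 := by
    have h1 := hxk n 1 0
    rw [hca] at h1
    have h2 : (1 : ℂ) - 0 = (w : ℂ) ^ n * (1 - 0) := h1
    simpa using h2.symm
  have hw1 : (w : ℂ) ≠ 1 := by
    intro h1
    -- translation
    have h2 : ∀ (k : ℕ) (z : ℂ), ((opp w e * opp 1 0) ^ k) z = z + k * e := by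
      intro k
      induction k with
      | zero => intro z; simp
      | succ k ih =>
        intro z
        rw [pow_succ]
        show ((opp w e * opp 1 0) ^ k) ((opp w e * opp 1 0) z) = _
        rw [ih, hx, h1]
        push_cast
        ring
    have h3 := h2 n 0
    rw [hca] at h3
    have h4 : (0 : ℂ) = 0 + n * e := h3
    rw [zero_add, eq_comm, mul_eq_zero] at h4
    have h5 : e = 0 := h4.resolve_left (by exact_mod_cast hn.ne')
    apply hca2
    ext z
    rw [h2, h5]; simp
  have hwm1 : (w : ℂ) ≠ -1 := by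
    intro h1
    apply hca2
    ext z
    rw [pow_two]
    show (opp w e * opp 1 0) ((opp w e * opp 1 0) z) = z
    rw [hx, hx, h1]
    ring
  have hfix : ∀ k : ℕ, ((opp w e * opp 1 0) ^ k) (e / (1 - w)) = e / (1 - w) := by
    intro k
    have h1 : (1 - (w : ℂ)) ≠ 0 := sub_ne_zero.2 (Ne.symm hw1)
    induction k with
    | zero => simp
    | succ k ih =>
      rw [pow_succ]
      show ((opp w e * opp 1 0) ^ k) ((opp w e * opp 1 0) (e / (1 - w))) = _
      have h2 : (opp w e * opp 1 0) (e / (1 - w)) = e / (1 - w) := by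
        rw [hx]
        field_simp
        ring
      rw [h2, ih]
  refine ⟨w, Circle.norm_coe w, hwn, ?_, ?_, ?_⟩
  · intro h
    have : ((w : ℂ) - 1) * (w + 1) = 0 := by linear_combination h
    rcases mul_eq_zero.1 this with h1 | h1
    · exact hw1 (by linear_combination h1)
    · exact hwm1 (by linear_combination h1)
  · intro k hk
    rw [hcaeq, conj_pow', hone]
    ext z
    have h1 := hxk k z (e / (1 - w))
    rw [hfix, hk] at h1
    show ((opp w e * opp 1 0) ^ k) z = z
    linear_combination h1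
  by_cases he : e = 0
  · left
    intro k hk
    rw [hcaeq, conj_pow']
    have habeq : g * opp 1 0 * g⁻¹ * (g * opp (-1) 0 * g⁻¹) = g * (opp 1 0 * opp (-1) 0) * g⁻¹ := by
      group
    rw [habeq]
    congr 2
    ext z
    have h1 := hxk k z 0
    have h0 : ((opp w e * opp 1 0) ^ k) 0 = 0 := by
      have : ∀ k : ℕ, ((opp w e * opp 1 0) ^ k) 0 = 0 := by
        intro k
        induction k with
        | zero => simp
        | succ k ih =>
          rw [pow_succ]
          show ((opp w e * opp 1 0) ^ k) ((opp w e * opp 1 0) 0) = _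
          have h2 : (opp w e * opp 1 0) 0 = 0 := by rw [hx, he]; simp
          rw [h2, ih]
      exact this k
    rw [h0, hk] at h1
    rw [opp_mul]
    simp only [sub_zero] at h1
    rw [h1]
    simp
  · right
    exact t_third G g w e ha hb hc hwe he hw1 hwm1

theorem t_grp4 : S_grp4 := by
  rintro G ⟨f⟩
  obtain ⟨a, b, c, h1, h2, h3, h4, h5, h6, h7, h8, h9, h10⟩ := t_rel4
  have tr1 : ∀ x : p4m, x = 1 → ((f.symm x : G) : ℂ ≃ᵢ ℂ) = 1 := by
    rintro x rfl; simp
  have tr2 : ∀ x : p4m, x ≠ 1 → ((f.symm x : G) : ℂ ≃ᵢ ℂ) ≠ 1 := by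
    intro x hx h
    apply hx
    have : f.symm x = 1 := Subtype.ext h
    simpa using this
  have key := common G (f.symm a : G) (f.symm b : G) (f.symm c : G) (f.symm a).2 (f.symm b).2
    (f.symm c).2 4 4 (by norm_num) (by norm_num)
    (by simpa using tr1 _ h1) (by simpa using tr1 _ h2) (by simpa using tr1 _ h3)
    (by simpa using tr1 _ h4) (by simpa using tr2 _ h5) (by simpa using tr1 _ h6)
    (by simpa using tr2 _ h7) (by simpa using tr1 _ h8) (by simpa using tr2 _ h9)
  obtain ⟨w, hw, hw4, hw2, -, hor⟩ := key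
  have hw2' : w ^ 2 = -1 := by
    have : (w ^ 2 - 1) * (w ^ 2 + 1) = 0 := by linear_combination hw4
    rcases mul_eq_zero.1 this with h | h
    · exact absurd (by linear_combination h) hw2
    · linear_combination h
  rcases hor with hor | ⟨p, q, hp, hq, hT, hre⟩
  · exfalso
    have h11 := hor 2 hw2'
    apply h10
    have h12 : f.symm a * f.symm b = (f.symm c * f.symm a) ^ 2 := Subtype.ext (by simpa using h11)
    have h13 := congrArg f h12
    simpa using h13
  · have hre0 : w.re = 0 := by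
      have e1 := congrArg Complex.re hw2'
      have e2 := congrArg Complex.im hw2'
      simp only [pow_two, Complex.mul_re, Complex.mul_im, Complex.neg_re, Complex.neg_im,
        Complex.one_re, Complex.one_im, neg_zero] at e1 e2
      have e3 : w.re * w.im = 0 := by linarith
      rcases mul_eq_zero.1 e3 with h | h
      · exact h
      · rw [h] at e1; nlinarith [mul_self_nonneg w.re]
    rw [hre0, eq_comm, div_eq_zero_iff] at hre
    have hpq : 0 < p ^ 2 + q ^ 2 := by positivity
    have h11 := hre.resolve_right hpq.ne'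
    have h12 : p = q := by nlinarith
    exact ⟨p, hp, by rw [← h12] at hT; exact hT⟩

theorem t_grp6 : S_grp6 := by
  rintro G ⟨f⟩
  obtain ⟨a, b, c, h1, h2, h3, h4, h5, h6, h7, h7', h8, h9, h10⟩ := t_rel6
  have tr1 : ∀ x : p6m, x = 1 → ((f.symm x : G) : ℂ ≃ᵢ ℂ) = 1 := by
    rintro x rfl; simp
  have tr2 : ∀ x : p6m, x ≠ 1 → ((f.symm x : G) : ℂ ≃ᵢ ℂ) ≠ 1 := by
    intro x hx h
    apply hx
    have : f.symm x = 1 := Subtype.ext h
    simpa using this
  have key := common G (f.symm a : G) (f.symm b : G) (f.symm c : G) (f.symm a).2 (f.symm b).2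
    (f.symm c).2 6 3 (by norm_num) (by norm_num)
    (by simpa using tr1 _ h1) (by simpa using tr1 _ h2) (by simpa using tr1 _ h3)
    (by simpa using tr1 _ h4) (by simpa using tr2 _ h5) (by simpa using tr1 _ h6)
    (by simpa using tr2 _ h7) (by simpa using tr1 _ h8) (by simpa using tr2 _ h9)
  obtain ⟨w, hw, hw6, hw2, hk, hor⟩ := key
  have hw3 : w ^ 3 ≠ 1 := by
    intro h
    exact (by simpa using tr2 _ h7' : ((f.symm c : G) * (f.symm a : G) : ℂ ≃ᵢ ℂ) ^ 3 ≠ 1) (hk 3 h)
  have hw3' : w ^ 3 = -1 := by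
    have : (w ^ 3 - 1) * (w ^ 3 + 1) = 0 := by linear_combination hw6
    rcases mul_eq_zero.1 this with h | h
    · exact absurd (by linear_combination h) hw3
    · linear_combination h
  rcases hor with hor | ⟨p, q, hp, hq, hT, hre⟩
  · exfalso
    have h11 := hor 3 hw3'
    apply h10
    have h12 : f.symm a * f.symm b = (f.symm c * f.symm a) ^ 3 := Subtype.ext (by simpa using h11)
    have h13 := congrArg f h12
    simpa using h13
  · have hwq : w ^ 2 - w + 1 = 0 := by
      have : (w + 1) * (w ^ 2 - w + 1) = 0 := by linear_combination hw3'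
      rcases mul_eq_zero.1 this with h | h
      · exfalso
        apply hw2
        linear_combination (w - 1) * h
      · exact h
    have hwc : w * (starRingEnd ℂ) w = 1 := by
      rw [Complex.mul_conj, Complex.normSq_eq_norm_sq, hw]; simp
    have hre0 : w.re = 1 / 2 := by
      have h1 : (starRingEnd ℂ) w = 1 - w := by
        have h0 : w ≠ 0 := by
          intro h; rw [h] at hw; simp at hw
        apply mul_left_cancel₀ h0
        linear_combination hwc + hwq
      have h2 := congrArg Complex.re h1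
      simp at h2
      linarith
    have hpq : 0 < p ^ 2 + q ^ 2 := by positivity
    rw [hre0, eq_comm, div_eq_iff hpq.ne'] at hre
    have s3 : 0 < Real.sqrt 3 := Real.sqrt_pos.2 (by norm_num)
    have s33 : Real.sqrt 3 * Real.sqrt 3 = 3 := Real.mul_self_sqrt (by norm_num)
    have h12 : p = Real.sqrt 3 * q := by
      have h13 : (p - Real.sqrt 3 * q) * (p + Real.sqrt 3 * q) = 0 := by
        linear_combination 2 * hre - q ^ 2 * s33
      rcases mul_eq_zero.1 h13 with h | h
      · linarith
      · have : 0 < p + Real.sqrt 3 * q := by positivity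
        linarith
    exact ⟨q, hq, by rw [← h12]; exact hT⟩

end

end H994.AP
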