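import Pool.Agent.H994.AP.Fin

/-! The groups p4m and p6m as stabilizers of lattices; polygons (helper994). -/

set_option autoImplicit false

open Set MeasureTheory Filter Topology

namespace H994.AP

noncomputable section

open H74R2.WT

/-- the lattice `ℤ + ℤ τ` -/
def lat (τ : ℂ) : Set ℂ := {z | ∃ a b : ℤ, z = a + b * τ}

theorem norm_sq_one {s : ℤ} {τ : ℂ} (hτ : τ * τ = s * τ - 1) (hc : (starRingEnd ℂ) τ = s - τ)
    (a b : ℤ) (h : ‖(a : ℂ) + b * τ‖ = 1) : a ^ 2 + s * a * b + b ^ 2 = 1 := by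
  have h2 : ((a : ℂ) + b * τ) * (starRingEnd ℂ) ((a : ℂ) + b * τ) =
      ((a ^ 2 + s * a * b + b ^ 2 : ℤ) : ℂ) := by
    rw [map_add, map_mul, map_intCast, map_intCast, hc]
    push_cast
    linear_combination (-(b : ℂ) ^ 2) * hτ
  rw [Complex.mul_conj, Complex.normSq_eq_norm_sq, h] at h2
  have h3 : ((a ^ 2 + s * a * b + b ^ 2 : ℤ) : ℂ) = 1 := by rw [← h2]; simp
  exact_mod_cast h3

/-- common form: the group of the ring `L` is the stabilizer of `L` -/
theorem grp_eq {L : Subring ℂ} {τ : ℂ} {n : ℕ} (hD : N34.Dat L τ 0 n)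
    (hu : ∀ u ∈ L, ‖u‖ = 1 → u ^ n = 1) (g : ℂ ≃ᵢ ℂ) :
    g ∈ N34.Grp hD True ↔ g '' (L : Set ℂ) = L := by
  have sub : ∀ g : ℂ ≃ᵢ ℂ, g ∈ N34.Grp hD True → g '' (L : Set ℂ) ⊆ L := by
    rintro g (⟨u, hu, -, l, hl, hg⟩ | ⟨-, u, hu, -, l, hl, hg⟩) _ ⟨z, hz, rfl⟩
    · rw [hg]; exact add_mem (mul_mem hu hz) hl
    · rw [hg, add_zero]; exact add_mem (mul_mem hu (hD.cjm z hz)) hl
  constructor
  · intro hg
    refine Subset.antisymm (sub g hg) ?_
    intro z hz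
    have h1 := sub g⁻¹ ((N34.Grp hD True).inv_mem hg) ⟨z, hz, rfl⟩
    exact ⟨_, h1, g.apply_inv_self z⟩
  · intro h
    have h0 : g 0 ∈ L := by
      have : g 0 ∈ g '' (L : Set ℂ) := mem_image_of_mem _ L.zero_mem
      rw [h] at this; exact this
    have h1 : g 1 ∈ L := by
      have : g 1 ∈ g '' (L : Set ℂ) := mem_image_of_mem _ L.one_mem
      rw [h] at this; exact this
    rcases iso_cases g with ⟨v, c, rfl⟩ | ⟨v, c, rfl⟩
    · have hc : c ∈ L := by rw [dir_apply] at h0; simpa using h0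
      have hv : (v : ℂ) ∈ L := by
        rw [dir_apply, mul_one] at h1
        have := sub_mem h1 hc
        rwa [add_sub_cancel_right] at this
      exact Or.inl ⟨v, hv, hu v hv (Circle.norm_coe v), c, hc, fun z => dir_apply v c z⟩
    · have hc : c ∈ L := by rw [opp_apply] at h0; simpa using h0
      have hv : (v : ℂ) ∈ L := by
        rw [opp_apply, map_one, mul_one] at h1
        have := sub_mem h1 hc
        rwa [add_sub_cancel_right] at this
      exact Or.inr ⟨trivial, v, hv, hu v hv (Circle.norm_coe v), c, hc, fun z => by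
        rw [opp_apply, add_zero]⟩

theorem mem_p4m (g : ℂ ≃ᵢ ℂ) : g ∈ p4m ↔ g '' lat Complex.I = lat Complex.I := by
  refine grp_eq N34.dat4 ?_ g
  rintro _ ⟨a, b, rfl⟩ h
  have h1 := norm_sq_one (s := 0) N34.I_sq4 N34.I_cj4 a b h
  have h2 : a ^ 2 + b ^ 2 = 1 := by linarith
  have ha : -1 ≤ a ∧ a ≤ 1 := by constructor <;> nlinarith [sq_nonneg b]
  have hb : -1 ≤ b ∧ b ≤ 1 := by constructor <;> nlinarith [sq_nonneg a]
  obtain ⟨ha1, ha2⟩ := ha
  obtain ⟨hb1, hb2⟩ := hb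
  have hII := Complex.I_mul_I
  interval_cases a <;> interval_cases b <;>
    first
    | omega
    | (push_cast; ring1)
    | (push_cast; linear_combination (Complex.I * Complex.I - 1) * hII)

theorem mem_p6m (g : ℂ ≃ᵢ ℂ) : g ∈ p6m ↔ g '' lat e3 = lat e3 := by
  refine grp_eq (N34.dat3 (n := 6) (by norm_num)) ?_ g
  rintro _ ⟨a, b, rfl⟩ h
  have h1 := norm_sq_one (s := 1) N34.e3_sq N34.e3_cj a b h
  have h2 : a ^ 2 + a * b + b ^ 2 = 1 := by linarith
  have ha : -1 ≤ a ∧ a ≤ 1 := by constructor <;> nlinarith [sq_nonneg (a + 2 * b)]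
  have hb : -1 ≤ b ∧ b ≤ 1 := by constructor <;> nlinarith [sq_nonneg (2 * a + b)]
  obtain ⟨ha1, ha2⟩ := ha
  obtain ⟨hb1, hb2⟩ := hb
  have hs : e3 * e3 = e3 - 1 := by simpa using N34.e3_sq
  have c3 : e3 ^ 3 = -1 := by linear_combination (e3 + 1) * hs
  interval_cases a <;> interval_cases b <;>
    first
    | omega
    | (push_cast; ring1)
    | (push_cast; linear_combination (e3 ^ 3 - 1) * c3)
    | (push_cast
       have h3 : (e3 - 1) ^ 2 = -e3 := by linear_combination hs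
       have h4 : (e3 - 1) ^ 6 = ((e3 - 1) ^ 2) ^ 3 := by ring
       have h5 : (e3 - 1) ^ 6 = 1 := by rw [h4, h3]; linear_combination -c3
       linear_combination h5)

theorem seg_line (x y : ℂ) : ∃ q : Circle × ℝ, ∀ z ∈ segment ℝ x y, sd q.1 q.2 z = 0 := by
  by_cases h : y = x
  · subst h
    refine ⟨(1, y.im), fun z hz => ?_⟩
    rw [segment_same] at hz
    rw [show z = y from hz]
    simp [sd]
  · have hn : ‖y - x‖ ≠ 0 := norm_ne_zero_iff.2 (sub_ne_zero.2 h)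
    have hnC : (‖y - x‖ : ℂ) ≠ 0 := by exact_mod_cast hn
    have hu : ‖(y - x) / (‖y - x‖ : ℂ)‖ = 1 := by
      rw [norm_div, Complex.norm_real, Real.norm_eq_abs, abs_norm, div_self hn]
    obtain ⟨u, huu⟩ : ∃ u : Circle, (u : ℂ) = (y - x) / (‖y - x‖ : ℂ) :=
      ⟨⟨_, mem_sphere_zero_iff_norm.2 hu⟩, rfl⟩
    refine ⟨(u, ((starRingEnd ℂ) (u : ℂ) * x).im), fun z hz => ?_⟩
    rw [segment_eq_image'] at hz
    obtain ⟨t, -, rfl⟩ := hz
    have h1 : y - x = (‖y - x‖ : ℂ) * u := by rw [huu]; field_simp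
    have h2 : (starRingEnd ℂ) (u : ℂ) * (x + t • (y - x)) =
        (starRingEnd ℂ) (u : ℂ) * x + ((t * ‖y - x‖ : ℝ) : ℂ) := by
      rw [Complex.real_smul]
      push_cast
      linear_combination (t : ℂ) * (‖y - x‖ : ℂ) * conj_mul_self u +
        (starRingEnd ℂ) (u : ℂ) * t * h1
    simp only [sd]
    rw [h2, Complex.add_im, Complex.ofReal_im]
    ring

theorem lines_of_segments {F : Set ℂ} (s : Finset (ℂ × ℂ)) (h : F ⊆ ⋃ q ∈ s, segment ℝ q.1 q.2) :
    ∃ L : Finset (Circle × ℝ), ∀ z ∈ F, ∃ q ∈ L, sd q.1 q.2 z = 0 := by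
  classical
  choose f hf using fun q : ℂ × ℂ => seg_line q.1 q.2
  refine ⟨s.image f, fun z hz => ?_⟩
  obtain ⟨q, hq, hzq⟩ := mem_iUnion₂.1 (h hz)
  exact ⟨f q, Finset.mem_image_of_mem _ hq, hf q z hzq⟩

end

end H994.AP
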