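import Pool.Graph.R_seed8.H368WT.K0
import Pool.Graph.R_seed8.H965R3.WT_O
import Pool.Graph.R_seed8.H940R.WT.N3
import Pool.Graph.R_seed8.H940R.WT.N4

/-!
# No all-purpose tile: statements of the parts (helper994)

`MP_2c7cbe_co` Q1.  A polygon does not have monohedral tilings of both types p4m and p6m.
Definitions `IsTiling, Sym, Coco, IsWallpaper, Realizes, AllPurpose, Region` are those of
`H74R2.WT` (library).
-/

set_option autoImplicit false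

open Set MeasureTheory Filter Topology

namespace H994.AP

noncomputable section

open H74R2.WT

/-! ## Lines, half planes, reflections -/

/-- signed distance of `z` from the oriented line with direction `u` (a unit vector) at height `d`;
positive on the left of the line -/
def sd (u : Circle) (d : ℝ) (z : ℂ) : ℝ := ((starRingEnd ℂ) (u : ℂ) * z).im - d

/-- the isometry `z ↦ v z + c` -/
def dir (v : Circle) (c : ℂ) : ℂ ≃ᵢ ℂ :=
  ((rotation v).toIsometryEquiv).trans (IsometryEquiv.addRight c)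

/-- the isometry `z ↦ v conj z + c` -/
def opp (v : Circle) (c : ℂ) : ℂ ≃ᵢ ℂ := (Complex.conjLIE.toIsometryEquiv).trans (dir v c)

theorem dir_apply (v : Circle) (c z : ℂ) : dir v c z = v * z + c := rfl

theorem opp_apply (v : Circle) (c z : ℂ) : opp v c z = v * (starRingEnd ℂ) z + c := rfl

/-- the reflection in the line `sd u d = 0` -/
def refl (u : Circle) (d : ℝ) : ℂ ≃ᵢ ℂ := opp (u * u) (2 * d * Complex.I * u)

/-! ## Good sets -/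

/-- compact sets whose frontier is contained in the union of finitely many lines -/
structure Gd (P : Set ℂ) : Prop where
  cpt : IsCompact P
  lines : ∃ F : Finset (Circle × ℝ), ∀ z ∈ frontier P, ∃ q ∈ F, sd q.1 q.2 z = 0

/-- polygonal regions: compact, nonempty connected interior, closure of the interior, frontier in
finitely many lines.  Every polygon is one. -/
structure Poly (P : Set ℂ) : Prop where
  gd : Gd P
  ne : (interior P).Nonempty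
  conn : IsPreconnected (interior P)
  reg : P ⊆ closure (interior P)

/-- `A` is a finite union of copies of `Q` with disjoint interiors -/
def TiledBy (Q A : Set ℂ) : Prop :=
  ∃ (ι : Type) (s : Finset ι) (g : ι → (ℂ ≃ᵢ ℂ)), A = ⋃ i ∈ s, g i '' Q ∧
    ∀ i ∈ s, ∀ j ∈ s, i ≠ j → Disjoint (interior (g i '' Q)) (interior (g j '' Q))

/-! ## The invariant -/

/-- `z + τ i u ∈ P` for `τ = 1/(n+1)`, `n` large -/
def seqIn (P : Set ℂ) (u z : ℂ) : Prop :=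
  ∀ᶠ n : ℕ in atTop, z + ((1 / ((n : ℝ) + 1) : ℝ) : ℂ) * (Complex.I * u) ∈ P

/-- length of the part of the line `Im (conj u z) = d` which has `P` on its left -/
def lam (P : Set ℂ) (u : ℂ) (d : ℝ) : ℝ :=
  (volume {s : ℝ | seqIn P u (((s : ℂ) + (d : ℂ) * Complex.I) * u)}).toReal

/-- length with `P` on the left minus length with `P` on the right -/
def J (P : Set ℂ) (q : Circle × ℝ) : ℝ := lam P (q.1 : ℂ) q.2 - lam P (-(q.1 : ℂ)) (-q.2)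

/-- the invariant: sum over the oriented lines of `u ^ 3 h (J)` -/
def B (h : ℝ →+ ℝ) (P : Set ℂ) : ℂ := ∑ᶠ q : Circle × ℝ, (q.1 : ℂ) ^ 3 * (h (J P q) : ℂ)

/-- finite support -/
def S_supp : Prop := ∀ P : Set ℂ, Gd P → {q : Circle × ℝ | J P q ≠ 0}.Finite

/-- additivity of `J` (for each line) -/
def S_Jadd : Prop := ∀ (ι : Type) (s : Finset ι) (A : ι → Set ℂ) (P : Set ℂ), Gd P →
  (∀ i ∈ s, Gd (A i)) → P = ⋃ i ∈ s, A i →
  (∀ i ∈ s, ∀ j ∈ s, i ≠ j → Disjoint (interior (A i)) (interior (A j))) →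
  ∀ q : Circle × ℝ, J P q = ∑ i ∈ s, J (A i) q

/-- additivity of `B` -/
def S_add : Prop := ∀ (h : ℝ →+ ℝ) (ι : Type) (s : Finset ι) (A : ι → Set ℂ) (P : Set ℂ), Gd P →
  (∀ i ∈ s, Gd (A i)) → P = ⋃ i ∈ s, A i →
  (∀ i ∈ s, ∀ j ∈ s, i ≠ j → Disjoint (interior (A i)) (interior (A j))) →
  B h P = ∑ i ∈ s, B h (A i)

/-- behaviour under isometries -/
def S_iso : Prop := (∀ (h : ℝ →+ ℝ) (v : Circle) (c : ℂ) (P : Set ℂ),
    B h (dir v c '' P) = (v : ℂ) ^ 3 * B h P) ∧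
  (∀ (h : ℝ →+ ℝ) (v : Circle) (c : ℂ) (P : Set ℂ),
    B h (opp v c '' P) = -((v : ℂ) ^ 3 * (starRingEnd ℂ) (B h P)))

/-- images of good sets under isometries are good -/
def S_gdimg : Prop := ∀ (g : ℂ ≃ᵢ ℂ) (P : Set ℂ), Gd P → Gd (g '' P)

/-! ## Right triangles -/

/-- the closed right triangle with vertices `0, p, i q` -/
def R (p q : ℝ) : Set ℂ := {z | 0 ≤ z.im ∧ 0 ≤ z.re ∧ q * z.re + p * z.im ≤ p * q}

/-- it is a good set -/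
def S_Rgd : Prop := ∀ p q : ℝ, 0 < p → 0 < q → Gd (R p q) ∧ R p q ⊆ closure (interior (R p q)) ∧
  (interior (R p q)).Nonempty

/-- its invariant; `w` is the direction of the hypotenuse, `r` its length -/
def S_RB : Prop := ∀ (h : ℝ →+ ℝ) (p q r : ℝ) (w : Circle), 0 < p → 0 < q → 0 < r →
  (w : ℂ) * r = -p + q * Complex.I →
  B h (R p q) = 2 * ((h p : ℂ) + Complex.I * (h q : ℂ) + (w : ℂ) ^ 3 * (h r : ℂ))

/-! ## Additive functions -/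

def S_h1 : Prop := ∀ b x y : ℝ, 0 < b → ∃ h : ℝ →+ ℝ, h b = x ∧ h (Real.sqrt 3 * b) = y

def S_h2 : Prop := ∀ a b : ℝ, 0 < a → 0 < b → ∃ h : ℝ →+ ℝ, h b = 0 ∧ h (Real.sqrt 3 * b) = 0 ∧
  h a + h (Real.sqrt 2 * a) / Real.sqrt 2 ≠ 0

/-- the core: no good set tiles both an isosceles right triangle and a 30-60-90 triangle -/
def S_core : Prop := ∀ (Q : Set ℂ) (a b : ℝ), Gd Q → 0 < a → 0 < b → TiledBy Q (R a a) →
  ¬ TiledBy Q (R (Real.sqrt 3 * b) b)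

/-! ## Chambers -/

/-- a good set with interior points has finitely many symmetries -/
def S_stab : Prop := ∀ P : Set ℂ, Gd P → (interior P).Nonempty → {g : ℂ ≃ᵢ ℂ | g '' P = P}.Finite

/-- chambers -/
def S_cham : Prop := ∀ P : Set ℂ, Gd P → (interior P).Nonempty →
  ∃ (Q : Set ℂ) (St : Finset (ℂ ≃ᵢ ℂ)), Gd Q ∧ P = ⋃ g ∈ St, g '' Q ∧
    (∀ g ∈ St, ∀ k ∈ St, g ≠ k → Disjoint (interior (g '' Q)) (interior (k '' Q))) ∧
    (∀ σ : ℂ ≃ᵢ ℂ, σ '' P = P → σ ≠ 1 → ∀ g ∈ St, ∃ x : ℂ, σ x ≠ x ∧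
      g '' Q ⊆ {z | dist z x ≤ dist z (σ x)})

/-- convex regions bounded by mirrors are tiled by the chamber -/
def S_tile : Prop := ∀ P : Set ℂ, Poly P → ∃ Q : Set ℂ, Gd Q ∧ ∀ T : Set (Set ℂ), IsTiling P T →
  ∀ (u : Fin 3 → Circle) (d : Fin 3 → ℝ), (∀ i, refl (u i) (d i) ∈ H74R2.WT.Sym T) →
  ∀ Δ : Set ℂ, Δ = {z | ∀ i, 0 ≤ sd (u i) (d i) z} → IsCompact Δ → Δ ⊆ closure (interior Δ) →
  TiledBy Q Δ

/-- moving a tiling -/
def S_move : Prop := ∀ (P : Set ℂ) (T : Set (Set ℂ)) (g : ℂ ≃ᵢ ℂ), IsTiling P T →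
  ∃ T0 : Set (Set ℂ), IsTiling P T0 ∧
    ∀ σ : ℂ ≃ᵢ ℂ, σ ∈ H74R2.WT.Sym T0 ↔ g * σ * g⁻¹ ∈ H74R2.WT.Sym T

/-! ## Groups -/

/-- the symmetry group of the square lattice -/
def p4m : Subgroup (ℂ ≃ᵢ ℂ) := N34.Grp N34.dat4 True

/-- the symmetry group of the hexagonal lattice -/
def p6m : Subgroup (ℂ ≃ᵢ ℂ) := N34.Grp (N34.dat3 (n := 6) (by norm_num)) True

/-- `-i` -/
def mI : Circle := ⟨-Complex.I, by simp [Submonoid.unitSphere]⟩

/-- `G` contains the reflections in the sides of a triangle congruent to `R p q` -/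
def HasTri (G : Subgroup (ℂ ≃ᵢ ℂ)) (p q : ℝ) : Prop :=
  ∃ (g0 : ℂ ≃ᵢ ℂ) (w : Circle) (r : ℝ), 0 < r ∧ (w : ℂ) * r = -p + q * Complex.I ∧
    g0 * refl 1 0 * g0⁻¹ ∈ G ∧ g0 * refl mI 0 * g0⁻¹ ∈ G ∧ g0 * refl w (-(p * q) / r) * g0⁻¹ ∈ G

/-- relations in the group p4m -/
def Rel4 (G : Type) [Group G] : Prop := ∃ a b c : G, a * a = 1 ∧ b * b = 1 ∧ c * c = 1 ∧
  (a * b) * (a * b) = 1 ∧ a * b ≠ 1 ∧ (c * a) ^ 4 = 1 ∧ (c * a) ^ 2 ≠ 1 ∧ (b * c) ^ 4 = 1 ∧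
  (b * c) ^ 2 ≠ 1 ∧ a * b ≠ (c * a) ^ 2

/-- relations in the group p6m -/
def Rel6 (G : Type) [Group G] : Prop := ∃ a b c : G, a * a = 1 ∧ b * b = 1 ∧ c * c = 1 ∧
  (a * b) * (a * b) = 1 ∧ a * b ≠ 1 ∧ (c * a) ^ 6 = 1 ∧ (c * a) ^ 2 ≠ 1 ∧ (c * a) ^ 3 ≠ 1 ∧
  (b * c) ^ 3 = 1 ∧ (b * c) ^ 2 ≠ 1 ∧ a * b ≠ (c * a) ^ 3

def S_rel4 : Prop := Rel4 p4m
def S_rel6 : Prop := Rel6 p6m

/-- involutions whose product has finite order `> 2` are reflections -/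
def S_refl : Prop := ∀ (x y : ℂ ≃ᵢ ℂ) (n : ℕ), 0 < n → x * x = 1 → y * y = 1 → (x * y) ^ n = 1 →
  (x * y) ^ 2 ≠ 1 → (∃ v c, x = opp v c) ∧ (∃ v c, y = opp v c)

/-- normal form of three reflections, two of which have perpendicular mirrors -/
def S_norm : Prop := ∀ a b c : ℂ ≃ᵢ ℂ, (∃ v e, a = opp v e) → (∃ v e, b = opp v e) →
  (∃ v e, c = opp v e) → a * a = 1 → b * b = 1 → c * c = 1 → (a * b) * (a * b) = 1 → a * b ≠ 1 →
  ∃ (g : ℂ ≃ᵢ ℂ) (w : Circle) (e : ℂ), a = g * opp 1 0 * g⁻¹ ∧ b = g * opp (-1) 0 * g⁻¹ ∧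
    c = g * opp w e * g⁻¹ ∧ (w : ℂ) * (starRingEnd ℂ) e + e = 0

/-- the third mirror meets the other two in different points -/
def S_third : Prop := ∀ (G : Subgroup (ℂ ≃ᵢ ℂ)) (g : ℂ ≃ᵢ ℂ) (w : Circle) (e : ℂ),
  g * opp 1 0 * g⁻¹ ∈ G → g * opp (-1) 0 * g⁻¹ ∈ G → g * opp w e * g⁻¹ ∈ G →
  (w : ℂ) * (starRingEnd ℂ) e + e = 0 → e ≠ 0 → (w : ℂ) ≠ 1 → (w : ℂ) ≠ -1 →
  ∃ p q : ℝ, 0 < p ∧ 0 < q ∧ HasTri G p q ∧ (w : ℂ).re = (p ^ 2 - q ^ 2) / (p ^ 2 + q ^ 2)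

def S_grp4 : Prop := ∀ G : Subgroup (ℂ ≃ᵢ ℂ), Nonempty (G ≃* p4m) → ∃ a : ℝ, 0 < a ∧ HasTri G a a

def S_grp6 : Prop := ∀ G : Subgroup (ℂ ≃ᵢ ℂ), Nonempty (G ≃* p6m) →
  ∃ b : ℝ, 0 < b ∧ HasTri G (Real.sqrt 3 * b) b

end

end H994.AP
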